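import Pool.Agent.Work.MP_5d4920_nt.PartA3

/-! From `ZMod (p^2)` to rational numbers. -/

namespace MP5d

variable {p : ℕ} [hp : Fact p.Prime]

/-! ### a primitive sixth root of unity -/

lemma exists_w {ν : ℕ} (hν : p = 6 * ν + 1) : ∃ w : A p, w ^ 2 - w + 1 = 0 := by
  have hpos := nu_pos hν
  have h2 := two_ne hν
  have hodd := p_odd hν
  obtain ⟨g, hg⟩ := IsCyclic.exists_generator (α := (ZMod p)ˣ)
  have hord : orderOf g = p - 1 := by
    rw [orderOf_eq_card_of_forall_mem_zpowers hg, Nat.card_eq_fintype_card, ZMod.card_units_eq_totient,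
      Nat.totient_prime hp.out]
  have hz3 : ((g : ZMod p) ^ (2 * ν)) ^ 3 = 1 := by
    rw [← pow_mul, show 2 * ν * 3 = p - 1 by omega, ← Units.val_pow_eq_pow_val, ← hord,
      pow_orderOf_eq_one]; rfl
  have hz1 : (g : ZMod p) ^ (2 * ν) ≠ 1 := by
    intro h
    have : g ^ (2 * ν) = 1 := by ext; simpa using h
    have := orderOf_dvd_of_pow_eq_one this
    rw [hord] at this
    have := Nat.le_of_dvd (by omega) this
    omega
  set z := (g : ZMod p) ^ (2 * ν)
  have ht3 : tau z ^ 3 = 1 := by rw [← tau_pow, hz3, tau_one]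
  refine ⟨-tau z, ?_⟩
  have hne : pi p (tau z - 1) ≠ 0 := by
    rw [map_sub, pi_tau, map_one]; exact sub_ne_zero.mpr hz1
  apply cancel hne
  linear_combination ht3

/-! ### squares of central binomial coefficients -/

lemma cb_sq {n : ℕ} (hn : p = 2 * n + 1) (k : ℕ) (hk : k ≤ n) :
    ((Nat.centralBinom k : ℕ) : A p) ^ 2 =
      16 ^ k * (-1) ^ k * (((n.choose k : ℕ) : A p) * (((n + k).choose k : ℕ) : A p)) := by
  induction k with
  | zero => simp
  | succ k ih =>
    have ih' := ih (by omega)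
    have c0 := Nat.succ_mul_centralBinom_succ k
    have c1 := Nat.add_one_mul_choose_eq (n + k) k
    have c2 := Nat.choose_succ_right_eq n k
    have c0' := congrArg (fun m : ℕ => (m : A p)) c0
    have c1' := congrArg (fun m : ℕ => (m : A p)) c1
    have c2' := congrArg (fun m : ℕ => (m : A p)) c2
    have hk1 := pi_nat_ne_zero (p := p) (k := k + 1) (by omega) (by omega)
    have hpA : 2 * (n : A p) + 1 = p := by
      have := congrArg (fun k : ℕ => (k : A p)) hn
      push_cast at this; exact this.symm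
    have hnk : ((n - k : ℕ) : A p) = (n : A p) - k := by
      rw [Nat.cast_sub (by omega)]
    push_cast at c0' c1' c2' hk1
    rw [hnk] at c2'
    have hne : pi p (((k : A p) + 1) ^ 2) ≠ 0 := by
      rw [map_pow]; exact pow_ne_zero _ hk1
    apply cancel hne
    rw [← add_assoc, pow_succ (16 : A p), pow_succ (-1 : A p)]
    have hpp : (2 * (n : A p) + 1) ^ 2 = 0 := by rw [hpA, sq, pp]
    set cb := ((Nat.centralBinom k : ℕ) : A p)
    set cb' := ((Nat.centralBinom (k + 1) : ℕ) : A p)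
    set x := ((n.choose k : ℕ) : A p)
    set x' := ((n.choose (k + 1) : ℕ) : A p)
    set y := (((n + k).choose k : ℕ) : A p)
    set y' := (((n + k + 1).choose (k + 1) : ℕ) : A p)
    linear_combination (((k : A p) + 1) * cb' + 2 * (2 * k + 1) * cb) * c0' +
      (4 * (2 * (k : A p) + 1) ^ 2) * ih' +
      (16 ^ k * 16 * (-1) ^ k) * ((x' * (k + 1)) * (-c1') + ((n : A p) + k + 1) * y * c2') +
      (16 ^ k * (-1) ^ k * x * y * 4) * hpp

lemma cb_zero {n : ℕ} (hn : p = 2 * n + 1) (k : ℕ) (hk : n < k) (hkp : k < p) :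
    ((Nat.centralBinom k : ℕ) : A p) ^ 2 = 0 := by
  have h1 : p ∣ Nat.centralBinom k := by
    rw [Nat.centralBinom_eq_two_mul_choose]
    exact hp.out.dvd_choose hkp (by omega) (by omega)
  have h2 : p ^ 2 ∣ (Nat.centralBinom k) ^ 2 := pow_dvd_pow_of_dvd h1 2
  have := (natCast_A_eq_zero_iff (p := p) _).mpr h2
  push_cast at this; exact this

/-! ### representation of rational numbers -/

/-- `x` is a rational with denominator prime to `p` and residue `a` modulo `p^2` -/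
def Rep (p : ℕ) [Fact p.Prime] (x : ℚ) (a : A p) : Prop :=
  ∃ N M : ℤ, (M : ZMod p) ≠ 0 ∧ x * M = N ∧ (N : A p) = M * a

lemma Rep_int (z : ℤ) : Rep p (z : ℚ) (z : A p) := ⟨z, 1, by simp, by simp, by simp⟩

lemma Rep_nat (z : ℕ) : Rep p (z : ℚ) (z : A p) := by
  have := Rep_int (p := p) (z : ℤ)
  simpa using this

lemma Rep.add {x y : ℚ} {a b : A p} (hx : Rep p x a) (hy : Rep p y b) : Rep p (x + y) (a + b) := by
  obtain ⟨N, M, h1, h2, h3⟩ := hx
  obtain ⟨N', M', h1', h2', h3'⟩ := hy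
  refine ⟨N * M' + N' * M, M * M', ?_, ?_, ?_⟩
  · push_cast; exact mul_ne_zero h1 h1'
  · push_cast; linear_combination (M' : ℚ) * h2 + (M : ℚ) * h2'
  · push_cast; linear_combination (M' : A p) * h3 + (M : A p) * h3'

lemma Rep.mul {x y : ℚ} {a b : A p} (hx : Rep p x a) (hy : Rep p y b) : Rep p (x * y) (a * b) := by
  obtain ⟨N, M, h1, h2, h3⟩ := hx
  obtain ⟨N', M', h1', h2', h3'⟩ := hy
  refine ⟨N * N', M * M', ?_, ?_, ?_⟩
  · push_cast; exact mul_ne_zero h1 h1'
  · push_cast; linear_combination (y * M' : ℚ) * h2 + (N : ℚ) * h2'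
  · push_cast; linear_combination (N' : A p) * h3 + (M * a : A p) * h3'

lemma Rep.neg {x : ℚ} {a : A p} (hx : Rep p x a) : Rep p (-x) (-a) := by
  have := (Rep_int (p := p) (-1)).mul hx
  simpa using this

lemma Rep.sub {x y : ℚ} {a b : A p} (hx : Rep p x a) (hy : Rep p y b) : Rep p (x - y) (a - b) := by
  rw [sub_eq_add_neg, sub_eq_add_neg]; exact hx.add hy.neg

lemma Rep.pow {x : ℚ} {a : A p} (hx : Rep p x a) (k : ℕ) : Rep p (x ^ k) (a ^ k) := by
  induction k with
  | zero => simpa using Rep_int (p := p) 1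
  | succ k ih => rw [pow_succ, pow_succ]; exact ih.mul hx

lemma Rep_inv (z : ℤ) (hz : (z : ZMod p) ≠ 0) (b : A p) (hb : (z : A p) * b = 1) :
    Rep p ((z : ℚ)⁻¹) b := by
  refine ⟨1, z, hz, ?_, ?_⟩
  · have : (z : ℚ) ≠ 0 := by
      intro h; apply hz
      have : z = 0 := by exact_mod_cast h
      rw [this]; simp
    push_cast
    rw [inv_mul_cancel₀ this]
  · push_cast; exact hb.symm

lemma Rep_sum {s : Finset ℕ} {f : ℕ → ℚ} {g : ℕ → A p} (h : ∀ k ∈ s, Rep p (f k) (g k)) :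
    Rep p (∑ k ∈ s, f k) (∑ k ∈ s, g k) := by
  classical
  induction s using Finset.induction_on with
  | empty => simpa using Rep_int (p := p) 0
  | insert a s ha ih =>
    rw [Finset.sum_insert ha, Finset.sum_insert ha]
    exact (h a (Finset.mem_insert_self _ _)).add
      (ih (fun k hk => h k (Finset.mem_insert_of_mem hk)))

lemma Rep.final {x : ℚ} (hx : Rep p x 0) : ∃ c : ℚ, ¬ p ∣ c.den ∧ x = (p : ℚ) ^ 2 * c := by
  obtain ⟨N, M, h1, h2, h3⟩ := hx
  rw [mul_zero, intCast_A_eq_zero_iff] at h3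
  obtain ⟨k, hk⟩ := h3
  have hM : (M : ℚ) ≠ 0 := by
    intro h; apply h1
    have : M = 0 := by exact_mod_cast h
    rw [this]; simp
  refine ⟨(k : ℚ) / M, ?_, ?_⟩
  · intro hdvd
    have h4 : (((k : ℚ) / M).den : ℤ) ∣ M := by
      rw [← Rat.divInt_eq_div]; exact Rat.den_dvd k M
    have h5 : (p : ℤ) ∣ M := dvd_trans (Int.natCast_dvd_natCast.mpr hdvd) h4
    apply h1
    exact (ZMod.intCast_zmod_eq_zero_iff_dvd M p).mpr h5
  · have : x = N / M := by field_simp; exact h2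
    rw [this, hk]; push_cast; ring

lemma exists_inv {z : ℤ} (hz : (z : ZMod p) ≠ 0) : ∃ b : A p, (z : A p) * b = 1 := by
  have : IsUnit (z : A p) := isUnit_of_pi (by rwa [map_intCast])
  exact this.exists_right_inv

/-- general term -/
lemma sum_rep {n : ℕ} (hn : p = 2 * n + 1) (h16 : (16 : ZMod p) ≠ 0) (e : ℤ) (he : e = 1 ∨ e = -1)
    (c : ℕ → ℚ) (c' d : ℕ → A p) (hc : ∀ k, k < p → Rep p (c k) (c' k))
    (hcd : ∀ k, k ≤ n → c' k * (e : A p) ^ k = d k) :
    Rep p (∑ k ∈ Finset.range p, ((jacobiSym (k : ℤ) 3 : ℤ) : ℚ) *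
      (c k * (Nat.centralBinom k : ℚ) ^ 2 / (-16 * e) ^ k)) (T n d) := by
  have hz : (((-16 * e : ℤ)) : ZMod p) ≠ 0 := by
    rcases he with h | h <;> rw [h] <;> simpa using h16
  obtain ⟨b, hb⟩ := exists_inv hz
  have hrep := Rep_inv _ hz b hb
  have hee : (e : A p) * e = 1 := by rcases he with h | h <;> rw [h] <;> simp
  have hsplit : T n d = ∑ k ∈ Finset.range p, ((jacobiSym (k : ℤ) 3 : ℤ) : A p) *
      (c' k * ((Nat.centralBinom k : ℕ) : A p) ^ 2 * b ^ k) := by
    have hsub : Finset.range (n + 1) ⊆ Finset.range p := by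
      intro x; simp only [Finset.mem_range]; omega
    rw [T, ← Finset.sum_subset hsub]
    · apply Finset.sum_congr rfl
      intro k hk
      have hk' : k ≤ n := by simpa [Nat.lt_succ_iff] using hk
      rw [cb_sq hn k hk', ← hcd k hk']
      have h1 : (16 : A p) ^ k * (-1) ^ k * b ^ k = (e : A p) ^ k := by
        rw [← mul_pow, ← mul_pow]
        congr 1
        push_cast at hb
        linear_combination (e : A p) * hb + (16 * b) * hee
      linear_combination (-((jacobiSym (k : ℤ) 3 : ℤ) : A p) * c' k * ((n.choose k : ℕ) : A p) *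
        (((n + k).choose k : ℕ) : A p)) * h1
    · intro k hk hk2
      have h1 : k < p := Finset.mem_range.mp hk
      have h2 : n < k := by simpa using hk2
      rw [cb_zero hn k h2 h1]; ring
  rw [hsplit]
  apply Rep_sum
  intro k hk
  have h1 : k < p := Finset.mem_range.mp hk
  apply (Rep_int _).mul
  rw [div_eq_mul_inv, ← inv_pow]
  apply ((hc k h1).mul ((Rep_nat _).pow 2)).mul
  have := hrep.pow k
  push_cast at this
  exact this

theorem final_a (x y : ℤ) (hp12 : p % 12 = 7) (hxy : (p : ℤ) = x ^ 2 + 3 * y ^ 2) (hy4 : y % 4 = 1) :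
    (∃ c : ℚ, ¬ p ∣ c.den ∧
      (∑ k ∈ Finset.range p, ((jacobiSym (k : ℤ) 3 : ℤ) : ℚ) * ((Nat.centralBinom k : ℚ) ^ 2 / (-16) ^ k)) -
        (-1) ^ ((p - 3) / 4) * (4 * (y : ℚ) - (p : ℚ) / (3 * (y : ℚ))) = (p : ℚ) ^ 2 * c) ∧
    (∃ c : ℚ, ¬ p ∣ c.den ∧
      (∑ k ∈ Finset.range p, ((jacobiSym (k : ℤ) 3 : ℤ) : ℚ) *
        ((k : ℚ) * (Nat.centralBinom k : ℚ) ^ 2 / (-16) ^ k)) -
        (-1) ^ ((p + 1) / 4) * (y : ℚ) = (p : ℚ) ^ 2 * c) := by
  obtain ⟨ν, hν⟩ : ∃ ν, p = 6 * ν + 1 := ⟨p / 6, by omega⟩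
  have hpos := nu_pos hν
  obtain ⟨w, hw⟩ := exists_w hν
  have hn : p = 2 * (3 * ν) + 1 := by omega
  have h2 := two_ne hν
  have h3 := three_ne hν
  have h16 : (16 : ZMod p) ≠ 0 := by
    have : (16 : ZMod p) = 2 * 2 * (2 * 2) := by norm_num
    rw [this]; exact mul_ne_zero (mul_ne_zero h2 h2) (mul_ne_zero h2 h2)
  obtain ⟨m1, m2⟩ := main_a hν (by omega) w hw x y hxy.symm hy4
  have m2' := m2 (UU'_main hν w hw)
  -- y is a unit
  have hyne : ((3 * y : ℤ) : ZMod p) ≠ 0 := by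
    push_cast
    refine mul_ne_zero h3 ?_
    intro h
    rw [ZMod.intCast_zmod_eq_zero_iff_dvd] at h
    obtain ⟨k, hk⟩ := h
    have hk0 : k ≠ 0 := by
      rintro rfl
      rw [mul_zero] at hk; rw [hk] at hy4; simp at hy4
    have h5 : 1 ≤ k ^ 2 := by
      have : 0 < k ^ 2 := by positivity
      omega
    have hp1 : (1 : ℤ) < p := by exact_mod_cast hp.out.one_lt
    have h6 : (p : ℤ) = x ^ 2 + 3 * (p * k) ^ 2 := by rw [← hk]; exact hxy
    nlinarith [sq_nonneg x, mul_pos (show (0 : ℤ) < p by linarith) (show (0 : ℤ) < p by linarith)]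
  obtain ⟨b, hb⟩ := exists_inv hyne
  constructor
  · have S1 := sum_rep hn h16 1 (Or.inl rfl) (fun _ => (1 : ℚ)) (fun _ => (1 : A p)) (fun _ => (1 : A p))
      (fun k _ => by simpa using Rep_int (p := p) 1) (fun k _ => by simp)
    have R1 : Rep p ((-1) ^ ((p - 3) / 4) * (4 * (y : ℚ) - (p : ℚ) / (3 * (y : ℚ))))
        ((-1) ^ ((p - 3) / 4) * (4 * (y : A p) - p * b)) := by
      have r1 : Rep p ((-1 : ℚ) ^ ((p - 3) / 4)) ((-1) ^ ((p - 3) / 4)) := by
        have := (Rep_int (p := p) (-1)).pow ((p - 3) / 4)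
        simpa using this
      have r2 : Rep p (4 * (y : ℚ)) (4 * (y : A p)) := by
        have := (Rep_int (p := p) 4).mul (Rep_int y)
        simpa using this
      have r3 : Rep p ((p : ℚ) / (3 * (y : ℚ))) (p * b) := by
        have := (Rep_nat (p := p) p).mul (Rep_inv _ hyne b hb)
        push_cast at this
        rw [div_eq_mul_inv]; exact this
      exact r1.mul (r2.sub r3)
    have hval : T (3 * ν) (fun _ => (1 : A p)) - (-1) ^ ((p - 3) / 4) * (4 * (y : A p) - p * b) = 0 := by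
      have hne : pi p (((3 * y : ℤ)) : A p) ≠ 0 := by rwa [map_intCast]
      apply cancel hne
      push_cast at hb ⊢
      linear_combination m1 + ((-1) ^ ((p - 3) / 4) * p) * hb
    have := S1.sub R1
    rw [hval] at this
    obtain ⟨c, hc1, hc2⟩ := this.final
    refine ⟨c, hc1, ?_⟩
    rw [← hc2]
    simp
  · have S2 := sum_rep hn h16 1 (Or.inl rfl) (fun k => (k : ℚ)) (fun k => (k : A p)) (fun k => (k : A p))
      (fun k _ => Rep_nat k) (fun k _ => by simp)
    have R2 : Rep p ((-1) ^ ((p + 1) / 4) * (y : ℚ)) ((-1) ^ ((p + 1) / 4) * (y : A p)) := by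
      have r1 : Rep p ((-1 : ℚ) ^ ((p + 1) / 4)) ((-1) ^ ((p + 1) / 4)) := by
        have := (Rep_int (p := p) (-1)).pow ((p + 1) / 4)
        simpa using this
      exact r1.mul (Rep_int y)
    have hval : T (3 * ν) (fun k => (k : A p)) - (-1) ^ ((p + 1) / 4) * (y : A p) = 0 := by
      rw [m2', show (p + 1) / 4 = (p - 3) / 4 + 1 by omega, pow_succ]; ring
    have := S2.sub R2
    rw [hval] at this
    obtain ⟨c, hc1, hc2⟩ := this.final
    refine ⟨c, hc1, ?_⟩
    rw [← hc2]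
    simp

theorem final_b (hp12 : p % 12 = 1) :
    ∃ c : ℚ, ¬ p ∣ c.den ∧
      (∑ k ∈ Finset.range p, ((p - 1).choose k : ℚ) * ((jacobiSym (k : ℤ) 3 : ℤ) : ℚ) *
        ((Nat.centralBinom k : ℚ) ^ 2 / 16 ^ k)) = (p : ℚ) ^ 2 * c := by
  obtain ⟨ν, hν⟩ : ∃ ν, p = 6 * ν + 1 := ⟨p / 6, by omega⟩
  have hpos := nu_pos hν
  obtain ⟨w, hw⟩ := exists_w hν
  have hn : p = 2 * (3 * ν) + 1 := by omega
  have h2 := two_ne hν
  have h16 : (16 : ZMod p) ≠ 0 := by
    have : (16 : ZMod p) = 2 * 2 * (2 * 2) := by norm_num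
    rw [this]; exact mul_ne_zero (mul_ne_zero h2 h2) (mul_ne_zero h2 h2)
  have mb := main_b hν (by omega) w hw
  have S := sum_rep hn h16 (-1) (Or.inr rfl) (fun k => (((p - 1).choose k : ℕ) : ℚ))
    (fun k => (((p - 1).choose k : ℕ) : A p)) (fun k => ex (-H p k))
    (fun k _ => Rep_nat _) (fun k hk => by
      rw [choose_pred k (by omega)]
      have s : (-1 : A p) ^ k * (-1) ^ k = 1 := by rw [← mul_pow]; simp
      push_cast
      linear_combination (ex (-H p k)) * s)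
  rw [mb] at S
  obtain ⟨c, hc1, hc2⟩ := S.final
  refine ⟨c, hc1, ?_⟩
  rw [← hc2]
  apply Finset.sum_congr rfl
  intro k _
  have : ((-16 : ℚ) * ((-1 : ℤ) : ℚ)) = 16 := by push_cast; norm_num
  rw [this]
  ring

end MP5d
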