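import Mathlib

/-! Basic set up for MP_5d4920_nt: the ring `ZMod (p^2)`, reduction `pi` to `ZMod p`
and the additive map `eps : ZMod p → ZMod (p^2)`, `eps (pi a) = p * a`. -/

namespace MP5d

/-- The ring of integers modulo `p^2`. -/
def A (p : ℕ) : Type := ZMod (p ^ 2)

instance (p : ℕ) : CommRing (A p) := inferInstanceAs (CommRing (ZMod (p ^ 2)))

variable {p : ℕ} [hp : Fact p.Prime]

/-- Reduction modulo `p`. -/
def pi (p : ℕ) [Fact p.Prime] : A p →+* ZMod p :=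
  ZMod.castHom (dvd_pow_self p two_ne_zero) (ZMod p)

lemma natCast_A_eq_zero_iff (k : ℕ) : (k : A p) = 0 ↔ p ^ 2 ∣ k := ZMod.natCast_eq_zero_iff k (p ^ 2)

lemma intCast_A_eq_zero_iff (k : ℤ) : (k : A p) = 0 ↔ (p : ℤ) ^ 2 ∣ k := by
  have := ZMod.intCast_zmod_eq_zero_iff_dvd k (p ^ 2)
  rw [Nat.cast_pow] at this
  exact this

lemma exists_nat (a : A p) : ∃ k : ℕ, (k : A p) = a := by
  haveI : NeZero (p ^ 2) := ⟨pow_ne_zero 2 hp.out.ne_zero⟩
  exact ⟨ZMod.val (n := p ^ 2) a, ZMod.natCast_zmod_val (n := p ^ 2) a⟩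

lemma pi_surj (x : ZMod p) : ∃ a : A p, pi p a = x :=
  ⟨(x.val : A p), by rw [map_natCast]; exact ZMod.natCast_zmod_val x⟩

lemma pp : (p : A p) * p = 0 := by
  have := (natCast_A_eq_zero_iff (p := p) (p * p)).mpr (by rw [sq])
  rw [← this]; push_cast; ring

/-- The map `x ↦ p * x`. -/
def epsFun (x : ZMod p) : A p := p * (x.val : A p)

lemma epsFun_pi (a : A p) : epsFun (pi p a) = p * a := by
  obtain ⟨k, rfl⟩ := exists_nat a
  rw [epsFun, map_natCast, ZMod.val_natCast]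
  conv_rhs => rw [← Nat.mod_add_div k p]
  push_cast
  rw [mul_add, ← mul_assoc (p : A p) (p : A p), pp, zero_mul, add_zero]

/-- The map `x ↦ p * x`. -/
def eps : ZMod p →+ A p where
  toFun := epsFun
  map_zero' := by
    have := epsFun_pi (p := p) 0
    simpa using this
  map_add' x y := by
    obtain ⟨a, rfl⟩ := pi_surj x
    obtain ⟨b, rfl⟩ := pi_surj y
    rw [← map_add, epsFun_pi, epsFun_pi, epsFun_pi, mul_add]

lemma eps_pi (a : A p) : eps (pi p a) = p * a := epsFun_pi a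

lemma eps_one : eps (1 : ZMod p) = p := by
  have := eps_pi (p := p) 1
  simpa using this

lemma mul_eps (a : A p) (x : ZMod p) : a * eps x = eps (pi p a * x) := by
  obtain ⟨b, rfl⟩ := pi_surj x
  rw [← map_mul, eps_pi, eps_pi]; ring

lemma eps_mul (a : A p) (x : ZMod p) : eps x * a = eps (pi p a * x) := by
  rw [mul_comm, mul_eps]

lemma eps_mul_eps (x y : ZMod p) : eps x * eps y = 0 := by
  obtain ⟨b, rfl⟩ := pi_surj x
  obtain ⟨a, rfl⟩ := pi_surj y
  rw [eps_pi, eps_pi]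
  linear_combination (b * a) * pp (p := p)

lemma eps_sq (x : ZMod p) : eps x ^ 2 = 0 := by rw [sq, eps_mul_eps]

lemma pi_eps (x : ZMod p) : pi p (eps x) = 0 := by
  obtain ⟨b, rfl⟩ := pi_surj x
  rw [eps_pi, map_mul, map_natCast, ZMod.natCast_self, zero_mul]

lemma eps_inj_zero {x : ZMod p} (h : eps x = 0) : x = 0 := by
  obtain ⟨b, rfl⟩ := pi_surj x
  obtain ⟨k, rfl⟩ := exists_nat b
  rw [eps_pi, ← Nat.cast_mul, natCast_A_eq_zero_iff, sq] at h
  have h2 := Nat.dvd_of_mul_dvd_mul_left hp.out.pos h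
  rw [map_natCast]
  exact (ZMod.natCast_eq_zero_iff k p).mpr h2

lemma eps_inj {x y : ZMod p} (h : eps x = eps y) : x = y := by
  have : eps (x - y) = 0 := by rw [map_sub, h, sub_self]
  exact sub_eq_zero.mp (eps_inj_zero this)

lemma exists_eps {a : A p} (h : pi p a = 0) : ∃ x, a = eps x := by
  obtain ⟨k, rfl⟩ := exists_nat a
  rw [map_natCast, ZMod.natCast_eq_zero_iff] at h
  obtain ⟨m, rfl⟩ := h
  refine ⟨(m : ZMod p), ?_⟩
  have := eps_pi (p := p) (m : A p)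
  rw [map_natCast] at this
  rw [this]; push_cast; ring

lemma isUnit_of_pi {a : A p} (h : pi p a ≠ 0) : IsUnit a := by
  obtain ⟨b, hb⟩ := pi_surj ((pi p a)⁻¹)
  have h1 : pi p (a * b - 1) = 0 := by
    rw [map_sub, map_mul, hb, map_one, mul_inv_cancel₀ h, sub_self]
  obtain ⟨x, hx⟩ := exists_eps h1
  have h2 : a * b = 1 + eps x := by linear_combination hx
  refine IsUnit.of_mul_eq_one (b * (1 - eps x)) ?_
  linear_combination (1 - eps x) * h2 - eps_sq x

lemma pi_ne_zero_of_isUnit {a : A p} (h : IsUnit a) : pi p a ≠ 0 :=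
  (h.map (pi p)).ne_zero

/-- cancellation -/
lemma cancel {a b c : A p} (h : pi p a ≠ 0) (h2 : a * b = a * c) : b = c :=
  (isUnit_of_pi h).mul_left_cancel h2

lemma nat_ne_zero {k : ℕ} (h0 : 0 < k) (h1 : k < p) : (k : ZMod p) ≠ 0 := by
  rw [Ne, ZMod.natCast_eq_zero_iff]
  exact Nat.not_dvd_of_pos_of_lt h0 h1

lemma pi_nat_ne_zero {k : ℕ} (h0 : 0 < k) (h1 : k < p) : pi p (k : A p) ≠ 0 := by
  rw [map_natCast]; exact nat_ne_zero h0 h1

lemma factorial_ne_zero {k : ℕ} (h1 : k < p) : ((k.factorial : ℕ) : ZMod p) ≠ 0 := by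
  rw [Ne, ZMod.natCast_eq_zero_iff, hp.out.dvd_factorial]
  omega

lemma pi_factorial_ne_zero {k : ℕ} (h1 : k < p) :
    pi p ((k.factorial : ℕ) : A p) ≠ 0 := by
  rw [map_natCast]; exact factorial_ne_zero h1

/-- `(x + e)^k` with `e^2=0`. -/
lemma add_eps_pow (x : A p) (e : ZMod p) (k : ℕ) :
    (x + eps e) ^ (k + 1) = x ^ (k + 1) + eps (((k : ZMod p) + 1) * pi p x ^ k * e) := by
  induction k with
  | zero => simp
  | succ k ih =>
    rw [pow_succ, ih, add_mul, mul_add, mul_add, ← pow_succ, mul_eps, eps_mul, eps_mul_eps, add_zero,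
      add_assoc, ← map_add]
    congr 2
    push_cast
    rw [map_pow]
    ring

/-- harmonic numbers in `ZMod p`. -/
def H (p : ℕ) [Fact p.Prime] (n : ℕ) : ZMod p := ∑ i ∈ Finset.range n, ((i : ZMod p) + 1)⁻¹

lemma H_succ (n : ℕ) : H p (n + 1) = H p n + ((n : ZMod p) + 1)⁻¹ := by
  rw [H, Finset.sum_range_succ]; rfl

@[simp] lemma H_zero : H p 0 = 0 := by simp [H]

end MP5d
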