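import Pool.Agent.Work.MP_5d4920_nt.Basic

/-! Binomial coefficients and factorials modulo `p^2`, harmonic number identities. -/

namespace MP5d

variable {p : ℕ} [hp : Fact p.Prime]

/-- `ex x = 1 + p x`. -/
def ex (x : ZMod p) : A p := 1 + eps x

lemma ex_add (x y : ZMod p) : ex (x + y) = ex x * ex y := by
  rw [ex, ex, ex, map_add]; linear_combination - eps_mul_eps x y

lemma ex_zero : ex (0 : ZMod p) = 1 := by rw [ex, map_zero, add_zero]

lemma ex_mul_neg (x : ZMod p) : ex x * ex (-x) = 1 := by
  rw [← ex_add, add_neg_cancel, ex_zero]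

lemma pi_ex (x : ZMod p) : pi p (ex x) = 1 := by
  rw [ex, map_add, pi_eps, map_one, add_zero]

lemma ex_inj {x y : ZMod p} (h : ex x = ex y) : x = y := by
  rw [ex, ex] at h
  exact eps_inj (add_left_cancel h)

lemma ex_mul_eps (x y : ZMod p) : ex x * eps y = eps y := by
  rw [mul_eps, pi_ex, one_mul]

/-- `c k - p = c k (1 - p/(c k))`. -/
lemma mul_sub_p (c : A p) (h : pi p c ≠ 0) : c - p = c * ex (-(pi p c)⁻¹) := by
  rw [ex, mul_add, mul_eps, mul_one, mul_neg, mul_inv_cancel₀ h, map_neg, eps_one]; ring

lemma factorial_reflect (k : ℕ) (hk : k < p) :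
    (((p - 1).factorial : ℕ) : A p) =
      (((p - 1 - k).factorial : ℕ) : A p) * ((k.factorial : ℕ) : A p) * (-1) ^ k * ex (-H p k) := by
  induction k with
  | zero => simp [ex_zero]
  | succ k ih =>
    rw [ih (by omega)]
    have h1 : p - 1 - k = (p - 1 - (k + 1)) + 1 := by omega
    have h2 : ((p - 1 - (k + 1) + 1 : ℕ) : A p) = -(((k : ℕ) + 1 : A p) - p) := by
      have : ((p - 1 - (k + 1) + 1) + (k + 1) : ℕ) = p := by omega
      have h3 := congrArg (fun n : ℕ => (n : A p)) this
      push_cast at h3 ⊢
      linear_combination h3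
    have hk1 : pi p ((k : ℕ) + 1 : A p) ≠ 0 := by
      have := pi_nat_ne_zero (p := p) (k := k + 1) (by omega) (by omega)
      push_cast at this; exact this
    rw [h1, Nat.factorial_succ, Nat.factorial_succ, Nat.cast_mul, h2, mul_sub_p _ hk1, H_succ, neg_add,
      ex_add, Nat.cast_mul]
    have h4 : pi p ((k : ℕ) + 1 : A p) = (k : ZMod p) + 1 := by simp
    rw [h4]
    push_cast
    ring

lemma choose_pred (k : ℕ) (hk : k < p) :
    (((p - 1).choose k : ℕ) : A p) = (-1) ^ k * ex (-H p k) := by
  have h := factorial_reflect k hk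
  have h2 := Nat.choose_mul_factorial_mul_factorial (n := p - 1) (k := k) (by omega)
  have h3 := congrArg (fun n : ℕ => (n : A p)) h2
  push_cast at h3
  rw [h] at h3
  have hk1 : pi p (((k.factorial : ℕ) : A p) * (((p - 1 - k).factorial : ℕ) : A p)) ≠ 0 := by
    rw [map_mul]
    exact mul_ne_zero (pi_factorial_ne_zero hk) (pi_factorial_ne_zero (by omega))
  apply cancel hk1
  linear_combination h3

lemma choose_pred_F (k : ℕ) (hk : k < p) :
    (((p - 1).choose k : ℕ) : ZMod p) = (-1) ^ k := by
  have := congrArg (pi p) (choose_pred k hk)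
  rw [map_natCast, map_mul, pi_ex, map_pow, map_neg, map_one, mul_one] at this
  exact this

lemma choose_p (j : ℕ) (h0 : 0 < j) (hj : j < p) :
    ((p.choose j : ℕ) : A p) = eps ((-1) ^ (j - 1) * (j : ZMod p)⁻¹) := by
  obtain ⟨k, rfl⟩ : ∃ k, j = k + 1 := ⟨j - 1, by omega⟩
  have h1 : p = (p - 1) + 1 := by have := hp.out.pos; omega
  have h2 := Nat.add_one_mul_choose_eq (p - 1) k
  rw [← h1] at h2
  have h3 := congrArg (fun n : ℕ => (n : A p)) h2
  push_cast at h3
  rw [← eps_pi, map_natCast, choose_pred_F k (by omega)] at h3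
  have hk1 := pi_nat_ne_zero (p := p) (k := k + 1) (by omega) (by omega)
  apply cancel hk1
  rw [mul_eps, map_natCast]
  have : ((k + 1 : ℕ) : ZMod p) * ((-1) ^ (k + 1 - 1) * ((k + 1 : ℕ) : ZMod p)⁻¹) = (-1) ^ k := by
    have : ((k + 1 : ℕ) : ZMod p) ≠ 0 := nat_ne_zero (by omega) hj
    rw [Nat.add_sub_cancel]
    field_simp
  rw [this, h3]
  push_cast; ring

lemma choose_p_add (j : ℕ) (h0 : 0 < j) (hj : j < p) :
    (((p - 1 + j).choose j : ℕ) : A p) = eps ((j : ZMod p)⁻¹) := by
  obtain ⟨k, rfl⟩ : ∃ k, j = k + 1 := ⟨j - 1, by omega⟩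
  have h1 : p = (p - 1) + 1 := by have := hp.out.pos; omega
  -- C(p+k,k+1)*(k+1) = C(p+k,k)*p
  have h2 := Nat.choose_succ_right_eq (p - 1 + (k + 1)) k
  have h5 : p - 1 + (k + 1) - k = p := by omega
  rw [h5] at h2
  have h3 := congrArg (fun n : ℕ => (n : A p)) h2
  push_cast at h3
  have h6 : (((p - 1 + (k + 1)).choose k : ℕ) : ZMod p) = 1 := by
    have := Choose.choose_modEq_choose_mod_mul_choose_div_nat (n := p - 1 + (k + 1)) (k := k) (p := p)
    have e1 : p - 1 + (k + 1) = k + p := by omega
    rw [e1, Nat.add_mod_right, Nat.mod_eq_of_lt (show k < p by omega), Nat.add_div_right k hp.out.pos,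
      Nat.div_eq_of_lt (show k < p by omega)] at this
    rw [e1, (ZMod.natCast_eq_natCast_iff _ _ _).mpr this]
    simp
  have h7 := eps_pi (p := p) (((p - 1 + (k + 1)).choose k : ℕ) : A p)
  rw [map_natCast, h6] at h7
  have hk1 := pi_nat_ne_zero (p := p) (k := k + 1) (by omega) (by omega)
  apply cancel hk1
  rw [mul_eps, map_natCast]
  have : ((k + 1 : ℕ) : ZMod p) * (((k + 1 : ℕ) : ZMod p)⁻¹) = 1 := by
    have : ((k + 1 : ℕ) : ZMod p) ≠ 0 := nat_ne_zero (by omega) hj
    field_simp
  rw [this, h7]
  push_cast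
  linear_combination h3

/-! ### the one sided harmonic identity -/

/-- `G M N = ∑_{m=1}^N (-1)^(m-1) C(M,N-m)/m` -/
def G (p : ℕ) [Fact p.Prime] (M N : ℕ) : ZMod p :=
  ∑ m ∈ Finset.range N, (-1) ^ m * ((M.choose (N - 1 - m) : ℕ) : ZMod p) * ((m : ZMod p) + 1)⁻¹

lemma G_zero (M : ℕ) : G p M 0 = 0 := by simp [G]

lemma G_succ_succ (M N : ℕ) : G p (M + 1) (N + 1) = G p M (N + 1) + G p M N := by
  rw [G, G, G, Finset.sum_range_succ, Finset.sum_range_succ, add_right_comm, ← Finset.sum_add_distrib]
  congr 1
  · apply Finset.sum_congr rfl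
    intro m hm
    have hm' : m < N := Finset.mem_range.mp hm
    have e1 : N + 1 - 1 - m = (N - 1 - m) + 1 := by omega
    rw [e1, Nat.choose_succ_succ]
    push_cast; ring
  · simp

lemma G_zero_left (N : ℕ) : G p 0 (N + 1) = (-1) ^ N * ((N : ZMod p) + 1)⁻¹ := by
  rw [G, Finset.sum_range_succ, Finset.sum_eq_zero, zero_add]
  · simp
  · intro m hm
    have hm' : m < N := Finset.mem_range.mp hm
    rw [Nat.choose_eq_zero_of_lt (by omega)]
    simp

lemma G_both (M : ℕ) (hM : M < p) :
    (∀ N d, M = N + d → G p M N = ((M.choose N : ℕ) : ZMod p) * (H p M - H p d)) ∧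
    (∀ N d, N = M + 1 + d → N < p → G p M N * ((N : ZMod p) * (((N - 1).choose M : ℕ) : ZMod p)) =
      (-1) ^ d) := by
  induction M with
  | zero =>
    refine ⟨?_, ?_⟩
    · intro N d h
      obtain rfl : N = 0 := by omega
      obtain rfl : d = 0 := by omega
      simp [G_zero]
    · intro N d h hN
      obtain rfl : N = d + 1 := by omega
      rw [G_zero_left]
      have := nat_ne_zero (p := p) (k := d + 1) (by omega) hN
      push_cast at this ⊢
      simp only [Nat.choose_zero_right]
      field_simp
      simp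
  | succ M ih =>
    obtain ⟨ih1, ih2⟩ := ih (by omega)
    have hM1 := nat_ne_zero (p := p) (k := M + 1) (by omega) hM
    push_cast at hM1
    refine ⟨?_, ?_⟩
    · intro N d h
      cases N with
      | zero =>
        obtain rfl : d = M + 1 := by omega
        simp [G_zero]
      | succ N =>
        rw [G_succ_succ]
        cases d with
        | zero =>
          obtain rfl : N = M := by omega
          have h1 := ih1 N 0 (by omega)
          have h2 := ih2 (N + 1) 0 (by omega) hM
          rw [h1]
          simp only [Nat.choose_self, Nat.add_sub_cancel, Nat.cast_one, mul_one, pow_zero] at h2 ⊢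
          push_cast at h2
          have h3 : G p N (N + 1) = ((N : ZMod p) + 1)⁻¹ := by
            field_simp
            exact h2
          rw [h3, H_succ, H_zero]; ring
        | succ d =>
          have h1 := ih1 (N + 1) d (by omega)
          have h2 := ih1 N (d + 1) (by omega)
          have hd1 := nat_ne_zero (p := p) (k := d + 1) (by omega) (by omega)
          push_cast at hd1
          rw [h1, h2, H_succ, H_succ, Nat.choose_succ_succ]
          have h4 := Nat.add_one_mul_choose_eq M N
          rw [Nat.choose_succ_succ] at h4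
          have h5 := congrArg (fun n : ℕ => (n : ZMod p)) h4
          push_cast at h5
          have h6 : M = N + 1 + d := by omega
          have h7 : (M : ZMod p) = N + 1 + d := by rw [h6]; push_cast; ring
          push_cast
          set a := ((M.choose N : ℕ) : ZMod p)
          set b := ((M.choose (N + 1) : ℕ) : ZMod p)
          have h8 : (a + b) * ((M : ZMod p) + 1)⁻¹ = b * ((d : ZMod p) + 1)⁻¹ := by
            field_simp
            linear_combination (a + b) * (-h7) + h5
          linear_combination -h8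
    · intro N d h hN
      obtain ⟨N, rfl⟩ : ∃ k, N = k + 1 := ⟨N - 1, by omega⟩
      rw [G_succ_succ]
      have h1 := ih2 (N + 1) (d + 1) (by omega) hN
      have h2 := ih2 N d (by omega) (by omega)
      -- N = M + 1 + d
      have hNM : N = M + 1 + d := by omega
      have hNM' : (N : ZMod p) = M + 1 + d := by rw [hNM]; push_cast; ring
      simp only [Nat.add_sub_cancel] at h1 ⊢
      have hN1 : N - 1 + 1 = N := by omega
      have c1 : N.choose M * (N - M) = N * (N - 1).choose M := by
        have := Nat.choose_mul_succ_eq (N - 1) M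
        rw [hN1] at this
        rw [mul_comm N]
        exact this.symm
      have c2 : N.choose (M + 1) * (M + 1) = N.choose M * (N - M) := Nat.choose_succ_right_eq N M
      have hsub : N - M = d + 1 := by omega
      rw [hsub] at c1 c2
      have c1' := congrArg (fun n : ℕ => (n : ZMod p)) c1
      have c2' := congrArg (fun n : ℕ => (n : ZMod p)) c2
      push_cast at c1' c2' h1 h2 ⊢
      have hd1 := nat_ne_zero (p := p) (k := d + 1) (by omega) (by omega)
      push_cast at hd1
      set x := G p M (N + 1)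
      set y := G p M N
      set u := ((N.choose (M + 1) : ℕ) : ZMod p)
      set v := ((N.choose M : ℕ) : ZMod p)
      set t := (((N - 1).choose M : ℕ) : ZMod p)
      -- h1 : x * ((N+1) * v) = (-1)^(d+1), h2 : y * (N * t) = (-1)^d
      -- c1' : v * (d+1) = N * t ; c2' : u * (M+1) = v * (d+1)
      -- goal (x + y) * ((N+1)* u) = (-1)^d
      have g1 : (x + y) * (((N : ZMod p) + 1) * u) * (M + 1) = (-1) ^ d * (M + 1) := by
        have e1 : x * (((N : ZMod p) + 1) * u) * (M + 1) = (-1) ^ (d + 1) * (d + 1) := by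
          rw [← h1]; linear_combination x * ((N : ZMod p) + 1) * c2'
        have e2 : y * (((N : ZMod p) + 1) * u) * (M + 1) = (-1) ^ d * (N + 1) := by
          rw [← h2]; linear_combination y * ((N : ZMod p) + 1) * (c2' + c1')
        rw [add_mul, add_mul, e1, e2, pow_succ]
        rw [hNM']; ring
      exact mul_right_cancel₀ hM1 g1

lemma G_le (N d : ℕ) (h : N + d < p) :
    G p (N + d) N = (((N + d).choose N : ℕ) : ZMod p) * (H p (N + d) - H p d) :=
  (G_both (N + d) h).1 N d rfl

lemma G_gt (M d : ℕ) (h : M + 1 + d < p) :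
    G p M (M + 1 + d) * (((M + 1 + d : ℕ) : ZMod p) * (((M + d).choose M : ℕ) : ZMod p)) =
      (-1) ^ d := by
  have := (G_both M (by omega)).2 (M + 1 + d) d rfl h
  rw [show M + 1 + d - 1 = M + d by omega] at this
  exact this

end MP5d
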