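import Pool.Agent.Work.MP_5d4920_nt.JEval

/-! The Jacobi sum as a counting sum, and `p = A^2 + 3 B^2`. -/

namespace MP5d

variable {p : ℕ} [hp : Fact p.Prime]

section

variable {ν : ℕ} (hν : p = 6 * ν + 1)

include hν

lemma card_sqrts_A (t : ZMod p) :
    (((Finset.univ.filter (fun y : ZMod p => y ^ 2 = t)).card : ℕ) : A p) = 1 + tau t ^ (3 * ν) := by
  have hodd := p_odd hν
  have hchar : ringChar (ZMod p) ≠ 2 := by
    rw [ZMod.ringChar_zmod_n]; rintro h; rw [h] at hodd; exact absurd hodd (by decide)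
  have h1 := quadraticChar_card_sqrts hchar t
  have h2 : (({x : ZMod p | x ^ 2 = t}).toFinset.card : ℤ) =
      ((Finset.univ.filter (fun y : ZMod p => y ^ 2 = t)).card : ℕ) := by
    congr 2
    ext x; simp
  rw [h2] at h1
  have h3 := congrArg (fun z : ℤ => (z : A p)) h1
  simp only [Int.cast_natCast, Int.cast_add, Int.cast_one] at h3
  rw [h3, add_comm]
  congr 1
  have h4 := quadraticChar_eq_pow_of_char_ne_two' hchar t
  rw [ZMod.card, show p / 2 = 3 * ν by omega] at h4
  rw [← tau_pow, ← h4]
  rcases quadraticChar_isQuadratic (ZMod p) t with h | h | h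
  · rw [h]; simp [tau_zero]
  · rw [h]; simp [tau_one]
  · rw [h]; simp [tau_neg_one hodd]

lemma sum_sq (b : ℕ) (hb0 : b ≠ 0) (hb : b < p - 1) :
    ∑ y : ZMod p, tau (1 - y ^ 2) ^ b = J p (3 * ν) b := by
  have h1 : ∀ y : ZMod p, tau (1 - y ^ 2) ^ b =
      ∑ t : ZMod p, if y ^ 2 = t then tau (1 - t) ^ b else 0 := by
    intro y; rw [Finset.sum_ite_eq]; simp
  rw [Finset.sum_congr rfl (fun y _ => h1 y), Finset.sum_comm]
  have h2 : ∀ t : ZMod p, ∑ y : ZMod p, (if y ^ 2 = t then tau (1 - t) ^ b else 0) =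
      tau (1 - t) ^ b + tau t ^ (3 * ν) * tau (1 - t) ^ b := by
    intro t
    rw [← Finset.sum_filter, Finset.sum_const, nsmul_eq_mul, card_sqrts_A hν]
    ring
  rw [Finset.sum_congr rfl (fun t _ => h2 t), Finset.sum_add_distrib]
  have h3 : ∑ t : ZMod p, tau (1 - t) ^ b = ∑ t : ZMod p, tau t ^ b :=
    Fintype.sum_equiv (Equiv.subLeft 1) _ _ (fun t => by simp)
  rw [h3, sum_tau_pow b hb0, if_neg, zero_add, J]
  intro h
  exact absurd (Nat.le_of_dvd (Nat.pos_of_ne_zero hb0) h) (by omega)

lemma tau_class (ω : A p) (hω : ω ^ 2 + ω + 1 = 0) (t : ZMod p) (ht : t ≠ 0) :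
    tau t ^ (4 * ν) = 1 ∨ tau t ^ (4 * ν) = ω ∨ tau t ^ (4 * ν) = ω ^ 2 := by
  have h3 := three_ne hν
  set x := tau t ^ (4 * ν) with hx
  have hx3 : x ^ 3 = 1 := by
    rw [hx, ← pow_mul, show 4 * ν * 3 = (p - 1) * 2 by omega, pow_mul, tau_pow_sub_one ht, one_pow]
  have hω3 : ω ^ 3 = 1 := by linear_combination (ω - 1) * hω
  have hprod : (x - 1) * ((x - ω) * (x - ω ^ 2)) = 0 := by
    linear_combination hx3 - x ^ 2 * hω + x * (ω * hω) - hω3
  have hωF : pi p ω ^ 2 + pi p ω + 1 = 0 := by
    rw [← map_pow, ← map_add, ← map_one (pi p), ← map_add, hω, map_zero]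
  have hω1 : pi p ω ≠ 1 := by
    intro h; rw [h] at hωF; apply h3; linear_combination hωF
  have hω0 : pi p ω ≠ 0 := by
    intro h; rw [h] at hωF; simp at hωF
  by_cases c1 : pi p x = 1
  · left
    have e1 : pi p (x - ω) ≠ 0 := by
      rw [map_sub, c1]; exact sub_ne_zero.mpr (Ne.symm hω1)
    have e2 : pi p (x - ω ^ 2) ≠ 0 := by
      rw [map_sub, c1, map_pow]
      intro h
      have h4 : (pi p ω) ^ 2 = 1 := by linear_combination -h
      have h5 : pi p ω = -2 := by linear_combination hωF - h4
      rw [h5] at h4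
      apply h3; linear_combination h4
    have e3 : pi p ((x - ω) * (x - ω ^ 2)) ≠ 0 := by rw [map_mul]; exact mul_ne_zero e1 e2
    have : x - 1 = 0 := by
      apply cancel e3; linear_combination hprod
    linear_combination this
  · have e1 : pi p (x - 1) ≠ 0 := by rw [map_sub, map_one]; exact sub_ne_zero.mpr c1
    have hprod2 : (x - ω) * (x - ω ^ 2) = 0 := by
      apply cancel e1; rw [hprod, mul_zero]
    by_cases c2 : pi p x = pi p ω
    · right; left
      have e2 : pi p (x - ω ^ 2) ≠ 0 := by
        rw [map_sub, c2, map_pow]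
        intro h
        have : pi p ω * (1 - pi p ω) = 0 := by linear_combination h
        rcases mul_eq_zero.mp this with h4 | h4
        · exact hω0 h4
        · apply hω1; linear_combination -h4
      have : x - ω = 0 := by
        apply cancel e2; linear_combination hprod2
      linear_combination this
    · right; right
      have e2 : pi p (x - ω) ≠ 0 := by rw [map_sub]; exact sub_ne_zero.mpr c2
      have : x - ω ^ 2 = 0 := by
        apply cancel e2; linear_combination hprod2
      linear_combination this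

open Classical in
theorem exists_counts (ω : A p) (hω : ω ^ 2 + ω + 1 = 0) :
    ∃ N0 m1 m2 : ℕ, N0 + 2 * m1 + 2 * m2 = p - 2 ∧
      J p (3 * ν) (4 * ν) = N0 + 2 * m1 * ω + 2 * m2 * ω ^ 2 ∧
      J p (3 * ν) (2 * ν) = N0 + 2 * m1 * ω ^ 2 + 2 * m2 * ω := by
  have hpos := nu_pos hν
  have hodd := p_odd hν
  have h3 := three_ne hν
  have h2 := two_ne hν
  have hω3 : ω ^ 3 = 1 := by linear_combination (ω - 1) * hω
  have hωF : pi p ω ^ 2 + pi p ω + 1 = 0 := by
    rw [← map_pow, ← map_add, ← map_one (pi p), ← map_add, hω, map_zero]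
  have hω1 : pi p ω ≠ 1 := by
    intro h; rw [h] at hωF; apply h3; linear_combination hωF
  have hω0 : pi p ω ≠ 0 := by
    intro h; rw [h] at hωF; simp at hωF
  have n1 : (1 : A p) ≠ ω := by
    intro h; apply hω1; rw [← h, map_one]
  have n2 : (1 : A p) ≠ ω ^ 2 := by
    intro h
    apply n1
    calc (1 : A p) = ω ^ 3 := hω3.symm
      _ = ω * ω ^ 2 := by ring
      _ = ω := by rw [← h, mul_one]
  have n3 : ω ≠ ω ^ 2 := by
    intro h
    apply n1
    have : IsUnit ω := isUnit_of_pi hω0
    have h5 : ω * 1 = ω * ω := by rw [mul_one]; linear_combination h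
    exact this.mul_left_cancel h5
  have z0 : (0 : A p) ≠ 1 := by
    intro h; have := congrArg (pi p) h; rw [map_zero, map_one] at this; exact zero_ne_one this
  have z1 : (0 : A p) ≠ ω := by
    intro h; apply hω0; rw [← h, map_zero]
  have z2 : (0 : A p) ≠ ω ^ 2 := by
    intro h; apply hω0
    have := congrArg (pi p) h; rw [map_zero, map_pow] at this
    exact pow_eq_zero_iff (two_ne_zero) |>.mp this.symm
  set X : ZMod p → A p := fun y => tau (1 - y ^ 2) ^ (4 * ν) with hX
  set S : A p → Finset (ZMod p) := fun c => Finset.univ.filter (fun y : ZMod p => X y = c) with hS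
  have hX0 : ∀ y, X y = 0 ↔ y ^ 2 = 1 := by
    intro y
    constructor
    · intro h
      by_contra hne
      have ht : (1 - y ^ 2 : ZMod p) ≠ 0 := by
        intro h4; apply hne; linear_combination -h4
      rcases tau_class hν ω hω _ ht with h5 | h5 | h5
      · exact z0 (by rw [← h, ← h5])
      · exact z1 (by rw [← h, ← h5])
      · exact z2 (by rw [← h, ← h5])
    · intro h
      simp only [hX]
      rw [h, sub_self, tau_zero, zero_pow (by omega)]
  have hcl : ∀ y, X y = 0 ∨ X y = 1 ∨ X y = ω ∨ X y = ω ^ 2 := by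
    intro y
    by_cases hy : (1 - y ^ 2 : ZMod p) = 0
    · left; rw [hX0]; linear_combination -hy
    · right; exact tau_class hν ω hω _ hy
  -- parity
  have hpar : ∀ c, c ≠ 1 → 2 ∣ (S c).card := by
    intro c hc
    rw [← ZMod.natCast_eq_zero_iff, Finset.cast_card]
    apply Finset.sum_involution (fun y _ => -y)
    · intro a _; decide
    · intro a ha _ h
      have ha' : X a = c := by simpa [hS] using ha
      have h4 : (2 : ZMod p) * a = 0 := by linear_combination -h
      have h5 : a = 0 := (mul_eq_zero.mp h4).resolve_left h2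
      apply hc
      rw [← ha', h5]
      simp [hX, tau_one]
    · intro a _; exact neg_neg a
    · intro a ha
      simpa [hS, hX] using ha
  obtain ⟨m1, hm1⟩ := hpar ω n1.symm
  obtain ⟨m2, hm2⟩ := hpar (ω ^ 2) n2.symm
  -- sums
  have hsum : ∀ (B : Type) [CommRing B] (f : A p → B), ∑ y : ZMod p, f (X y) =
      (S 0).card * f 0 + (S 1).card * f 1 + (S ω).card * f ω + (S (ω ^ 2)).card * f (ω ^ 2) := by
    intro B _ f
    have e : ∀ y, f (X y) = (if X y = 0 then f 0 else 0) + (if X y = 1 then f 1 else 0) +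
        (if X y = ω then f ω else 0) + (if X y = ω ^ 2 then f (ω ^ 2) else 0) := by
      intro y
      rcases hcl y with h | h | h | h
      · rw [h]; simp [z0, z1, z2]
      · rw [h]; simp [z0.symm, n1, n2]
      · rw [h]; simp [z1.symm, n1.symm, n3]
      · rw [h]; simp only [z2.symm, n2.symm, n3.symm, if_false, if_true]; ring
    rw [Finset.sum_congr rfl (fun y _ => e y), Finset.sum_add_distrib, Finset.sum_add_distrib,
      Finset.sum_add_distrib]
    congr 1
    · congr 1
      · congr 1
        · rw [← Finset.sum_filter, Finset.sum_const, nsmul_eq_mul]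
        · rw [← Finset.sum_filter, Finset.sum_const, nsmul_eq_mul]
      · rw [← Finset.sum_filter, Finset.sum_const, nsmul_eq_mul]
    · rw [← Finset.sum_filter, Finset.sum_const, nsmul_eq_mul]
  have hS0 : (S 0).card = 2 := by
    have : S 0 = {1, -1} := by
      ext y
      simp only [hS, Finset.mem_filter, Finset.mem_univ, true_and, Finset.mem_insert,
        Finset.mem_singleton]
      rw [hX0, sq, mul_self_eq_one_iff]
    rw [this, Finset.card_pair]
    intro h; apply h2; linear_combination h
  refine ⟨(S 1).card, m1, m2, ?_, ?_, ?_⟩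
  · have := hsum ℤ (fun _ => 1)
    simp only [Finset.sum_const, Finset.card_univ, ZMod.card, smul_eq_mul, mul_one, hS0, hm1, hm2,
      nsmul_eq_mul] at this
    push_cast at this
    omega
  · have := hsum (A p) (fun x => x)
    rw [hm1, hm2] at this
    rw [← sum_sq hν (4 * ν) (by omega) (by omega)]
    simp only [hX] at this
    rw [this]
    push_cast; ring
  · have := hsum (A p) (fun x => x ^ 2)
    rw [hm1, hm2] at this
    rw [← sum_sq hν (2 * ν) (by omega) (by omega)]
    have e : ∀ y : ZMod p, tau (1 - y ^ 2) ^ (2 * ν) = X y ^ 2 := by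
      intro y
      simp only [hX]
      by_cases hy : (1 - y ^ 2 : ZMod p) = 0
      · rw [hy, tau_zero, zero_pow (by omega), zero_pow (by omega)]; simp
      · have := tau_pow_sub_one hy
        rw [← pow_mul, show 4 * ν * 2 = 2 * ν + (p - 1) by omega, pow_add, this, mul_one]
    rw [Finset.sum_congr rfl (fun y _ => e y), this]
    push_cast
    linear_combination (2 * m2 * ω : A p) * hω3

end

end MP5d
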