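import Pool.Agent.Work.MP_5d4920_nt.Translation

/-! Evaluation of `U n w` for a primitive sixth root of unity `w`. -/

namespace MP5d

open PowerSeries

variable {R : Type*} [CommRing R]

/-- the polynomial `U`. -/
def U (n : ℕ) (z : R) : R :=
  ∑ k ∈ Finset.range (n + 1), ((n.choose k : ℕ) : R) * (((n + k).choose k : ℕ) : R) * (-z) ^ k

lemma MM_eq_U (n : ℕ) (w : R) : MM w n n (n + 1) = 3 ^ n * (-1) ^ n * U n w := by
  rw [MM, mul_assoc]
  congr 1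
  rw [coeff_mul, Finset.Nat.sum_antidiagonal_eq_sum_range_succ_mk, ← Finset.sum_range_reflect, U,
    Finset.mul_sum]
  apply Finset.sum_congr rfl
  intro k hk
  have hk' : k ≤ n := by simpa [Nat.lt_succ_iff] using hk
  have h1 : n + 1 - 1 - k = n - k := by omega
  have h2 : n - (n - k) = k := by omega
  simp only [h1, h2]
  rw [coeff_gu_pow, coeff_gu_inv_pow, Nat.choose_symm hk', Nat.choose_symm_add]
  have h3 : (-1 : R) ^ (n - k) = (-1) ^ n * (-1) ^ k := by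
    have : (-1 : R) ^ k * (-1) ^ k = 1 := by rw [← mul_pow]; simp
    calc (-1 : R) ^ (n - k) = (-1 : R) ^ (n - k) * ((-1 : R) ^ k * (-1) ^ k) := by rw [this, mul_one]
      _ = ((-1 : R) ^ (n - k) * (-1) ^ k) * (-1) ^ k := by ring
      _ = (-1) ^ n * (-1) ^ k := by rw [← pow_add, Nat.sub_add_cancel hk']
  rw [h3, neg_pow w k]
  ring

lemma coeff_cube_pow (c : R) (n N : ℕ) (φ : R⟦X⟧) :
    coeff N ((1 + C c * X ^ 3) ^ n * φ) =
      ∑ j ∈ Finset.range (n + 1), ((n.choose j : ℕ) : R) * c ^ j *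
        (if 3 * j ≤ N then coeff (N - 3 * j) φ else 0) := by
  rw [add_comm, add_pow, Finset.sum_mul, map_sum]
  apply Finset.sum_congr rfl
  intro j _
  rw [one_pow, mul_one, mul_pow, ← pow_mul]
  rw [show (C c ^ j * X ^ (3 * j) * ((n.choose j : ℕ) : R⟦X⟧) * φ) =
    (C (((n.choose j : ℕ) : R) * c ^ j)) * (X ^ (3 * j) * φ) by
      rw [map_mul, map_pow, map_natCast]; ring]
  rw [coeff_C_mul, coeff_X_pow_mul']

/-- `V` -/
def V (R : Type*) [CommRing R] (ν : ℕ) : R :=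
  ∑ m ∈ Finset.range (ν + 1), (-1) ^ m * (((3 * ν).choose (ν - m) : ℕ) : R) *
    (((6 * ν + 3 * m).choose (3 * m) : ℕ) : R)

lemma e_prod (w : R) (hw : w ^ 2 - w + 1 = 0) :
    (1 + C (w - 2) * X : R⟦X⟧) * (1 - C (2 * w - 1) * X) * (1 - C (-(1 + w)) * X) =
      1 + C (3 * (2 * w - 1)) * X ^ 3 := by
  have h : (C w ^ 2 - C w + 1 : R⟦X⟧) = 0 := by
    rw [← map_pow, ← map_sub, ← map_one (C (R := R)), ← map_add, hw, map_zero]
  simp only [map_neg, map_add, map_sub, map_mul, map_one, map_ofNat]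
  linear_combination (-3 * X ^ 2 - (2 * C w - 1) * X ^ 3) * h

lemma LL_eq_V (ν : ℕ) (w : R) (hw : w ^ 2 - w + 1 = 0) :
    LL w (3 * ν) (3 * ν) (3 * ν + 1) = (3 * (2 * w - 1)) ^ ν * V R ν := by
  have hθ : (2 * w - 1) ^ 2 = -3 := by linear_combination 4 * hw
  have h0 : ((3 * ν : ℕ) : ℤ) - 1 - (3 * ν : ℕ) + (3 * ν + 1 : ℕ) = ((3 * ν : ℕ) : ℤ) := by
    push_cast; ring
  rw [LL, h0, zpow_natCast, Units.val_pow_eq_pow_val, gu_val]
  have h1 : (((gu (2 * w - 1))⁻¹ : R⟦X⟧ˣ) : R⟦X⟧) ^ (3 * ν + 1) =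
      (1 - C (2 * w - 1) * X) ^ (3 * ν) *
        (((gu (2 * w - 1))⁻¹ : R⟦X⟧ˣ) : R⟦X⟧) ^ (6 * ν + 1) := by
    have : (6 * ν + 1) = 3 * ν + (3 * ν + 1) := by ring
    rw [this, pow_add _ (3 * ν) (3 * ν + 1), ← mul_assoc, ← mul_pow, ← gu_val, Units.mul_inv, one_pow,
      one_mul]
  rw [h1]
  have h2 : (1 + C (w - 2) * X : R⟦X⟧) ^ (3 * ν) * ((1 - C (2 * w - 1) * X) ^ (3 * ν) *
        (((gu (2 * w - 1))⁻¹ : R⟦X⟧ˣ) : R⟦X⟧) ^ (6 * ν + 1)) * (1 - C (-(1 + w)) * X) ^ (3 * ν) =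
      (1 + C (3 * (2 * w - 1)) * X ^ 3) ^ (3 * ν) *
        (((gu (2 * w - 1))⁻¹ : R⟦X⟧ˣ) : R⟦X⟧) ^ (6 * ν + 1) := by
    rw [← e_prod w hw, mul_pow, mul_pow]; ring
  rw [h2, coeff_cube_pow]
  have h3 : Finset.range (ν + 1) ⊆ Finset.range (3 * ν + 1) := by
    intro x; simp only [Finset.mem_range]; omega
  rw [← Finset.sum_subset h3]
  · rw [← Finset.sum_range_reflect, V, Finset.mul_sum]
    apply Finset.sum_congr rfl
    intro m hm
    have hm' : m ≤ ν := by simpa [Nat.lt_succ_iff] using hm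
    have e1 : ν + 1 - 1 - m = ν - m := by omega
    have e2 : 3 * ν - 3 * (ν - m) = 3 * m := by omega
    rw [e1, if_pos (by omega), e2, coeff_gu_inv_pow, Nat.choose_symm_add]
    have e3 : (3 * (2 * w - 1) : R) ^ (ν - m) * (2 * w - 1) ^ (3 * m) =
        (3 * (2 * w - 1)) ^ ν * (-1) ^ m := by
      have : (2 * w - 1 : R) ^ (3 * m) = (3 * (2 * w - 1)) ^ m * (-1) ^ m := by
        rw [← mul_pow, pow_mul]
        congr 1
        linear_combination (2 * w - 1) * hθ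
      rw [this, ← mul_assoc, ← pow_add, Nat.sub_add_cancel hm']
    linear_combination (((3 * ν).choose (ν - m) : ℕ) : R) *
      (((6 * ν + 3 * m).choose (3 * m) : ℕ) : R) * e3
  · intro x _ hx
    have : ν < x := by simpa using hx
    rw [if_neg (by omega), mul_zero]

theorem U_eq_V (ν : ℕ) (w : R) (hw : w ^ 2 - w + 1 = 0) :
    27 ^ ν * (-1) ^ ν * U (3 * ν) w = (3 * (2 * w - 1)) ^ ν * V R ν := by
  rw [← LL_eq_V ν w hw, LL_eq_MM, MM_eq_U]
  rw [pow_mul (3 : R), pow_mul (-1 : R)]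
  norm_num

end MP5d
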