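import Pool.Agent.Work.MP_5d4920_nt.Jacobi
import Pool.Agent.Work.MP_5d4920_nt.Uval

/-! Evaluation of the Jacobi sum and of `U w` modulo `p^2`. -/

namespace MP5d

variable {p : ℕ} [hp : Fact p.Prime]

lemma H_reflect (hodd : Odd p) (k : ℕ) (hk : k < p) : H p (p - 1 - k) = H p k := by
  have h1 := factorial_reflect k hk
  have h2 := factorial_reflect (p := p) (p - 1 - k) (by omega)
  have e1 : p - 1 - (p - 1 - k) = k := by omega
  rw [e1, h1] at h2
  have e2 : (-1 : A p) ^ (p - 1 - k) = (-1) ^ k := by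
    have h3 : Even (p - 1) := by
      obtain ⟨m, hm⟩ := hodd; exact ⟨m, by omega⟩
    have h4 : (-1 : A p) ^ (p - 1 - k) * (-1) ^ k = 1 := by
      rw [← pow_add, show p - 1 - k + k = p - 1 by omega, h3.neg_one_pow]
    have h5 : (-1 : A p) ^ k * (-1) ^ k = 1 := by rw [← mul_pow]; simp
    calc (-1 : A p) ^ (p - 1 - k) = (-1 : A p) ^ (p - 1 - k) * ((-1 : A p) ^ k * (-1) ^ k) := by
          rw [h5, mul_one]
      _ = ((-1 : A p) ^ (p - 1 - k) * (-1 : A p) ^ k) * (-1) ^ k := by ring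
      _ = (-1) ^ k := by rw [h4, one_mul]
  rw [e2] at h2
  have h3 : pi p ((((p - 1 - k).factorial : ℕ) : A p) * ((k.factorial : ℕ) : A p) * (-1) ^ k) ≠ 0 := by
    rw [map_mul, map_mul, map_pow, map_neg, map_one]
    exact mul_ne_zero (mul_ne_zero (pi_factorial_ne_zero (by omega)) (pi_factorial_ne_zero hk))
      (pow_ne_zero _ (by simp))
  have h4 : ex (-H p k) = ex (-H p (p - 1 - k)) := by
    apply cancel h3
    linear_combination h2
  have := ex_inj h4
  linear_combination this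

section

variable {ν : ℕ} (hν : p = 6 * ν + 1)

include hν

lemma hF : 6 * (ν : ZMod p) + 1 = 0 := by
  have : ((6 * ν + 1 : ℕ) : ZMod p) = 0 := by rw [← hν]; exact ZMod.natCast_self p
  push_cast at this; exact this

lemma nu_pos : 0 < ν := by
  rcases Nat.eq_zero_or_pos ν with h | h
  · exfalso; rw [h] at hν; exact hp.out.ne_one (by omega)
  · exact h

lemma p_odd : Odd p := ⟨3 * ν, by omega⟩

lemma six_ne : (6 : ZMod p) ≠ 0 := by
  have := nu_pos hν
  have := nat_ne_zero (p := p) (k := 6) (by omega) (by omega)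
  exact_mod_cast this

lemma two_ne : (2 : ZMod p) ≠ 0 := by
  have := nu_pos hν
  have := nat_ne_zero (p := p) (k := 2) (by omega) (by omega)
  exact_mod_cast this

lemma three_ne : (3 : ZMod p) ≠ 0 := by
  have := nu_pos hν
  have := nat_ne_zero (p := p) (k := 3) (by omega) (by omega)
  exact_mod_cast this

lemma choose4 : (((4 * ν).choose ν : ℕ) : A p) =
    (-1) ^ ν * (((3 * ν).choose ν : ℕ) : A p) * ex (H p (2 * ν) - H p (3 * ν)) := by
  have hpos := nu_pos hν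
  have h2 := factorial_reflect (p := p) (2 * ν) (by omega)
  have h3 := factorial_reflect (p := p) (3 * ν) (by omega)
  rw [show p - 1 - 2 * ν = 4 * ν by omega] at h2
  rw [show p - 1 - 3 * ν = 3 * ν by omega, h2] at h3
  have c4 := Nat.choose_mul_factorial_mul_factorial (n := 4 * ν) (k := ν) (by omega)
  have c3 := Nat.choose_mul_factorial_mul_factorial (n := 3 * ν) (k := ν) (by omega)
  rw [show 4 * ν - ν = 3 * ν by omega] at c4
  rw [show 3 * ν - ν = 2 * ν by omega] at c3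
  have c4' := congrArg (fun n : ℕ => (n : A p)) c4
  have c3' := congrArg (fun n : ℕ => (n : A p)) c3
  push_cast at c4' c3'
  have s1 : (-1 : A p) ^ (2 * ν) = 1 := by rw [pow_mul]; simp
  have s2 : (-1 : A p) ^ (3 * ν) = (-1) ^ ν := by rw [pow_mul]; norm_num
  rw [s1, s2] at h3
  have hne : pi p (((ν.factorial : ℕ) : A p) * (((3 * ν).factorial : ℕ) : A p) *
      (((2 * ν).factorial : ℕ) : A p) * ex (-H p (2 * ν))) ≠ 0 := by
    rw [map_mul, map_mul, map_mul, pi_ex, mul_one]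
    exact mul_ne_zero (mul_ne_zero (pi_factorial_ne_zero (by omega))
      (pi_factorial_ne_zero (by omega))) (pi_factorial_ne_zero (by omega))
  apply cancel hne
  have e1 : ex (H p (2 * ν) - H p (3 * ν)) * ex (-H p (2 * ν)) = ex (-H p (3 * ν)) := by
    rw [← ex_add]; congr 1; ring
  linear_combination (((2 * ν).factorial : ℕ) : A p) * ex (-H p (2 * ν)) * c4' + h3
    - (-1) ^ ν * (((3 * ν).factorial : ℕ) : A p) * ex (-H p (3 * ν)) * c3'
    - ((ν.factorial : ℕ) : A p) * (((3 * ν).factorial : ℕ) : A p) *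
      (((2 * ν).factorial : ℕ) : A p) * (-1) ^ ν * (((3 * ν).choose ν : ℕ) : A p) * e1

theorem J34 : J p (3 * ν) (4 * ν) = -(((3 * ν).choose ν : ℕ) : A p) *
    ex (3⁻¹ * H p (2 * ν) - 2⁻¹ * H p (3 * ν) + 6⁻¹ * H p ν) := by
  have hpos := nu_pos hν
  have hodd := p_odd hν
  have hF := hF hν
  have h6 := six_ne hν
  have h2 := two_ne hν
  have h3 := three_ne hν
  have hJ := J_formula hodd (3 * ν) (4 * ν - 1) (3 * ν) (by omega) (by omega) (by omega)
  rw [show 4 * ν - 1 + 1 = 4 * ν by omega, show 4 * ν - 3 * ν = ν by omega] at hJ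
  have g1 := G_le (p := p) (3 * ν) (ν - 1) (by omega)
  have g2 := G_le (p := p) ν (3 * ν - 1) (by omega)
  rw [show 3 * ν + (ν - 1) = 4 * ν - 1 by omega] at g1
  rw [show ν + (3 * ν - 1) = 4 * ν - 1 by omega] at g2
  have hc : (4 * ν).choose (3 * ν) = (4 * ν).choose ν := by
    rw [← Nat.choose_symm (show ν ≤ 4 * ν by omega)]
    congr 1; omega
  rw [g1, g2, hc] at hJ
  have s2 : (-1 : A p) ^ (3 * ν) = (-1) ^ ν := by rw [pow_mul]; norm_num
  rw [s2] at hJ
  -- choose relations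
  have b1 : (4 * ν) * (4 * ν - 1).choose (3 * ν) = ν * (4 * ν).choose ν := by
    have := Nat.choose_mul_succ_eq (4 * ν - 1) (3 * ν)
    rw [show 4 * ν - 1 + 1 = 4 * ν by omega, show 4 * ν - 3 * ν = ν by omega, hc] at this
    linarith
  have b2 : (4 * ν) * (4 * ν - 1).choose ν = 3 * ν * (4 * ν).choose ν := by
    have := Nat.choose_mul_succ_eq (4 * ν - 1) ν
    rw [show 4 * ν - 1 + 1 = 4 * ν by omega, show 4 * ν - ν = 3 * ν by omega] at this
    linarith
  have b1' := congrArg (fun n : ℕ => (n : ZMod p)) b1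
  have b2' := congrArg (fun n : ℕ => (n : ZMod p)) b2
  push_cast at b1' b2'
  have n1 : ((4 * ν - 1 : ℕ) : ZMod p) + 1 = 4 * ν := by
    have : ((4 * ν - 1 + 1 : ℕ) : ZMod p) = ((4 * ν : ℕ) : ZMod p) := by
      rw [show 4 * ν - 1 + 1 = 4 * ν by omega]
    push_cast at this; exact this
  have n2 : ((3 * ν - 1 : ℕ) : ZMod p) + 1 = 3 * ν := by
    have : ((3 * ν - 1 + 1 : ℕ) : ZMod p) = ((3 * ν : ℕ) : ZMod p) := by
      rw [show 3 * ν - 1 + 1 = 3 * ν by omega]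
    push_cast at this; exact this
  have n3 : ((ν - 1 : ℕ) : ZMod p) + 1 = ν := by
    have : ((ν - 1 + 1 : ℕ) : ZMod p) = ((ν : ℕ) : ZMod p) := by
      rw [show ν - 1 + 1 = ν by omega]
    push_cast at this; exact this
  have k4 := H_succ (p := p) (4 * ν - 1)
  have k3 := H_succ (p := p) (3 * ν - 1)
  have k1 := H_succ (p := p) (ν - 1)
  rw [show 4 * ν - 1 + 1 = 4 * ν by omega, n1] at k4
  rw [show 3 * ν - 1 + 1 = 3 * ν by omega, n2] at k3
  rw [show ν - 1 + 1 = ν by omega, n3] at k1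
  have hν0 : (ν : ZMod p) ≠ 0 := nat_ne_zero hpos (by omega)
  have h40 : (4 : ZMod p) ≠ 0 := by
    have : (4 : ZMod p) = 2 * 2 := by norm_num
    rw [this]; exact mul_ne_zero h2 h2
  have key : (((4 * ν - 1 : ℕ) : ZMod p) + 1) *
      ((((4 * ν - 1).choose (3 * ν) : ℕ) : ZMod p) * (H p (4 * ν - 1) - H p (ν - 1)) +
        (((4 * ν - 1).choose ν : ℕ) : ZMod p) * (H p (4 * ν - 1) - H p (3 * ν - 1))) =
      (((4 * ν).choose ν : ℕ) : ZMod p) * (4 * ν * H p (4 * ν) - 3 * ν * H p (3 * ν) - ν * H p ν + 1) := by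
    rw [n1]
    have e4 : 4 * (ν : ZMod p) * H p (4 * ν) = 4 * ν * H p (4 * ν - 1) + 1 := by
      rw [k4]; field_simp
    have e3 : 3 * (ν : ZMod p) * H p (3 * ν) = 3 * ν * H p (3 * ν - 1) + 1 := by
      rw [k3]; field_simp
    have e1 : (ν : ZMod p) * H p ν = ν * H p (ν - 1) + 1 := by
      rw [k1]; field_simp
    rw [e4, e3, e1]
    linear_combination (H p (4 * ν - 1) - H p (ν - 1)) * b1' + (H p (4 * ν - 1) - H p (3 * ν - 1)) * b2'
  rw [key] at hJ
  -- mod p identities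
  have hH : H p (4 * ν) = H p (2 * ν) := by
    have := H_reflect hodd (2 * ν) (by omega)
    rw [show p - 1 - 2 * ν = 4 * ν by omega] at this
    exact this
  have hval : (ν : ZMod p) = -6⁻¹ := by
    field_simp; linear_combination hF
  have e5 : (4 * (ν : ZMod p) * H p (4 * ν) - 3 * ν * H p (3 * ν) - ν * H p ν + 1) =
      (-(2 * 3⁻¹) * H p (2 * ν) + 2⁻¹ * H p (3 * ν) + 6⁻¹ * H p ν) + 1 := by
    rw [hH, hval]
    have : (6 : ZMod p)⁻¹ = 2⁻¹ * 3⁻¹ := by
      rw [← mul_inv]; norm_num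
    rw [this]
    field_simp
    ring
  rw [e5] at hJ
  set T := (-(2 * 3⁻¹) * H p (2 * ν) + 2⁻¹ * H p (3 * ν) + 6⁻¹ * H p ν) with hT
  have e6 : eps ((((4 * ν).choose ν : ℕ) : ZMod p) * (T + 1)) =
      (((4 * ν).choose ν : ℕ) : A p) * (eps T + (p : A p)) := by
    rw [← eps_one, ← map_add, mul_eps, map_natCast]
  rw [e6] at hJ
  have e7 : J p (3 * ν) (4 * ν) = -((-1) ^ ν * (((4 * ν).choose ν : ℕ) : A p) * ex T) := by
    rw [hJ, ex]; ring
  rw [e7, choose4 hν]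
  have e8 : ex (H p (2 * ν) - H p (3 * ν)) * ex T =
      ex (3⁻¹ * H p (2 * ν) - 2⁻¹ * H p (3 * ν) + 6⁻¹ * H p ν) := by
    rw [← ex_add]
    congr 1
    rw [hT]
    field_simp
    ring
  have s3 : (-1 : A p) ^ ν * (-1) ^ ν = 1 := by rw [← mul_pow]; simp
  linear_combination (-(-1 : A p) ^ ν * (-1) ^ ν * (((3 * ν).choose ν : ℕ) : A p)) * e8 -
    (((3 * ν).choose ν : ℕ) : A p) *
    ex (3⁻¹ * H p (2 * ν) - 2⁻¹ * H p (3 * ν) + 6⁻¹ * H p ν) * s3

theorem J32 : (((3 * ν).choose ν : ℕ) : A p) * J p (3 * ν) (2 * ν) = -p := by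
  have hpos := nu_pos hν
  have hodd := p_odd hν
  have hJ := J_formula hodd (3 * ν) (2 * ν - 1) (3 * ν) (by omega) (by omega) (by omega)
  rw [show 2 * ν - 1 + 1 = 2 * ν by omega, show 2 * ν - 3 * ν = 0 by omega, G_zero, add_zero,
    Nat.choose_eq_zero_of_lt (show 2 * ν < 3 * ν by omega), Nat.cast_zero, mul_zero, zero_sub] at hJ
  have g := G_gt (p := p) (2 * ν - 1) ν (by omega)
  rw [show 2 * ν - 1 + 1 + ν = 3 * ν by omega, show 2 * ν - 1 + ν = 3 * ν - 1 by omega] at g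
  have n1 : ((2 * ν - 1 : ℕ) : ZMod p) + 1 = ((2 * ν : ℕ) : ZMod p) := by
    have : ((2 * ν - 1 + 1 : ℕ) : ZMod p) = ((2 * ν : ℕ) : ZMod p) := by
      rw [show 2 * ν - 1 + 1 = 2 * ν by omega]
    rw [← this]; push_cast; ring
  have b1 : (3 * ν) * (3 * ν - 1).choose (2 * ν - 1) = (3 * ν).choose ν * (2 * ν) := by
    have := Nat.add_one_mul_choose_eq (3 * ν - 1) (2 * ν - 1)
    rw [show 3 * ν - 1 + 1 = 3 * ν by omega, show 2 * ν - 1 + 1 = 2 * ν by omega] at this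
    rw [this, ← Nat.choose_symm (show ν ≤ 3 * ν by omega), show 3 * ν - ν = 2 * ν by omega]
  have b1' : ((3 * ν : ℕ) : ZMod p) * (((3 * ν - 1).choose (2 * ν - 1) : ℕ) : ZMod p) =
      (((3 * ν).choose ν : ℕ) : ZMod p) * ((2 * ν : ℕ) : ZMod p) := by
    rw [← Nat.cast_mul, b1, Nat.cast_mul]
  rw [b1'] at g
  rw [hJ, n1, ← mul_neg_one (eps _), mul_comm (eps _), mul_comm (((3 * ν).choose ν : ℕ) : A p), mul_assoc,
    mul_assoc, eps_mul, map_natCast]
  have e1 : (((3 * ν).choose ν : ℕ) : ZMod p) * (((2 * ν : ℕ) : ZMod p) * G p (2 * ν - 1) (3 * ν)) =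
      (-1) ^ ν := by
    rw [← g]; ring
  rw [e1]
  have s2 : (-1 : A p) ^ (3 * ν) = (-1) ^ ν := by rw [pow_mul]; norm_num
  have s3 : (-1 : A p) ^ ν * (-1) ^ ν = 1 := by rw [← mul_pow]; simp
  have e2 : eps ((-1 : ZMod p) ^ ν) = (-1) ^ ν * (p : A p) := by
    have := mul_eps (p := p) ((-1) ^ ν) 1
    rw [eps_one, map_pow, map_neg, map_one, mul_one] at this
    exact this.symm
  rw [s2, e2]
  linear_combination (-(p : A p)) * s3

theorem J_mul_J : J p (3 * ν) (4 * ν) * J p (3 * ν) (2 * ν) = (p : A p) := by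
  have h1 := J34 hν
  have h2 := J32 hν
  rw [h1]
  have h3 : ex (3⁻¹ * H p (2 * ν) - 2⁻¹ * H p (3 * ν) + 6⁻¹ * H p ν) * (p : A p) = (p : A p) := by
    rw [← eps_one, ex_mul_eps]
  linear_combination -(ex (3⁻¹ * H p (2 * ν) - 2⁻¹ * H p (3 * ν) + 6⁻¹ * H p ν)) * h2 + h3

theorem V_eval : V (A p) ν = (((3 * ν).choose ν : ℕ) : A p) *
    ex (-(3⁻¹ * (H p (3 * ν) - H p (2 * ν)))) := by
  have hpos := nu_pos hν
  have h3 := three_ne hν
  rw [V, Finset.sum_range_succ']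
  have h1 : ∀ m ∈ Finset.range ν, (-1 : A p) ^ (m + 1) * (((3 * ν).choose (ν - (m + 1)) : ℕ) : A p) *
      (((6 * ν + 3 * (m + 1)).choose (3 * (m + 1)) : ℕ) : A p) =
      eps (-3⁻¹ * ((-1) ^ m * (((3 * ν).choose (ν - 1 - m) : ℕ) : ZMod p) * ((m : ZMod p) + 1)⁻¹)) := by
    intro m hm
    have hm' := Finset.mem_range.mp hm
    rw [show 6 * ν = p - 1 by omega, choose_p_add (3 * (m + 1)) (by omega) (by omega), mul_eps,
      map_mul (pi p), map_pow, map_neg, map_one, map_natCast, show ν - (m + 1) = ν - 1 - m by omega]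
    congr 1
    have hm1 := nat_ne_zero (p := p) (k := m + 1) (by omega) (by omega)
    push_cast at hm1 ⊢
    field_simp
    ring
  rw [Finset.sum_congr rfl h1, ← map_sum, ← Finset.mul_sum]
  have h2 : ∑ m ∈ Finset.range ν, (-1) ^ m * (((3 * ν).choose (ν - 1 - m) : ℕ) : ZMod p) *
      ((m : ZMod p) + 1)⁻¹ = G p (3 * ν) ν := rfl
  rw [h2]
  have g := G_le (p := p) ν (2 * ν) (by omega)
  rw [show ν + 2 * ν = 3 * ν by ring] at g
  rw [g, ex, mul_add, mul_one, mul_eps, map_natCast]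
  simp only [pow_zero, one_mul, mul_zero, add_zero, Nat.choose_zero_right, Nat.cast_one, mul_one,
    Nat.sub_zero]
  rw [add_comm]
  congr 2
  ring

end

/-! ### the product formula -/

lemma prod_formula (a m : ℕ) (h : a + m < p) (h3 : (3 : ZMod p) ≠ 0) :
    ((a.factorial : ℕ) : A p) * ∏ j ∈ Finset.range m, (3 * ((a : A p) + j + 1) - p) =
      3 ^ m * (((a + m).factorial : ℕ) : A p) * ex (-(3⁻¹ * (H p (a + m) - H p a))) := by
  induction m with
  | zero => simp [ex_zero]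
  | succ m ih =>
    rw [Finset.prod_range_succ, ← mul_assoc, ih (by omega)]
    have hm1 := nat_ne_zero (p := p) (k := a + m + 1) (by omega) (by omega)
    push_cast at hm1
    have e1 : pi p (3 * ((a : A p) + m + 1)) = 3 * ((a : ZMod p) + m + 1) := by
      rw [map_mul, map_add, map_add, map_one, map_natCast, map_natCast, map_ofNat]
    have hne : pi p (3 * ((a : A p) + m + 1)) ≠ 0 := by
      rw [e1]; exact mul_ne_zero h3 hm1
    rw [mul_sub_p _ hne, e1, ← add_assoc, Nat.factorial_succ, H_succ]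
    have e2 : -(3⁻¹ * (H p (a + m) + (((a + m : ℕ) : ZMod p) + 1)⁻¹ - H p a)) =
        -(3⁻¹ * (H p (a + m) - H p a)) + -(3 * ((a : ZMod p) + m + 1))⁻¹ := by
      push_cast
      field_simp
      ring
    rw [e2, ex_add]
    push_cast
    ring

lemma factorial_three (m : ℕ) : (((3 * m).factorial : ℕ) : A p) =
    3 ^ m * ((m.factorial : ℕ) : A p) * (∏ j ∈ Finset.range m, (3 * (j : A p) + 2)) *
      (∏ j ∈ Finset.range m, (3 * (j : A p) + 1)) := by
  induction m with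
  | zero => simp
  | succ m ih =>
    rw [show 3 * (m + 1) = 3 * m + 1 + 1 + 1 by ring, Nat.factorial_succ, Nat.factorial_succ,
      Nat.factorial_succ, Finset.prod_range_succ, Finset.prod_range_succ, Nat.factorial_succ]
    push_cast
    rw [ih]
    ring

section

variable {ν : ℕ} (hν : p = 6 * ν + 1)

include hν

theorem pow27 : (-27 : A p) ^ ν * ex (-(3⁻¹ * (H p (3 * ν) - H p ν))) = 1 := by
  have hpos := nu_pos hν
  have h3 := three_ne hν
  have hpA : (p : A p) = 6 * ν + 1 := by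
    have := congrArg (fun n : ℕ => (n : A p)) hν
    push_cast at this; exact this
  have f3 := factorial_three (p := p) ν
  have P1 := prod_formula (p := p) (2 * ν) ν (by omega) h3
  have P2 := prod_formula (p := p) ν ν (by omega) h3
  have q1 : ∏ j ∈ Finset.range ν, (3 * (j : A p) + 2) =
      ∏ j ∈ Finset.range ν, (3 * (((2 * ν : ℕ) : A p) + j + 1) - p) := by
    apply Finset.prod_congr rfl
    intro j _
    rw [hpA]; push_cast; ring
  have q2 : ∏ j ∈ Finset.range ν, (3 * (j : A p) + 1) =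
      (-1) ^ ν * ∏ j ∈ Finset.range ν, (3 * ((ν : A p) + j + 1) - p) := by
    rw [← Finset.prod_range_reflect (fun j => (3 * ((ν : A p) + (j : ℕ) + 1) - p)) ν]
    have : (-1 : A p) ^ ν = ∏ j ∈ Finset.range ν, (-1 : A p) := by simp
    rw [this, ← Finset.prod_mul_distrib]
    apply Finset.prod_congr rfl
    intro j hj
    have hj' := Finset.mem_range.mp hj
    have e : ((ν - 1 - j : ℕ) : A p) = ν - 1 - j := by
      have : (ν - 1 - j) + 1 + j = ν := by omega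
      have := congrArg (fun n : ℕ => (n : A p)) this
      push_cast at this
      linear_combination this
    rw [e, hpA]; ring
  rw [show 2 * ν + ν = 3 * ν by ring] at P1
  rw [show ν + ν = 2 * ν by ring] at P2
  rw [q1, q2] at f3
  set X1 := ∏ j ∈ Finset.range ν, (3 * (((2 * ν : ℕ) : A p) + j + 1) - p)
  set X2 := ∏ j ∈ Finset.range ν, (3 * ((ν : A p) + j + 1) - p)
  have e1 : ex (-(3⁻¹ * (H p (3 * ν) - H p (2 * ν)))) * ex (-(3⁻¹ * (H p (2 * ν) - H p ν))) =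
      ex (-(3⁻¹ * (H p (3 * ν) - H p ν))) := by
    rw [← ex_add]; congr 1; ring
  have hne : pi p ((((3 * ν).factorial : ℕ) : A p) * (((2 * ν).factorial : ℕ) : A p)) ≠ 0 := by
    rw [map_mul]
    exact mul_ne_zero (pi_factorial_ne_zero (by omega)) (pi_factorial_ne_zero (by omega))
  apply cancel hne
  have e27 : (-27 : A p) ^ ν = 3 ^ ν * (3 ^ ν) * (3 ^ ν) * (-1) ^ ν := by
    rw [← mul_pow, ← mul_pow, ← mul_pow]; norm_num
  rw [e27, ← e1, mul_one]
  linear_combination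
    (-(3 ^ ν * (-1) ^ ν * 3 ^ ν * (((2 * ν).factorial : ℕ) : A p) *
      ex (-(3⁻¹ * (H p (2 * ν) - H p ν))))) * P1
    - (3 ^ ν * (-1) ^ ν * ((((2 * ν).factorial : ℕ) : A p) * X1)) * P2
    - (((2 * ν).factorial : ℕ) : A p) * f3

/-- `(θ/p)` as an element `±1`. -/
theorem lambda_eval (θ : A p) (hθ : θ ^ 2 = -3) :
    ∃ δ : A p, (δ = 1 ∨ δ = -1) ∧ pi p δ = pi p θ ^ (3 * ν) ∧
      θ ^ (3 * ν) = δ * ex (6⁻¹ * (H p (3 * ν) - H p ν)) := by
  have h2 := two_ne hν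
  have h3 := three_ne hν
  have h27 := pow27 hν
  have hsq : (θ ^ (3 * ν)) ^ 2 = (-27) ^ ν := by
    rw [← pow_mul, mul_comm, pow_mul, hθ, pow_mul]; norm_num
  have hexp : (-27 : A p) ^ ν = ex (3⁻¹ * (H p (3 * ν) - H p ν)) := by
    have := ex_mul_neg (3⁻¹ * (H p (3 * ν) - H p ν))
    calc (-27 : A p) ^ ν = (-27 : A p) ^ ν * (ex (3⁻¹ * (H p (3 * ν) - H p ν)) *
          ex (-(3⁻¹ * (H p (3 * ν) - H p ν)))) := by rw [this, mul_one]
      _ = ((-27 : A p) ^ ν * ex (-(3⁻¹ * (H p (3 * ν) - H p ν)))) *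
          ex (3⁻¹ * (H p (3 * ν) - H p ν)) := by ring
      _ = _ := by rw [h27, one_mul]
  have hF1 : (pi p θ ^ (3 * ν)) ^ 2 = 1 := by
    rw [← map_pow, ← map_pow, hsq, hexp, pi_ex]
  have hF2 : pi p θ ^ (3 * ν) = 1 ∨ pi p θ ^ (3 * ν) = -1 := 
    mul_self_eq_one_iff.mp (by rw [← sq]; exact hF1)
  obtain ⟨δ, hδ, hδ2⟩ : ∃ δ : A p, (δ = 1 ∨ δ = -1) ∧ pi p δ = pi p θ ^ (3 * ν) := by
    rcases hF2 with h | h
    · exact ⟨1, Or.inl rfl, by rw [h, map_one]⟩
    · exact ⟨-1, Or.inr rfl, by rw [h, map_neg, map_one]⟩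
  refine ⟨δ, hδ, hδ2, ?_⟩
  have hδδ : δ * δ = 1 := by rcases hδ with h | h <;> rw [h] <;> ring
  have h0 : pi p (δ * θ ^ (3 * ν) - 1) = 0 := by
    rw [map_sub, map_mul, map_pow, ← hδ2, ← map_mul, hδδ, map_one, sub_self]
  obtain ⟨x, hx⟩ := exists_eps h0
  have h4 : (δ * θ ^ (3 * ν)) = ex x := by rw [ex]; linear_combination hx
  have h5 : ex (x + x) = ex (3⁻¹ * (H p (3 * ν) - H p ν)) := by
    rw [ex_add, ← h4, ← hexp, ← hsq]
    linear_combination (θ ^ (3 * ν)) ^ 2 * hδδ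
  have h6 := ex_inj h5
  have h7 : x = 6⁻¹ * (H p (3 * ν) - H p ν) := by
    have e6 : (6 : ZMod p)⁻¹ = 2⁻¹ * 3⁻¹ := by
      rw [← mul_inv]; norm_num
    rw [e6]
    field_simp
    field_simp at h6
    linear_combination h6
  rw [← h7, ← h4]
  linear_combination -(θ ^ (3 * ν)) * hδδ

theorem U_eq_J (w : A p) (hw : w ^ 2 - w + 1 = 0) :
    ∃ δ : A p, (δ = 1 ∨ δ = -1) ∧ pi p δ = pi p (2 * w - 1) ^ (3 * ν) ∧
      U (3 * ν) w = -(-1) ^ ν * δ * J p (3 * ν) (4 * ν) := by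
  have hθ : (2 * w - 1) ^ 2 = -3 := by linear_combination 4 * hw
  obtain ⟨δ, h1, h2, h3⟩ := lambda_eval hν (2 * w - 1) hθ
  refine ⟨δ, h1, h2, ?_⟩
  have hV := V_eval hν
  have h27 := pow27 hν
  have hU := U_eq_V (R := A p) ν w hw
  have hJ := J34 hν
  -- (3θ)^ν = (-1)^ν θ^(3ν)
  have e1 : (3 * (2 * w - 1)) ^ ν = (-1) ^ ν * (2 * w - 1) ^ (3 * ν) := by
    rw [pow_mul, ← mul_pow]
    congr 1
    linear_combination (2 * w - 1) * hθ
  have e2 : (27 : A p) ^ ν * (-1) ^ ν = (-27) ^ ν := by rw [← mul_pow]; norm_num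
  rw [e1, e2, h3, hV] at hU
  have e3 : ex (6⁻¹ * (H p (3 * ν) - H p ν)) * ex (-(3⁻¹ * (H p (3 * ν) - H p (2 * ν)))) *
      ex (-(3⁻¹ * (H p (3 * ν) - H p ν))) =
      ex (3⁻¹ * H p (2 * ν) - 2⁻¹ * H p (3 * ν) + 6⁻¹ * H p ν) := by
    rw [← ex_add, ← ex_add]
    congr 1
    have h2 := two_ne hν
    have h3 := three_ne hν
    have e6 : (6 : ZMod p)⁻¹ = 2⁻¹ * 3⁻¹ := by
      rw [← mul_inv]; norm_num
    rw [e6]
    field_simp
    ring
  rw [hJ, ← e3]
  linear_combination (-U (3 * ν) w) * h27 + ex (-(3⁻¹ * (H p (3 * ν) - H p ν))) * hU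

end

end MP5d
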