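import Pool.Agent.Work.MP_5d4920_nt.Binom

/-! Teichmüller representatives modulo `p^2` and Jacobi sums. -/

namespace MP5d

variable {p : ℕ} [hp : Fact p.Prime]

/-- Teichmüller representative. -/
def tau (t : ZMod p) : A p := (t.val : A p) ^ p

lemma tau_pi (a : A p) : tau (pi p a) = a ^ p := by
  have h0 : pi p (a - ((pi p a).val : A p)) = 0 := by
    rw [map_sub, map_natCast, ZMod.natCast_zmod_val, sub_self]
  obtain ⟨e, he⟩ := exists_eps h0
  have h1 : a = ((pi p a).val : A p) + eps e := by linear_combination he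
  have h2 : p = (p - 1) + 1 := by have := hp.out.pos; omega
  rw [tau]
  conv_rhs => rw [h1]
  have h3 := add_eps_pow ((pi p a).val : A p) e (p - 1)
  rw [← h2] at h3
  have h4 : (((p - 1 : ℕ) : ZMod p) + 1) = 0 := by
    have : (((p - 1 + 1 : ℕ)) : ZMod p) = 0 := by rw [← h2]; exact ZMod.natCast_self p
    push_cast at this; exact this
  rw [h4] at h3
  rw [h3]
  simp

lemma pi_tau (t : ZMod p) : pi p (tau t) = t := by
  rw [tau, map_pow, map_natCast, ZMod.natCast_zmod_val, ZMod.pow_card]

lemma tau_mul (s t : ZMod p) : tau (s * t) = tau s * tau t := by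
  obtain ⟨a, rfl⟩ := pi_surj s
  obtain ⟨b, rfl⟩ := pi_surj t
  rw [← map_mul, tau_pi, tau_pi, tau_pi, mul_pow]

lemma tau_zero : tau (0 : ZMod p) = 0 := by
  have := tau_pi (p := p) 0
  rw [map_zero, zero_pow hp.out.ne_zero] at this
  exact this

lemma tau_one : tau (1 : ZMod p) = 1 := by
  have := tau_pi (p := p) 1
  rw [map_one, one_pow] at this
  exact this

lemma tau_pow (t : ZMod p) (k : ℕ) : tau (t ^ k) = tau t ^ k := by
  obtain ⟨a, rfl⟩ := pi_surj t
  rw [← map_pow, tau_pi, tau_pi, ← pow_mul, ← pow_mul, mul_comm]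

lemma tau_pow_p (t : ZMod p) : tau t ^ p = tau t := by
  rw [← tau_pow, ZMod.pow_card]

lemma tau_neg_one (hodd : Odd p) : tau (-1 : ZMod p) = -1 := by
  have := tau_pi (p := p) (-1)
  rw [map_neg, map_one, hodd.neg_one_pow] at this
  exact this

lemma tau_pow_sub_one {t : ZMod p} (ht : t ≠ 0) : tau t ^ (p - 1) = 1 := by
  rw [← tau_pow, ZMod.pow_card_sub_one_eq_one ht, tau_one]

lemma sum_tau_pow (m : ℕ) (hm : m ≠ 0) :
    ∑ t : ZMod p, tau t ^ m = if (p - 1) ∣ m then (p : A p) - 1 else 0 := by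
  split_ifs with h
  · obtain ⟨c, rfl⟩ := h
    have h1 : ∀ t : ZMod p, tau t ^ ((p - 1) * c) = if t = 0 then 0 else 1 := by
      intro t
      split_ifs with ht
      · rw [ht, tau_zero, zero_pow hm]
      · rw [pow_mul, tau_pow_sub_one ht, one_pow]
    rw [Finset.sum_congr rfl (fun t _ => h1 t), Finset.sum_ite, Finset.sum_const_zero, zero_add,
      Finset.sum_const, nsmul_eq_mul, mul_one]
    have h2 : (Finset.univ.filter (fun x : ZMod p => ¬ x = 0)).card = p - 1 := by
      rw [Finset.filter_not, Finset.card_sdiff_of_subset (Finset.filter_subset _ _),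
        Finset.card_univ, ZMod.card, Finset.filter_eq' Finset.univ (0 : ZMod p)]
      simp
    rw [h2, Nat.cast_sub hp.out.one_le, Nat.cast_one]
  · obtain ⟨g, hg⟩ := IsCyclic.exists_generator (α := (ZMod p)ˣ)
    have hord : orderOf g = p - 1 := by
      rw [orderOf_eq_card_of_forall_mem_zpowers hg, Nat.card_eq_fintype_card, ZMod.card_units_eq_totient,
        Nat.totient_prime hp.out]
    have hne : (g : ZMod p) ^ m ≠ 1 := by
      intro h2
      apply h
      rw [← hord]
      apply orderOf_dvd_of_pow_eq_one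
      ext
      simpa using h2
    have h3 : ∑ t : ZMod p, tau t ^ m = tau (g : ZMod p) ^ m * ∑ t : ZMod p, tau t ^ m := by
      rw [Finset.mul_sum]
      symm
      apply Fintype.sum_equiv (Equiv.mulLeft₀ (g : ZMod p) g.ne_zero)
      intro t
      simp [tau_mul, mul_pow]
    have h4 : pi p (tau (g : ZMod p) ^ m - 1) ≠ 0 := by
      rw [map_sub, map_pow, pi_tau, map_one]
      exact sub_ne_zero.mpr hne
    apply cancel h4
    linear_combination -h3

lemma sum_pow_F (m : ℕ) (hm : m ≠ 0) :
    ∑ t : ZMod p, t ^ m = if (p - 1) ∣ m then (-1 : ZMod p) else 0 := by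
  have := congrArg (pi p) (sum_tau_pow (p := p) m hm)
  rw [map_sum] at this
  simp only [map_pow, pi_tau] at this
  rw [this]
  split_ifs <;> simp

/-- truncated logarithm -/
def ell (t : ZMod p) : ZMod p := ∑ i ∈ Finset.range (p - 1), ((i : ZMod p) + 1)⁻¹ * t ^ (i + 1)

lemma tau_one_sub (hodd : Odd p) (t : ZMod p) : tau (1 - t) = 1 - tau t - eps (ell t) := by
  have h1 : (1 - t) = pi p (1 - tau t) := by rw [map_sub, map_one, pi_tau]
  rw [h1, tau_pi, sub_eq_neg_add, add_pow, Finset.sum_range_succ']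
  have h2 : ∀ f : ℕ → A p, ∑ k ∈ Finset.range p, f k = ∑ k ∈ Finset.range (p - 1), f k + f (p - 1) := by
    intro f
    have := Finset.sum_range_succ f (p - 1)
    rwa [Nat.sub_add_cancel hp.out.one_le] at this
  have h3 : ∑ k ∈ Finset.range p, (-tau t) ^ (k + 1) * 1 ^ (p - (k + 1)) * ((p.choose (k + 1) : ℕ) : A p) =
      ∑ k ∈ Finset.range (p - 1), (-tau t) ^ (k + 1) * 1 ^ (p - (k + 1)) * ((p.choose (k + 1) : ℕ) : A p)
       - tau t := by
    rw [h2, Nat.sub_add_cancel hp.out.one_le]
    rw [hodd.neg_pow, tau_pow_p]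
    simp [sub_eq_add_neg]
  rw [h3]
  have h4 : ∑ k ∈ Finset.range (p - 1), (-tau t) ^ (k + 1) * 1 ^ (p - (k + 1)) *
      ((p.choose (k + 1) : ℕ) : A p) = - eps (ell t) := by
    rw [ell, map_sum, ← Finset.sum_neg_distrib]
    apply Finset.sum_congr rfl
    intro k hk
    have hk' : k < p - 1 := Finset.mem_range.mp hk
    rw [choose_p (k + 1) (by omega) (by omega), one_pow, mul_one, mul_eps, map_pow, map_neg, pi_tau,
      ← map_neg]
    congr 1
    rw [Nat.add_sub_cancel, neg_pow, pow_succ]
    have : (-1 : ZMod p) ^ k * (-1) ^ k = 1 := by rw [← mul_pow]; simp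
    push_cast
    linear_combination (-t ^ (k + 1) * ((k : ZMod p) + 1)⁻¹) * this
  rw [h4]
  simp
  ring

/-- Jacobi sum -/
def J (p : ℕ) [Fact p.Prime] (a b : ℕ) : A p := ∑ t : ZMod p, tau t ^ a * tau (1 - t) ^ b

lemma J_part1 (a b : ℕ) (N : ℕ) (ha : 0 < a) (haN : a + N = p - 1) (hb : b < p - 1) :
    ∑ t : ZMod p, tau t ^ a * (1 - tau t) ^ b = ((p : A p) - 1) * (-1) ^ N * ((b.choose N : ℕ) : A p) := by
  have h1 : ∀ t : ZMod p, tau t ^ a * (1 - tau t) ^ b =
      ∑ k ∈ Finset.range (b + 1), (-1) ^ k * ((b.choose k : ℕ) : A p) * tau t ^ (a + k) := by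
    intro t
    rw [sub_eq_neg_add, add_pow, Finset.mul_sum]
    apply Finset.sum_congr rfl
    intro k _
    rw [one_pow, mul_one, neg_pow, pow_add]
    ring
  rw [Finset.sum_congr rfl (fun t _ => h1 t), Finset.sum_comm]
  have h2 : ∀ k ∈ Finset.range (b + 1), ∑ t : ZMod p, (-1) ^ k * ((b.choose k : ℕ) : A p) * tau t ^ (a + k)
      = if k = N then ((p : A p) - 1) * (-1) ^ N * ((b.choose N : ℕ) : A p) else 0 := by
    intro k hk
    have hk' : k < b + 1 := Finset.mem_range.mp hk
    rw [← Finset.mul_sum, sum_tau_pow _ (by omega)]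
    split_ifs with h3 h4 h5
    · rw [h4]; ring
    · exfalso
      obtain ⟨c, hc⟩ := h3
      rcases c with _ | _ | c
      · omega
      · omega
      · have : (p - 1) * (c + 1 + 1) = (p - 1) * c + 2 * (p - 1) := by ring
        omega
    · exfalso; apply h3; rw [h5, haN]
    · rw [mul_zero]
  have h2' := Finset.sum_congr (rfl : Finset.range (b + 1) = Finset.range (b + 1)) h2
  rw [h2', Finset.sum_ite_eq']
  split_ifs with h
  · rfl
  · rw [Nat.choose_eq_zero_of_lt (by simpa using h)]; simp

lemma J_part2 (a b : ℕ) (N : ℕ) (ha : 0 < a) (haN : a + N = p - 1) (hb : b + 1 < p - 1) :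
    ∑ t : ZMod p, t ^ a * (1 - t) ^ b * ell t = (-1) ^ N * (G p b N + G p b (b + 1 - N)) := by
  have h1 : ∀ t : ZMod p, t ^ a * (1 - t) ^ b * ell t =
      ∑ k ∈ Finset.range (b + 1), (-1) ^ k * ((b.choose k : ℕ) : ZMod p) *
        ∑ i ∈ Finset.range (p - 1), ((i : ZMod p) + 1)⁻¹ * t ^ (a + k + i + 1) := by
    intro t
    rw [sub_eq_neg_add, add_pow, Finset.mul_sum, Finset.sum_mul, ell]
    apply Finset.sum_congr rfl
    intro k _
    rw [Finset.mul_sum, Finset.mul_sum]
    apply Finset.sum_congr rfl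
    intro i _
    rw [one_pow, mul_one, neg_pow]
    ring
  rw [Finset.sum_congr rfl (fun t _ => h1 t), Finset.sum_comm]
  have h2 : ∀ k ∈ Finset.range (b + 1), ∑ t : ZMod p, (-1) ^ k * ((b.choose k : ℕ) : ZMod p) *
        ∑ i ∈ Finset.range (p - 1), ((i : ZMod p) + 1)⁻¹ * t ^ (a + k + i + 1)
      = if k < N then - ((-1) ^ k * ((b.choose k : ℕ) : ZMod p) * ((N - 1 - k : ℕ) + 1 : ZMod p)⁻¹)
        else ((-1) ^ k * ((b.choose k : ℕ) : ZMod p) * ((k - N : ℕ) + 1 : ZMod p)⁻¹) := by
    intro k hk
    have hk' : k < b + 1 := Finset.mem_range.mp hk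
    rw [← Finset.mul_sum, Finset.sum_comm]
    have h3 : ∀ i ∈ Finset.range (p - 1), ∑ t : ZMod p, ((i : ZMod p) + 1)⁻¹ * t ^ (a + k + i + 1) =
        if k + i + 1 = N ∨ k + i + 1 = N + (p - 1) then - ((i : ZMod p) + 1)⁻¹ else 0 := by
      intro i hi
      have hi' : i < p - 1 := Finset.mem_range.mp hi
      rw [← Finset.mul_sum, sum_pow_F _ (by omega)]
      have h4 : (p - 1) ∣ (a + k + i + 1) ↔ (k + i + 1 = N ∨ k + i + 1 = N + (p - 1)) := by
        constructor
        · rintro ⟨c, hc⟩
          rcases c with _ | _ | _ | c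
          · omega
          · omega
          · omega
          · have : (p - 1) * (c + 1 + 1 + 1) = (p - 1) * c + 3 * (p - 1) := by ring
            omega
        · rintro (h | h)
          · exact ⟨1, by omega⟩
          · exact ⟨2, by omega⟩
      simp only [h4]
      split_ifs <;> simp
    rw [Finset.sum_congr rfl h3]
    split_ifs with hkN
    · rw [Finset.sum_eq_single (N - 1 - k)]
      · rw [if_pos (by omega)]; ring
      · intro i hi hne
        have hi' : i < p - 1 := Finset.mem_range.mp hi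
        rw [if_neg (by omega)]
      · intro hi
        exfalso; apply hi; rw [Finset.mem_range]; omega
    · rw [Finset.sum_eq_single (N + (p - 1) - 1 - k)]
      · rw [if_pos (by omega)]
        have e : (((N + (p - 1) - 1 - k : ℕ) : ZMod p) + 1) = - (((k - N : ℕ) : ZMod p) + 1) := by
          have : (N + (p - 1) - 1 - k) + 1 + ((k - N) + 1) = p := by omega
          have h5 := congrArg (fun n : ℕ => (n : ZMod p)) this
          push_cast at h5
          rw [ZMod.natCast_self] at h5
          linear_combination h5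
        rw [e, inv_neg]; ring
      · intro i hi hne
        have hi' : i < p - 1 := Finset.mem_range.mp hi
        rw [if_neg (by omega)]
      · intro hi
        exfalso; apply hi; rw [Finset.mem_range]; omega
  have h2' := Finset.sum_congr (rfl : Finset.range (b + 1) = Finset.range (b + 1)) h2
  rw [h2']
  -- separate
  rw [Finset.sum_ite, mul_add]
  congr 1
  · -- k < N
    have e1 : Finset.filter (fun k => k < N) (Finset.range (b + 1)) ⊆ Finset.range N := by
      intro x; simp
    rw [Finset.sum_subset e1]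
    · rw [G, ← Finset.sum_range_reflect, Finset.mul_sum]
      apply Finset.sum_congr rfl
      intro m hm
      have hm' : m < N := Finset.mem_range.mp hm
      have e2 : N - 1 - (N - 1 - m) = m := by omega
      rw [e2]
      have e3 : (-1 : ZMod p) ^ N = (-1) ^ (N - 1 - m) * (-1) ^ (m + 1) := by
        rw [← pow_add]; congr 1; omega
      rw [e3, pow_succ]
      have : (-1 : ZMod p) ^ m * (-1) ^ m = 1 := by rw [← mul_pow]; simp
      linear_combination ((-1 : ZMod p) ^ (N - 1 - m) * (b.choose (N - 1 - m)) * ((m : ZMod p) + 1)⁻¹) * this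
    · intro x hx hx2
      have hx' : x < N := Finset.mem_range.mp hx
      simp only [Finset.mem_filter, Finset.mem_range, not_and] at hx2
      rw [Nat.choose_eq_zero_of_lt (by omega)]
      simp
  · -- k ≥ N
    rw [G, Finset.mul_sum]
    symm
    apply Finset.sum_bij (fun m _ => N + m)
    · intro m hm
      have hm' := Finset.mem_range.mp hm
      simp only [Finset.mem_filter, Finset.mem_range]
      omega
    · intro m1 _ m2 _ h; omega
    · intro k hk
      simp only [Finset.mem_filter, Finset.mem_range] at hk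
      exact ⟨k - N, by rw [Finset.mem_range]; omega, by omega⟩
    · intro m hm
      have hm' := Finset.mem_range.mp hm
      have e4 : b + 1 - N - 1 - m = b - (N + m) := by omega
      rw [e4, Nat.choose_symm (by omega), Nat.add_sub_cancel_left, pow_add]
      ring

theorem J_formula (hodd : Odd p) (a b : ℕ) (N : ℕ) (ha : 0 < a) (haN : a + N = p - 1)
    (hb : b + 1 < p - 1) :
    J p a (b + 1) = (-1) ^ N * (((p : A p) - 1) * (((b + 1).choose N : ℕ) : A p) -
      eps (((b : ZMod p) + 1) * (G p b N + G p b (b + 1 - N)))) := by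
  have h1 : ∀ t : ZMod p, tau t ^ a * tau (1 - t) ^ (b + 1) =
      tau t ^ a * (1 - tau t) ^ (b + 1) - eps (((b : ZMod p) + 1) * (t ^ a * (1 - t) ^ b * ell t)) := by
    intro t
    have e1 := add_eps_pow (1 - tau t) (-ell t) b
    rw [map_neg, ← sub_eq_add_neg, map_sub, map_one, pi_tau] at e1
    rw [tau_one_sub hodd, e1, mul_add, mul_eps, map_pow, pi_tau, sub_eq_add_neg (tau t ^ a * (1 - tau t) ^ (b + 1)), ← map_neg]
    congr 2
    ring
  rw [J, Finset.sum_congr rfl (fun t _ => h1 t), Finset.sum_sub_distrib,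
    J_part1 a (b + 1) N ha haN hb, ← map_sum, ← Finset.mul_sum, J_part2 a b N ha haN hb, mul_sub,
    mul_eps]
  congr 1
  · ring
  · congr 1
    rw [map_pow, map_neg, map_one]
    ring

end MP5d
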