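import Mathlib

/-! Two hypergeometric evaluations of power series coefficients. -/

namespace MP5d

open PowerSeries

section

variable {R : Type*} [CommRing R]

/-- inverse of `1 + X + X^2` -/
noncomputable def bi (R : Type*) [CommRing R] : R⟦X⟧ := invOfUnit (1 + X + X ^ 2) 1

/-- inverse of `1 + 2 X` -/
noncomputable def ui (R : Type*) [CommRing R] : R⟦X⟧ := invOfUnit (1 + 2 * X) 1

lemma b_bi : (1 + X + X ^ 2 : R⟦X⟧) * bi R = 1 := by
  apply mul_invOfUnit; simp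

lemma u_ui : (1 + 2 * X : R⟦X⟧) * ui R = 1 := by
  apply mul_invOfUnit
  simp

lemma const_bi : constantCoeff (bi R) = 1 := by
  have := congrArg (constantCoeff (R := R)) (b_bi (R := R))
  simpa using this

lemma const_ui : constantCoeff (ui R) = 1 := by
  have := congrArg (constantCoeff (R := R)) (u_ui (R := R))
  simpa using this

lemma D_bi : (d⁄dX R) (bi R) = -(bi R) ^ 2 * (1 + 2 * X) := by
  have h := congrArg (d⁄dX R) (b_bi (R := R))
  have h1 : (d⁄dX R) ((1 : R⟦X⟧) + X + X ^ 2) = 1 + 2 * X := by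
    rw [map_add, map_add, derivative_one, derivative_X, derivative_pow, derivative_X]
    push_cast; ring
  rw [Derivation.leibniz, smul_eq_mul, smul_eq_mul, h1, derivative_one] at h
  linear_combination (bi R) * h - (d⁄dX R) (bi R) * (b_bi (R := R))

lemma D_ui : (d⁄dX R) (ui R) = -2 * (ui R) ^ 2 := by
  have h := congrArg (d⁄dX R) (u_ui (R := R))
  have h1 : (d⁄dX R) ((1 : R⟦X⟧) + 2 * X) = 2 := by
    rw [map_add, derivative_one, Derivation.leibniz, derivative_X]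
    have : (d⁄dX R) (2 : R⟦X⟧) = 0 := by
      have : (2 : R⟦X⟧) = C (2 : R) := (map_ofNat C 2).symm
      rw [this, derivative_C]
    rw [this]; simp
  rw [Derivation.leibniz, smul_eq_mul, smul_eq_mul, h1, derivative_one] at h
  linear_combination (ui R) * h - (d⁄dX R) (ui R) * (u_ui (R := R))

lemma D_a (k : ℕ) : (d⁄dX R) ((1 - X : R⟦X⟧) ^ (k + 1)) = -((k : R⟦X⟧) + 1) * (1 - X) ^ k := by
  rw [derivative_pow, Nat.add_sub_cancel, map_sub, derivative_one, derivative_X]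
  push_cast; ring

lemma D_bp (k : ℕ) : (d⁄dX R) ((bi R) ^ (k + 1)) = -((k : R⟦X⟧) + 1) * (1 + 2 * X) * (bi R) ^ (k + 2) := by
  rw [derivative_pow, Nat.add_sub_cancel, D_bi]
  push_cast; ring

/-- `f` -/
noncomputable def fs (R : Type*) [CommRing R] (n : ℕ) : R⟦X⟧ := (1 - X) ^ (3 * n + 1) * (bi R) ^ (n + 1)

/-- `h` -/
noncomputable def hs (R : Type*) [CommRing R] (n : ℕ) : R⟦X⟧ :=
  (1 - X) ^ (3 * n + 3) * (bi R) ^ (n + 1) * (ui R) ^ 2

lemma I1 (n : ℕ) : ((n : R⟦X⟧) + 1) * fs R (n + 1) + (9 * (n : R⟦X⟧) + 6) * (X * fs R n) =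
    X * (d⁄dX R) (-(1 + 2 * X) * ((1 - X) ^ (3 * n + 2) * (bi R) ^ (n + 1))) -
      ((n : R⟦X⟧) + 1) * (-(1 + 2 * X) * ((1 - X) ^ (3 * n + 2) * (bi R) ^ (n + 1))) := by
  have hD : (d⁄dX R) (-(1 + 2 * X) : R⟦X⟧) = -2 := by
    have h0 : (2 : R⟦X⟧) = C (2 : R) := (map_ofNat C 2).symm
    rw [map_neg, map_add, derivative_one, Derivation.leibniz, derivative_X]
    rw [show (d⁄dX R) (2 : R⟦X⟧) = 0 by rw [h0, derivative_C]]; simp
  rw [Derivation.leibniz, Derivation.leibniz, hD, D_bp, D_a (3 * n + 1)]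
  simp only [smul_eq_mul]
  rw [fs, fs]
  have hb := b_bi (R := R)
  push_cast
  have e1 : (1 - X : R⟦X⟧) ^ (3 * (n + 1) + 1) = (1 - X) ^ 3 * (1 - X) ^ (3 * n + 1) := by
    rw [← pow_add]; congr 1; ring
  have e2 : (1 - X : R⟦X⟧) ^ (3 * n + 2) = (1 - X) * (1 - X) ^ (3 * n + 1) := by
    rw [← pow_succ']
  have e3 : (bi R) ^ (n + 1 + 1) = bi R * (bi R) ^ (n + 1) := by rw [pow_succ']
  rw [e1, e2, e3]
  generalize (1 - X : R⟦X⟧) ^ (3 * n + 1) = F1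
  generalize (bi R) ^ (n + 1) = F2
  generalize bi R = b' at *
  linear_combination (-(F1 * F2) * ((9 * n + 6) * X + 2 * (1 - X) * X - X * (1 + 2 * X) * (3 * n + 2) -
    (n + 1) * (1 + 2 * X) * (1 - X))) * hb

lemma coeff_XD (n : ℕ) (g : R⟦X⟧) : coeff (n + 1) (X * (d⁄dX R) g - ((n : R⟦X⟧) + 1) * g) = 0 := by
  have h : ((n : R⟦X⟧) + 1) = C ((n : R) + 1) := by simp
  rw [h, map_sub, coeff_succ_X_mul, coeff_derivative, coeff_C_mul]; ring

lemma rec1 (n : ℕ) : ((n : R) + 1) * coeff (n + 1) (fs R (n + 1)) = -(9 * (n : R) + 6) * coeff n (fs R n) := by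
  have h := congrArg (coeff (n + 1)) (I1 (R := R) n)
  rw [coeff_XD] at h
  have h1 : ((n : R⟦X⟧) + 1) = C ((n : R) + 1) := by simp
  have h2 : (9 * (n : R⟦X⟧) + 6) = C (9 * (n : R) + 6) := by simp [map_ofNat]
  rw [map_add, h1, h2, coeff_C_mul, coeff_C_mul, coeff_succ_X_mul] at h
  linear_combination h

lemma eval1 (n : ℕ) : ((n.factorial : ℕ) : R) * coeff n (fs R n) =
    (-3) ^ n * ∏ j ∈ Finset.range n, (3 * (j : R) + 2) := by
  induction n with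
  | zero => simp [fs, const_bi]
  | succ n ih =>
    rw [Nat.factorial_succ, Finset.prod_range_succ, pow_succ]
    have := rec1 (R := R) n
    push_cast
    linear_combination ((n.factorial : ℕ) : R) * this - (9 * n + 6) * ih

lemma I2 (n : ℕ) : ((n : R⟦X⟧) + 1) * hs R (n + 1) + (9 * (n : R⟦X⟧) + 12) * (X * hs R n) =
    X * (d⁄dX R) (-(ui R * ((1 - X) ^ (3 * n + 4) * (bi R) ^ (n + 1)))) -
      ((n : R⟦X⟧) + 1) * (-(ui R * ((1 - X) ^ (3 * n + 4) * (bi R) ^ (n + 1)))) := by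
  rw [map_neg, Derivation.leibniz, Derivation.leibniz, D_ui, D_bp, D_a (3 * n + 3)]
  simp only [smul_eq_mul]
  rw [hs, hs]
  have hb := b_bi (R := R)
  have hu := u_ui (R := R)
  push_cast
  have e1 : (1 - X : R⟦X⟧) ^ (3 * (n + 1) + 3) = (1 - X) ^ 3 * (1 - X) ^ (3 * n + 3) := by
    rw [← pow_add]; congr 1; ring
  have e2 : (1 - X : R⟦X⟧) ^ (3 * n + 4) = (1 - X) * (1 - X) ^ (3 * n + 3) := by
    rw [← pow_succ']
  have e3 : (bi R) ^ (n + 1 + 1) = bi R * (bi R) ^ (n + 1) := by rw [pow_succ']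
  rw [e1, e2, e3]
  have hunit : IsUnit ((1 + X + X ^ 2 : R⟦X⟧) * (1 + 2 * X) ^ 2) :=
    (IsUnit.of_mul_eq_one _ hb).mul ((IsUnit.of_mul_eq_one _ hu).pow 2)
  apply hunit.mul_left_cancel
  generalize (1 - X : R⟦X⟧) ^ (3 * n + 3) = F1
  generalize (bi R) ^ (n + 1) = F2
  generalize bi R = b' at *
  generalize ui R = u' at *
  -- coefficients
  linear_combination
    (F1 * F2) * (((n : R⟦X⟧) + 1) * (1 - X) ^ 3) * (((1 + 2 * X) * u') ^ 2 * hb + ((1 + 2 * X) * u' + 1) * hu)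
    + (F1 * F2) * ((9 * (n : R⟦X⟧) + 12) * X * (1 + X + X ^ 2)) * ((1 + 2 * X) * u' + 1) * hu
    - (F1 * F2) * ((3 * (n : R⟦X⟧) + 4) * X * (1 + X + X ^ 2) * (1 + 2 * X)) * hu
    - (F1 * F2) * (((n : R⟦X⟧) + 1) * X * (1 - X) * (1 + 2 * X) ^ 2) * (((1 + 2 * X) * u') * hb + hu)
    - (F1 * F2) * (2 * X * (1 - X) * (1 + X + X ^ 2)) * ((1 + 2 * X) * u' + 1) * hu
    - (F1 * F2) * (((n : R⟦X⟧) + 1) * (1 - X) * (1 + X + X ^ 2) * (1 + 2 * X)) * hu

lemma rec2 (n : ℕ) : ((n : R) + 1) * coeff (n + 1) (hs R (n + 1)) = -(9 * (n : R) + 12) * coeff n (hs R n) := by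
  have h := congrArg (coeff (n + 1)) (I2 (R := R) n)
  rw [coeff_XD] at h
  have h1 : ((n : R⟦X⟧) + 1) = C ((n : R) + 1) := by simp
  have h2 : (9 * (n : R⟦X⟧) + 12) = C (9 * (n : R) + 12) := by simp [map_ofNat]
  rw [map_add, h1, h2, coeff_C_mul, coeff_C_mul, coeff_succ_X_mul] at h
  linear_combination h

lemma eval2 (n : ℕ) : ((n.factorial : ℕ) : R) * coeff n (hs R n) =
    (-3) ^ n * ∏ j ∈ Finset.range n, (3 * (j : R) + 4) := by
  induction n with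
  | zero => simp [hs, const_bi, const_ui]
  | succ n ih =>
    rw [Nat.factorial_succ, Finset.prod_range_succ, pow_succ]
    have := rec2 (R := R) n
    push_cast
    linear_combination ((n.factorial : ℕ) : R) * this - (9 * n + 12) * ih

lemma I3 (n : ℕ) : (d⁄dX R) (fs R n) + (2 * (n : R⟦X⟧) + 1) * fs R n + hs R n =
    (d⁄dX R) (X * ((2 + X ^ 2) * (ui R * ((1 - X) ^ (3 * n + 1) * (bi R) ^ (n + 1))))) -
      ((n : R⟦X⟧) + 1) * ((2 + X ^ 2) * (ui R * ((1 - X) ^ (3 * n + 1) * (bi R) ^ (n + 1)))) := by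
  have h2 : (d⁄dX R) ((2 : R⟦X⟧) + X ^ 2) = 2 * X := by
    have h0 : (2 : R⟦X⟧) = C (2 : R) := (map_ofNat C 2).symm
    rw [map_add, derivative_pow, derivative_X]
    rw [show (d⁄dX R) (2 : R⟦X⟧) = 0 by rw [h0, derivative_C]]
    push_cast; ring
  rw [fs, Derivation.leibniz (d⁄dX R) X, Derivation.leibniz (d⁄dX R) (2 + X ^ 2), Derivation.leibniz (d⁄dX R) (ui R),
    Derivation.leibniz, derivative_X, h2, D_ui, D_bp]
  simp only [smul_eq_mul]
  rw [hs]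
  have hb := b_bi (R := R)
  have hu := u_ui (R := R)
  -- (d⁄dX R) (a^(3n+1))
  rw [D_a (3 * n)]
  push_cast
  have e1 : (1 - X : R⟦X⟧) ^ (3 * n + 3) = (1 - X) ^ 3 * (1 - X) ^ (3 * n) := by
    rw [← pow_add]; congr 1; ring
  have e2 : (1 - X : R⟦X⟧) ^ (3 * n + 1) = (1 - X) * (1 - X) ^ (3 * n) := by
    rw [← pow_succ']
  have e4 : (bi R) ^ (n + 2) = bi R * (bi R) ^ (n + 1) := by rw [← pow_succ']
  rw [e1, e2, e4]
  have hunit : IsUnit ((1 + X + X ^ 2 : R⟦X⟧) * (1 + 2 * X) ^ 2) :=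
    (IsUnit.of_mul_eq_one _ hb).mul ((IsUnit.of_mul_eq_one _ hu).pow 2)
  apply hunit.mul_left_cancel
  generalize (1 - X : R⟦X⟧) ^ (3 * n) = F1
  generalize (bi R) ^ (n + 1) = F2
  generalize bi R = b' at *
  generalize ui R = u' at *
  linear_combination
    -- -(n+1) u b' a   on the left
    -(F1 * F2) * (((n : R⟦X⟧) + 1) * (1 - X) * (1 + 2 * X) * (1 + 2 * X) ^ 2) * hb
    + (F1 * F2) * ((1 - X) ^ 3 * (1 + X + X ^ 2)) * ((1 + 2 * X) * u' + 1) * hu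
    - (F1 * F2) * ((2 + X ^ 2) * (1 - X) * (1 + X + X ^ 2) * (1 + 2 * X)) * hu
    + (F1 * F2) * (((n : R⟦X⟧) + 1) * (2 + X ^ 2) * (1 - X) * (1 + X + X ^ 2) * (1 + 2 * X)) * hu
    - (F1 * F2) * (2 * X * X * (1 - X) * (1 + X + X ^ 2) * (1 + 2 * X)) * hu
    + (F1 * F2) * (2 * X * (2 + X ^ 2) * (1 - X) * (1 + X + X ^ 2)) * ((1 + 2 * X) * u' + 1) * hu
    + (F1 * F2) * (X * (2 + X ^ 2) * (3 * (n : R⟦X⟧) + 1) * (1 + X + X ^ 2) * (1 + 2 * X)) * hu
    + (F1 * F2) * (X * ((n : R⟦X⟧) + 1) * (2 + X ^ 2) * (1 - X) * (1 + 2 * X) ^ 2) *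
        (((1 + 2 * X) * u') * hb + hu)

lemma rel3 (n : ℕ) : ((n : R) + 1) * coeff (n + 1) (fs R n) + (2 * (n : R) + 1) * coeff n (fs R n) +
    coeff n (hs R n) = 0 := by
  have h := congrArg (coeff n) (I3 (R := R) n)
  have h1 : ((n : R⟦X⟧) + 1) = C ((n : R) + 1) := by simp
  have h2 : (2 * (n : R⟦X⟧) + 1) = C (2 * (n : R) + 1) := by simp [map_ofNat]
  rw [map_add, map_add, map_sub, h1, h2, coeff_C_mul, coeff_C_mul, coeff_derivative,
    coeff_derivative, coeff_succ_X_mul] at h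
  linear_combination h

end

end MP5d
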