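import Pool.Agent.Work.MP_5d4920_nt.Count

/-! `p = a^2 + 3 b^2` and uniqueness. -/

namespace MP5d

variable {p : ℕ} [hp : Fact p.Prime]

theorem exists_AB {ν : ℕ} (hν : p = 6 * ν + 1) (w : A p) (hw : w ^ 2 - w + 1 = 0) :
    ∃ a b : ℤ, a ^ 2 + 3 * b ^ 2 = p ∧ a % 3 = 2 ∧
      J p (3 * ν) (4 * ν) = (a : A p) - (b : A p) * (2 * w - 1) ∧
      J p (3 * ν) (2 * ν) = (a : A p) + (b : A p) * (2 * w - 1) := by
  have hpos := nu_pos hν
  obtain ⟨n, m1, m2, h1, h2, h3⟩ := exists_counts hν (-w) (by linear_combination hw)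
  have hJ1 : J p (3 * ν) (4 * ν) = (((n : ℤ) - m1 - m2 : ℤ) : A p) - (((m1 : ℤ) - m2 : ℤ) : A p) * (2 * w - 1) := by
    rw [h2]; push_cast
    linear_combination (2 * (m2 : A p)) * hw
  have hJ2 : J p (3 * ν) (2 * ν) = (((n : ℤ) - m1 - m2 : ℤ) : A p) + (((m1 : ℤ) - m2 : ℤ) : A p) * (2 * w - 1) := by
    rw [h3]; push_cast
    linear_combination (2 * (m1 : A p)) * hw
  refine ⟨n - m1 - m2, m1 - m2, ?_, ?_, hJ1, hJ2⟩
  · have hmul := J_mul_J hν
    rw [hJ1, hJ2] at hmul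
    have h4 : ((((n : ℤ) - m1 - m2) ^ 2 + 3 * ((m1 : ℤ) - m2) ^ 2 - p : ℤ) : A p) = 0 := by
      push_cast at hmul ⊢
      linear_combination hmul + 4 * ((m1 : A p) - m2) ^ 2 * hw
    rw [intCast_A_eq_zero_iff] at h4
    obtain ⟨k, hk⟩ := h4
    have hnn : (n : ℤ) + 2 * m1 + 2 * m2 = p - 2 := by omega
    have hp2 : (7 : ℤ) ≤ p := by
      have : 7 ≤ p := by omega
      exact_mod_cast this
    have m1n : (0 : ℤ) ≤ m1 := by positivity
    have m2n : (0 : ℤ) ≤ m2 := by positivity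
    have nn : (0 : ℤ) ≤ n := by positivity
    have hup : ((n : ℤ) - m1 - m2) ^ 2 + 3 * ((m1 : ℤ) - m2) ^ 2 ≤ ((p : ℤ) - 2) ^ 2 := by
      rw [← hnn]
      nlinarith [mul_nonneg nn m1n, mul_nonneg nn m2n, mul_nonneg m1n m2n]
    have hlo : 0 ≤ ((n : ℤ) - m1 - m2) ^ 2 + 3 * ((m1 : ℤ) - m2) ^ 2 := by positivity
    have hk1 : k < 1 := by
      by_contra hcon
      have : 1 ≤ k := by omega
      nlinarith
    have hk2 : -1 < k := by
      by_contra hcon
      have : k ≤ -1 := by omega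
      nlinarith
    have hk0 : k = 0 := by omega
    rw [hk0] at hk
    linarith
  · omega

lemma unique_sq (x y a b : ℤ) (h1 : x ^ 2 + 3 * y ^ 2 = p) (h2 : a ^ 2 + 3 * b ^ 2 = p) :
    y ^ 2 = b ^ 2 := by
  have hp0 : (0 : ℤ) < p := by exact_mod_cast hp.out.pos
  have hpp : Prime (p : ℤ) := Nat.prime_iff_prime_int.mp hp.out
  have key : (x * b - y * a) * (x * b + y * a) = p * (b ^ 2 - y ^ 2) := by
    linear_combination b ^ 2 * h1 - y ^ 2 * h2
  have hdvd : (p : ℤ) ∣ (x * b - y * a) * (x * b + y * a) := ⟨_, key⟩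
  have main : ∀ c : ℤ, (∃ d : ℤ, d ^ 2 + 3 * c ^ 2 = p ^ 2) → (p : ℤ) ∣ c → c = 0 := by
    rintro c ⟨d, hd⟩ ⟨k, rfl⟩
    have hk : k = 0 := by
      by_contra hk
      have : 1 ≤ k ^ 2 := by
        have : 0 < k ^ 2 := by positivity
        omega
      have h5 : (p : ℤ) ^ 2 * (3 * k ^ 2 - 1) = - d ^ 2 := by linear_combination hd
      have h6 : 0 < (p : ℤ) ^ 2 * (3 * k ^ 2 - 1) := by
        apply mul_pos (by positivity); linarith
      have h7 : 0 ≤ d ^ 2 := by positivity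
      linarith
    rw [hk, mul_zero]
  rcases hpp.dvd_or_dvd hdvd with h | h
  · have := main _ ⟨x * a + 3 * y * b, by linear_combination (a ^ 2 + 3 * b ^ 2) * h1 + p * h2⟩ h
    rw [this, zero_mul] at key
    rcases mul_eq_zero.mp key.symm with h5 | h5
    · exact absurd h5 hp0.ne'
    · linarith
  · have := main _ ⟨x * a - 3 * y * b, by linear_combination (a ^ 2 + 3 * b ^ 2) * h1 + p * h2⟩ h
    rw [this, mul_zero] at key
    rcases mul_eq_zero.mp key.symm with h5 | h5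
    · exact absurd h5 hp0.ne'
    · linarith

end MP5d
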