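import Pool.Agent.Work.MP_5d4920_nt.PartB
import Pool.Agent.Work.MP_5d4920_nt.KIdent

/-! The relation `U (U + 2 θ U') = p`. -/

namespace MP5d

open PowerSeries

section general

variable {R : Type*} [CommRing R]

/-- `1/(1-X)` -/
noncomputable def ai (R : Type*) [CommRing R] : R⟦X⟧ := (((gu (1 : R))⁻¹ : R⟦X⟧ˣ) : R⟦X⟧)

lemma a_ai : (1 - X : R⟦X⟧) * ai R = 1 := by
  have := (gu (1 : R)).mul_inv
  rw [gu_val, map_one, one_mul] at this
  exact this

lemma coeff_rescale_cube (θ : R) (hθ : 3 * θ = -θ ^ 3) (k l m : ℕ) :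
    coeff m ((1 + C (3 * θ) * X ^ 3) ^ k * (((gu θ)⁻¹ : R⟦X⟧ˣ) : R⟦X⟧) ^ l) =
      θ ^ m * coeff m ((1 + C (-1) * X ^ 3) ^ k * (ai R) ^ l) := by
  rw [← coeff_rescale, map_mul (rescale θ), map_pow (rescale θ), map_pow (rescale θ)]
  have h1 : rescale θ (1 + C (-1) * X ^ 3) = (1 + C (3 * θ) * X ^ 3 : R⟦X⟧) := by
    rw [map_add, map_one, map_mul, map_pow, rescale_X, hθ]
    have : rescale θ (C (-1 : R)) = C (-1) := by
      rw [map_neg, map_one, map_neg, map_one]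
    rw [this]
    simp only [map_neg, map_one, map_pow]
    ring
  have h2 : rescale θ (ai R) = (((gu θ)⁻¹ : R⟦X⟧ˣ) : R⟦X⟧) := by
    rw [ai, gu_inv_val, gu_inv_val, rescale_mk]
    ext n; simp
  rw [h1, h2]

/-- the coefficients `r` -/
noncomputable def rs (R : Type*) [CommRing R] (n m : ℕ) : R :=
  coeff m ((1 + C (-1) * X ^ 3) ^ n * (ai R) ^ (2 * n + 1))

noncomputable def Ps (R : Type*) [CommRing R] (n m : ℕ) : R :=
  coeff m ((1 + C (-1) * X ^ 3) ^ n * (ai R) ^ (2 * n + 2))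

lemma theta_cube (w : R) (hw : w ^ 2 - w + 1 = 0) : 3 * (2 * w - 1) = -(2 * w - 1) ^ 3 := by
  linear_combination (8 * w - 4) * hw

lemma U_rs (n : ℕ) (w : R) (hw : w ^ 2 - w + 1 = 0) :
    3 ^ n * (-1) ^ n * U n w = (2 * w - 1) ^ n * rs R n n := by
  rw [← MM_eq_U, ← LL_eq_MM, LL_cube n w hw, coeff_rescale_cube _ (theta_cube w hw), rs]

open Polynomial in
lemma U'_sum (n : ℕ) (z : R) : U' (n + 1) z = -∑ k ∈ Finset.range (n + 1),
    ((k : R) + 1) * (((n + 1).choose (k + 1) : ℕ) : R) * (((n + 1 + (k + 1)).choose (k + 1) : ℕ) : R) *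
      (-z) ^ k := by
  rw [U', shiftedLegendre, derivative_sum, map_sum, Finset.sum_range_succ', ← Finset.sum_neg_distrib]
  have h0 : (aeval z) (derivative (Polynomial.C ((-1 : ℤ) ^ 0 * (n + 1).choose 0 * (n + 1 + 0).choose (n + 1)) *
    Polynomial.X ^ 0)) = 0 := by simp
  rw [h0, add_zero]
  apply Finset.sum_congr rfl
  intro k _
  rw [derivative_C_mul_X_pow, map_mul, map_pow, aeval_X, aeval_C, Nat.choose_symm_add]
  simp only [algebraMap_int_eq, eq_intCast]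
  push_cast
  rw [neg_pow z k, pow_succ (-1 : R) k]; ring

lemma MM_eq_U' (n : ℕ) (w : R) : ((n : R) + 2) * MM w n (n + 1) (n + 3) =
    3 ^ n * (-1) ^ (n + 1) * U' (n + 1) w := by
  rw [MM, U'_sum, coeff_mul, Finset.Nat.sum_antidiagonal_eq_sum_range_succ_mk,
    ← Finset.sum_range_reflect, ← mul_assoc, mul_comm ((n : R) + 2), mul_assoc, mul_assoc]
  congr 1
  rw [Finset.mul_sum, ← Finset.sum_neg_distrib, Finset.mul_sum]
  apply Finset.sum_congr rfl
  intro k hk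
  have hk' : k ≤ n := by simpa [Nat.lt_succ_iff] using hk
  have h1 : n + 1 - 1 - k = n - k := by omega
  have h2 : n - (n - k) = k := by omega
  simp only [h1, h2]
  rw [coeff_gu_pow, coeff_gu_inv_pow]
  have c1 : (n + 1).choose (n - k) = (n + 1).choose (k + 1) := by
    rw [← Nat.choose_symm (show k + 1 ≤ n + 1 by omega)]; congr 1; omega
  have c2 : (n + 2 + k).choose (n + 2) = (n + 2 + k).choose k := Nat.choose_symm_add
  have c3 : (n + 1 + (k + 1)).choose (k + 1) * (k + 1) = (n + 2 + k).choose k * (n + 2) := by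
    have := Nat.choose_succ_right_eq (n + 1 + (k + 1)) k
    rw [show n + 1 + (k + 1) - k = n + 2 by omega] at this
    rw [this, show n + 1 + (k + 1) = n + 2 + k by ring]
  have c3' := congrArg (fun m : ℕ => (m : R)) c3
  push_cast at c3'
  have h3 : (-1 : R) ^ (n - k) = (-1) ^ n * (-1) ^ k := by
    have : (-1 : R) ^ k * (-1) ^ k = 1 := by rw [← mul_pow]; simp
    calc (-1 : R) ^ (n - k) = (-1 : R) ^ (n - k) * ((-1 : R) ^ k * (-1) ^ k) := by rw [this, mul_one]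
      _ = ((-1 : R) ^ (n - k) * (-1) ^ k) * (-1) ^ k := by ring
      _ = (-1) ^ n * (-1) ^ k := by rw [← pow_add, Nat.sub_add_cancel hk']
  rw [c1, c2, h3, neg_pow w k, pow_succ (-1 : R) n]
  linear_combination (-(-1 : R) ^ n * (-1) ^ k * (((n + 1).choose (k + 1) : ℕ) : R) * w ^ k) * c3'

lemma LL_cube' (n : ℕ) (w : R) (hw : w ^ 2 - w + 1 = 0) :
    LL w n (n + 1) (n + 3) = (2 * w - 1) ^ n * Ps R (n + 1) n := by
  have h0 : ((n : ℕ) : ℤ) - 1 - (n + 1 : ℕ) + (n + 3 : ℕ) = ((n + 1 : ℕ) : ℤ) := by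
    push_cast; ring
  rw [Ps, ← coeff_rescale_cube _ (theta_cube w hw), LL, h0, zpow_natCast, Units.val_pow_eq_pow_val,
    gu_val, gu_cancel (2 * w - 1) (n + 1) (n + 3), ← e_prod w hw, mul_pow, mul_pow,
    show (n + 1) + (n + 3) = 2 * (n + 1) + 2 by ring]
  congr 1
  ring

lemma U'_Ps (n : ℕ) (w : R) (hw : w ^ 2 - w + 1 = 0) :
    3 ^ n * (-1) ^ (n + 1) * U' (n + 1) w = ((n : R) + 2) * ((2 * w - 1) ^ n * Ps R (n + 1) n) := by
  rw [← MM_eq_U', ← LL_eq_MM, LL_cube' n w hw]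

lemma D_ai : (d⁄dX R) (ai R) = (ai R) ^ 2 := by
  have h := congrArg (d⁄dX R) (a_ai (R := R))
  have h1 : (d⁄dX R) ((1 : R⟦X⟧) - X) = -1 := by
    rw [map_sub, derivative_one, derivative_X]; ring
  rw [Derivation.leibniz, smul_eq_mul, smul_eq_mul, h1, derivative_one] at h
  linear_combination (ai R) * h - (d⁄dX R) (ai R) * (a_ai (R := R))

lemma cube_q (n k : ℕ) : ((1 + C (-1) * X ^ 3) ^ n * (ai R) ^ (2 * n + k) : R⟦X⟧) =
    ((1 + X + X ^ 2) * ai R) ^ n * (ai R) ^ k := by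
  have h := a_ai (R := R)
  have e1 : (1 + C (-1) * X ^ 3 : R⟦X⟧) * ai R = 1 + X + X ^ 2 := by
    rw [map_neg, map_one]
    linear_combination (1 + X + X ^ 2) * h
  calc ((1 + C (-1) * X ^ 3) ^ n * (ai R) ^ (2 * n + k) : R⟦X⟧)
      = ((1 + C (-1) * X ^ 3) * ai R) ^ n * (ai R) ^ n * (ai R) ^ k := by
        rw [mul_pow, show 2 * n + k = n + n + k by ring, pow_add, pow_add]; ring
    _ = _ := by rw [e1, mul_pow]

lemma Ps_rs (n : ℕ) : ((n : R) + 2) * (3 * Ps R (n + 1) n) =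
    ((n : R) + 2) * (rs R (n + 1) (n + 2) - rs R (n + 1) (n + 1)) := by
  have h := a_ai (R := R)
  set q : R⟦X⟧ := (1 + X + X ^ 2) * ai R with hq
  have hDq : (d⁄dX R) q = (1 + 2 * X) * ai R + (1 + X + X ^ 2) * (ai R) ^ 2 := by
    have h1 : (d⁄dX R) ((1 : R⟦X⟧) + X + X ^ 2) = 1 + 2 * X := by
      rw [map_add, map_add, derivative_one, derivative_X, derivative_pow, derivative_X]
      push_cast; ring
    rw [hq, Derivation.leibniz, smul_eq_mul, smul_eq_mul, h1, D_ai]; ring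
  have hXD := coeff_XD (n + 1) (q ^ (n + 2))
  rw [derivative_pow, show n + 2 - 1 = n + 1 by omega] at hXD
  have e1 : X * (((n + 2 : ℕ) : R⟦X⟧) * q ^ (n + 1) * (d⁄dX R) q) - (((n + 1 : ℕ) : R⟦X⟧) + 1) * q ^ (n + 2) =
      C ((n : R) + 2) * (3 * (X * (X * (q ^ (n + 1) * (ai R) ^ 2))) -
        (q ^ (n + 1) * ai R - X * (q ^ (n + 1) * ai R))) := by
    have e2 : X * (d⁄dX R) q - q = 3 * (X * X * (ai R) ^ 2) - 1 := by
      rw [hDq, hq]
      linear_combination (-(X * (1 + 2 * X) * ai R) + (1 + X + X ^ 2) * ai R -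
        ((1 - X) * ai R + 1)) * h
    have e3 : (C ((n : R) + 2) : R⟦X⟧) = (n : R⟦X⟧) + 2 := by simp [map_ofNat]
    rw [e3]
    push_cast
    rw [show q ^ (n + 2) = q ^ (n + 1) * q by rw [← pow_succ]]
    linear_combination (((n : R⟦X⟧) + 2) * q ^ (n + 1)) * e2 + (((n : R⟦X⟧) + 2) * q ^ (n + 1)) * h
  rw [e1, coeff_C_mul, map_sub, map_sub, coeff_succ_X_mul] at hXD
  rw [show (3 : R⟦X⟧) = C (3 : R) from (map_ofNat C 3).symm, coeff_C_mul, coeff_succ_X_mul,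
    coeff_succ_X_mul] at hXD
  have f1 : Ps R (n + 1) n = coeff n (q ^ (n + 1) * (ai R) ^ 2) := by
    rw [Ps, cube_q (n + 1) 2]
  have f2 : ∀ m, rs R (n + 1) m = coeff m (q ^ (n + 1) * (ai R)) := by
    intro m
    rw [rs, cube_q (n + 1) 1, pow_one]
  rw [f1, f2, f2]
  linear_combination hXD

theorem UU'_rs (n : ℕ) (w : R) (hw : w ^ 2 - w + 1 = 0) :
    9 ^ (n + 1) * (U (n + 1) w ^ 2 + 2 * (2 * w - 1) * U (n + 1) w * U' (n + 1) w) =
      (-3) ^ (n + 1) * (rs R (n + 1) (n + 1) * ((2 * n + 4) * rs R (n + 1) (n + 2) -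
        (2 * n + 3) * rs R (n + 1) (n + 1))) := by
  have h1 := U_rs (n + 1) w hw
  have h2 := U'_Ps n w hw
  have h3 := Ps_rs (R := R) n
  have hθ : (2 * w - 1) ^ 2 = -3 := by linear_combination 4 * hw
  have s : (-1 : R) ^ (n + 1) * (-1) ^ (n + 1) = 1 := by rw [← mul_pow]; simp
  set u := U (n + 1) w
  set v := U' (n + 1) w
  set r := rs R (n + 1) (n + 1)
  set r' := rs R (n + 1) (n + 2)
  set t := 2 * w - 1
  -- 3^(n+1) * (-1)^(n+1) * (u + 2 t v) = t^(n+1) * ((2n+4) r' - (2n+3) r)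
  have h4 : 3 ^ (n + 1) * (-1) ^ (n + 1) * (u + 2 * t * v) =
      t ^ (n + 1) * ((2 * n + 4) * r' - (2 * n + 3) * r) := by
    rw [pow_succ t n] at *
    linear_combination h1 + (6 * t) * h2 + (2 * t * t ^ n) * h3
  have h5 : (9 : R) ^ (n + 1) = (3 ^ (n + 1) * (-1) ^ (n + 1)) * (3 ^ (n + 1) * (-1) ^ (n + 1)) := by
    rw [← mul_pow, ← mul_pow]; norm_num
  have h6 : t ^ (n + 1) * t ^ (n + 1) = (-3) ^ (n + 1) := by
    rw [← mul_pow, ← sq, hθ]
  rw [h5, ← h6]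
  linear_combination (3 ^ (n + 1) * (-1) ^ (n + 1) * (u + 2 * t * v)) * h1 + (t ^ (n + 1) * r) * h4

end general

end MP5d
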