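import Pool.Agent.Work.MP_5d4920_nt.PartA2

/-! The relation `U (U + 2 θ U') = p`, continued. -/

namespace MP5d

open PowerSeries

section general

variable {R : Type*} [CommRing R]

/-- `K` -/
noncomputable def Ks (R : Type*) [CommRing R] (n : ℕ) : R⟦X⟧ := expand 3 (by norm_num) ((ai R) ^ (n + 1))

lemma cube_expand (n : ℕ) : ((1 + C (-1) * X ^ 3 : R⟦X⟧)) ^ n =
    expand 3 (by norm_num) ((1 + C (-1) * X) ^ n) := by
  rw [map_pow, map_add, map_one, map_mul, expand_C, expand_X]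

lemma Ks_mul (n : ℕ) : Ks R n * (1 + C (-1) * X ^ 3) ^ (n + 1) = 1 := by
  rw [cube_expand, Ks, ← map_mul, ← mul_pow]
  have : ai R * (1 + C (-1) * X) = 1 := by
    rw [map_neg, map_one]; linear_combination a_ai (R := R)
  rw [this, one_pow, map_one]

lemma fs_Ks (n : ℕ) : fs R n = ((1 + C (-1) * X) ^ (2 * n + 1) * (1 + C (-1) * X) ^ (2 * n + 1)) * Ks R n := by
  have h1 : (1 + C (-1) * X : R⟦X⟧) = 1 - X := by rw [map_neg, map_one]; ring
  have h2 : (1 + C (-1) * X ^ 3 : R⟦X⟧) = (1 + X + X ^ 2) * (1 - X) := by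
    rw [map_neg, map_one]; ring
  have h3 : fs R n * (1 + C (-1) * X ^ 3) ^ (n + 1) =
      (1 + C (-1) * X) ^ (2 * n + 1) * (1 + C (-1) * X) ^ (2 * n + 1) := by
    have hb := b_bi (R := R)
    rw [h1, h2, fs, mul_pow]
    calc ((1 - X) ^ (3 * n + 1) * bi R ^ (n + 1) * ((1 + X + X ^ 2) ^ (n + 1) * (1 - X) ^ (n + 1)) : R⟦X⟧)
        = ((1 + X + X ^ 2) * bi R) ^ (n + 1) * ((1 - X) ^ (3 * n + 1) * (1 - X) ^ (n + 1)) := by
          rw [mul_pow]; ring
      _ = _ := by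
          rw [hb, one_pow, one_mul, ← pow_add, ← pow_add]; congr 1; ring
  rw [← h3, mul_assoc, mul_comm _ (Ks R n), Ks_mul, mul_one]

lemma coeff_Ks (n m : ℕ) : coeff m (Ks R n) = if 3 ∣ m then (((n + m / 3).choose n : ℕ) : R) else 0 := by
  rw [Ks, coeff_expand]
  split_ifs
  · rw [ai, coeff_gu_inv_pow]; simp
  · rfl

lemma coeff_cube (n m : ℕ) : coeff m ((1 + C (-1) * X ^ 3 : R⟦X⟧) ^ n) =
    if 3 ∣ m then ((n.choose (m / 3) : ℕ) : R) * (-1) ^ (m / 3) else 0 := by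
  rw [cube_expand, coeff_expand]
  split_ifs
  · rw [coeff_gu_pow]
  · rfl

lemma coeff_mul_split (φ K : R⟦X⟧) (m : ℕ) (h : coeff 0 φ = 1) : coeff m (φ * K) =
    coeff m K + ∑ i ∈ Finset.range m, coeff (i + 1) φ * coeff (m - (i + 1)) K := by
  rw [coeff_mul, Finset.Nat.sum_antidiagonal_eq_sum_range_succ_mk, Finset.sum_range_succ']
  simp only [Nat.sub_zero]
  rw [h]; ring

lemma prod_three (n : ℕ) : (∏ j ∈ Finset.range n, (3 * (j : R) + 2)) *
    (∏ j ∈ Finset.range n, (3 * (j : R) + 4)) * (3 ^ n * ((n.factorial : ℕ) : R)) =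
    (((3 * n + 1).factorial : ℕ) : R) := by
  induction n with
  | zero => simp
  | succ n ih =>
    rw [Finset.prod_range_succ, Finset.prod_range_succ, Nat.factorial_succ,
      show 3 * (n + 1) + 1 = 3 * n + 1 + 1 + 1 + 1 by ring, Nat.factorial_succ, Nat.factorial_succ,
      Nat.factorial_succ (3 * n + 1)]
    push_cast
    rw [← ih, pow_succ]
    push_cast
    ring

end general

variable {p : ℕ} [hp : Fact p.Prime]

lemma choose_F {n : ℕ} (hn : p = 2 * n + 1) (i : ℕ) (hi : n + i < p) :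
    (((n + i).choose i : ℕ) : ZMod p) = (-1) ^ i * ((n.choose i : ℕ) : ZMod p) := by
  induction i with
  | zero => simp
  | succ i ih =>
    have ih' := ih (by omega)
    have c1 := Nat.add_one_mul_choose_eq (n + i) i
    have c2 := Nat.choose_succ_right_eq n i
    have c1' := congrArg (fun m : ℕ => (m : ZMod p)) c1
    have c2' := congrArg (fun m : ℕ => (m : ZMod p)) c2
    have hi1 := nat_ne_zero (p := p) (k := i + 1) (by omega) (by omega)
    have hpF : (2 * (n : ZMod p) + 1) = 0 := by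
      have : ((2 * n + 1 : ℕ) : ZMod p) = 0 := by rw [← hn]; exact ZMod.natCast_self p
      push_cast at this; exact this
    push_cast at c1' c2' hi1
    have hni : ((n - i : ℕ) : ZMod p) = (n : ZMod p) - i := by
      rw [Nat.cast_sub (by omega)]
    rw [hni] at c2'
    apply mul_right_cancel₀ hi1
    rw [← add_assoc, pow_succ]
    linear_combination -c1' + ((n : ZMod p) + i + 1) * ih' + (-1) ^ i * c2' +
      (-1) ^ i * ((n.choose i : ℕ) : ZMod p) * hpF

lemma eps_mul_congr (x : ZMod p) (a b : A p) (h : pi p a = pi p b) : eps x * a = eps x * b := by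
  rw [eps_mul, eps_mul, h]

section

variable {n : ℕ} (hn : p = 2 * n + 1)

include hn

lemma pi_coeff_Ks (m : ℕ) (hm : m < p) : pi p (coeff m (Ks (A p) n)) =
    pi p (coeff m ((1 + C (-1) * X ^ 3 : (A p)⟦X⟧) ^ n)) := by
  rw [coeff_Ks, coeff_cube]
  split_ifs
  · rw [map_natCast, map_mul, map_natCast, map_pow, map_neg, map_one, Nat.choose_symm_add,
      choose_F hn (m / 3) (by omega)]
    ring
  · rfl

lemma coeff_E (j : ℕ) (h0 : 0 < j) (hj : j < p) :
    coeff j ((1 + C (-1) * X : (A p)⟦X⟧) ^ (2 * n + 1) * (1 + C (-1) * X) ^ (2 * n + 1)) =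
      -2 * coeff j ((ai (A p)) ^ p) := by
  rw [← hn, coeff_mul_OneS (OneS_pow _) (OneS_pow _) j h0 hj, coeff_pow_p _ j h0 hj, ai,
    coeff_inv_pow_p _ j h0 hj]
  have : ((-1 : ZMod p) ^ (j - 1) * (j : ZMod p)⁻¹ * pi p (-1) ^ j) = -((j : ZMod p)⁻¹ * pi p 1 ^ j) := by
    rw [map_neg, map_one, one_pow]
    obtain ⟨k, rfl⟩ : ∃ k, j = k + 1 := ⟨j - 1, by omega⟩
    rw [Nat.add_sub_cancel, pow_succ]
    have s : (-1 : ZMod p) ^ k * (-1) ^ k = 1 := by rw [← mul_pow]; simp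
    linear_combination (-((k + 1 : ℕ) : ZMod p)⁻¹) * s
  rw [this, map_neg]; ring

lemma sums_rel (m : ℕ) (hm : m < p) :
    ∑ i ∈ Finset.range m, coeff (i + 1) ((1 + C (-1) * X : (A p)⟦X⟧) ^ (2 * n + 1) *
      (1 + C (-1) * X) ^ (2 * n + 1)) * coeff (m - (i + 1)) (Ks (A p) n) =
    -2 * ∑ i ∈ Finset.range m, coeff (i + 1) ((ai (A p)) ^ p) *
      coeff (m - (i + 1)) ((1 + C (-1) * X ^ 3 : (A p)⟦X⟧) ^ n) := by
  rw [Finset.mul_sum]
  apply Finset.sum_congr rfl
  intro i hi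
  have hi' := Finset.mem_range.mp hi
  rw [coeff_E hn (i + 1) (by omega) (by omega), ai, coeff_inv_pow_p _ _ (by omega) (by omega),
    mul_assoc, eps_mul_congr _ _ _ (pi_coeff_Ks hn (m - (i + 1)) (by omega))]

lemma pi_sum_zero (m : ℕ) (hm : m < p) :
    pi p (∑ i ∈ Finset.range m, coeff (i + 1) ((ai (A p)) ^ p) *
      coeff (m - (i + 1)) ((1 + C (-1) * X ^ 3 : (A p)⟦X⟧) ^ n)) = 0 := by
  rw [map_sum]
  apply Finset.sum_eq_zero
  intro i hi
  have hi' := Finset.mem_range.mp hi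
  rw [map_mul, ai, coeff_inv_pow_p _ _ (by omega) (by omega), pi_eps, zero_mul]

lemma coeff_fs (m : ℕ) (hm : m < p) : coeff m (fs (A p) n) = coeff m (Ks (A p) n)
    + -2 * ∑ i ∈ Finset.range m, coeff (i + 1) ((ai (A p)) ^ p) *
      coeff (m - (i + 1)) ((1 + C (-1) * X ^ 3 : (A p)⟦X⟧) ^ n) := by
  rw [fs_Ks, coeff_mul_split _ _ _ ?_, sums_rel hn m hm]
  rw [← hn]
  exact (OneS_mul (OneS_pow _) (OneS_pow _)).1

lemma rs_eq (m : ℕ) (hm : m < p) : rs (A p) n m = coeff m ((1 + C (-1) * X ^ 3 : (A p)⟦X⟧) ^ n)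
    + ∑ i ∈ Finset.range m, coeff (i + 1) ((ai (A p)) ^ p) *
      coeff (m - (i + 1)) ((1 + C (-1) * X ^ 3 : (A p)⟦X⟧) ^ n) := by
  rw [rs, mul_comm, coeff_mul_split _ _ _ ?_, ← hn]
  rw [← hn, ai]
  exact (OneS_inv_pow _).1

lemma pi_rs (m : ℕ) (hm : m < p) : pi p (rs (A p) n m) = pi p (coeff m (fs (A p) n)) := by
  rw [rs_eq hn m hm, coeff_fs hn m hm, map_add, map_add, map_mul, pi_sum_zero hn m hm, mul_zero,
    pi_coeff_Ks hn m hm]

lemma fs_rs_succ (hn3 : 3 ∣ n) (hn0 : 0 < n) : coeff (n + 1) (fs (A p) n) = -2 * rs (A p) n (n + 1) := by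
  rw [rs_eq hn _ (by omega), coeff_fs hn _ (by omega), coeff_Ks, coeff_cube, if_neg (by omega),
    if_neg (by omega)]
  ring

lemma pi_rs_succ (hn3 : 3 ∣ n) (hn0 : 0 < n) : pi p (rs (A p) n (n + 1)) = 0 := by
  rw [rs_eq hn _ (by omega), map_add, pi_sum_zero hn _ (by omega), coeff_cube, if_neg (by omega)]
  simp

lemma fact_big : (((3 * n + 1).factorial : ℕ) : A p) = p * ((-1) ^ n * ((n.factorial : ℕ) : A p) ^ 3) := by
  have h1 : ((3 * n + 1).factorial : ℕ) = p * ((p - 1).factorial * ((p + 1).ascFactorial n)) := by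
    have h2 := Nat.factorial_mul_ascFactorial p n
    have h3 : p.factorial = p * (p - 1).factorial := (Nat.mul_factorial_pred hp.out.ne_zero).symm
    rw [show 3 * n + 1 = p + n by omega, ← h2, h3, mul_assoc]
  rw [h1, Nat.cast_mul, Nat.cast_mul, ← eps_pi, ← eps_pi]
  congr 1
  have h4 : pi p (((p - 1).factorial : ℕ) : A p) = (-1) ^ n * ((n.factorial : ℕ) : ZMod p) ^ 2 := by
    rw [factorial_reflect n (by omega), show p - 1 - n = n by omega]
    rw [map_mul, map_mul, map_mul, map_natCast, map_pow, map_neg, map_one, pi_ex]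
    ring
  have h5 : (((p + 1).ascFactorial n : ℕ) : ZMod p) = ((n.factorial : ℕ) : ZMod p) := by
    rw [Nat.ascFactorial_eq_prod_range, ← Nat.one_ascFactorial n, Nat.ascFactorial_eq_prod_range]
    push_cast
    apply Finset.prod_congr rfl
    intro i _
    simp
  rw [map_mul, h4, map_natCast, h5, map_mul, map_pow, map_pow, map_neg, map_one, map_natCast]
  ring

theorem rs_main (hn3 : 3 ∣ n) (hn0 : 0 < n) :
    rs (A p) n n * (((p : A p) + 1) * rs (A p) n (n + 1) - p * rs (A p) n n) = (-3) ^ n * p := by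
  have hpA : 2 * (n : A p) + 1 = p := by
    have := congrArg (fun k : ℕ => (k : A p)) hn
    push_cast at this; exact this.symm
  have h1 := rel3 (R := A p) n
  rw [fs_rs_succ hn hn3 hn0] at h1
  have h2 := pi_rs hn n (by omega)
  have e1 : (p : A p) * coeff n (fs (A p) n) = p * rs (A p) n n := by
    rw [← eps_pi, ← eps_pi, h2]
  set r := rs (A p) n n
  set r' := rs (A p) n (n + 1)
  set f := coeff n (fs (A p) n)
  set c := coeff n (hs (A p) n)
  have e2 : ((p : A p) + 1) * r' - p * r = c := by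
    rw [hpA] at h1
    linear_combination (-1 : A p) * h1 + e1 - r' * hpA
  rw [e2]
  have hc0 : pi p c = 0 := by
    rw [← e2, map_sub, map_mul, map_mul, map_natCast, pi_rs_succ hn hn3 hn0]
    simp
  obtain ⟨y, hy⟩ := exists_eps hc0
  have e3 : r * c = f * c := by
    rw [hy, mul_comm, mul_comm f]
    exact eps_mul_congr _ _ _ h2
  rw [e3]
  have E1 := eval1 (R := A p) n
  have E2 := eval2 (R := A p) n
  have E3 := prod_three (R := A p) n
  rw [fact_big hn] at E3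
  have h3n : (3 : ZMod p) ≠ 0 := by
    have := nat_ne_zero (p := p) (k := 3) (by omega) (by omega)
    exact_mod_cast this
  have hne : pi p ((3 : A p) ^ n * ((n.factorial : ℕ) : A p) ^ 3) ≠ 0 := by
    rw [map_mul, map_pow, map_pow, map_ofNat]
    exact mul_ne_zero (pow_ne_zero _ h3n) (pow_ne_zero _ (pi_factorial_ne_zero (by omega)))
  apply cancel hne
  have s9 : ((-3 : A p)) ^ n * (-3) ^ n * (-1) ^ n = 3 ^ n * (-3) ^ n := by
    rw [← mul_pow, ← mul_pow, ← mul_pow]; norm_num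
  set Q1 := ∏ j ∈ Finset.range n, (3 * (j : A p) + 2)
  set Q2 := ∏ j ∈ Finset.range n, (3 * (j : A p) + 4)
  set N := ((n.factorial : ℕ) : A p)
  -- N f = (-3)^n Q1 , N c = (-3)^n Q2, Q1 Q2 3^n N = p ((-1)^n N^3)
  linear_combination (3 ^ n * N * (N * c)) * E1 + (3 ^ n * N * ((-3) ^ n * Q1)) * E2 +
    ((-3) ^ n * (-3) ^ n) * E3 + (p * N ^ 3) * s9

end

theorem UU'_main {ν : ℕ} (hν : p = 6 * ν + 1) (w : A p) (hw : w ^ 2 - w + 1 = 0) :
    (U (3 * ν) w) ^ 2 + 2 * (2 * w - 1) * U (3 * ν) w * U' (3 * ν) w = p := by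
  have hpos := nu_pos hν
  obtain ⟨m, hm⟩ : ∃ m, 3 * ν = m + 1 := ⟨3 * ν - 1, by omega⟩
  have h1 := UU'_rs m w hw
  have h2 := rs_main (p := p) (n := 3 * ν) (by omega) ⟨ν, rfl⟩ (by omega)
  rw [hm] at h2 ⊢
  have hpA : 2 * (m : A p) + 3 = p := by
    have : 2 * m + 3 = p := by omega
    have := congrArg (fun k : ℕ => (k : A p)) this
    push_cast at this; exact this
  have hpA2 : 2 * (m : A p) + 4 = p + 1 := by linear_combination hpA
  rw [hpA, hpA2, h2] at h1
  have h3n := three_ne hν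
  have hne : pi p ((9 : A p) ^ (m + 1)) ≠ 0 := by
    rw [map_pow, map_ofNat]
    apply pow_ne_zero
    have : (9 : ZMod p) = 3 * 3 := by norm_num
    rw [this]; exact mul_ne_zero h3n h3n
  apply cancel hne
  rw [h1, ← mul_assoc, ← mul_pow]
  norm_num

end MP5d
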