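import Pool.Agent.Work.MP_5d4920_nt.Sums

/-! Part (b). -/

namespace MP5d

open PowerSeries

section general

variable {R : Type*} [CommRing R]

lemma gu_cancel (c : R) (n m : ℕ) : ((((gu c)⁻¹ : R⟦X⟧ˣ) : R⟦X⟧)) ^ m =
    (1 - C c * X) ^ n * ((((gu c)⁻¹ : R⟦X⟧ˣ) : R⟦X⟧)) ^ (n + m) := by
  rw [pow_add _ n m, ← mul_assoc, ← mul_pow, ← gu_val, Units.mul_inv, one_pow, one_mul]

lemma LL_cube (n : ℕ) (w : R) (hw : w ^ 2 - w + 1 = 0) :
    LL w n n (n + 1) = coeff n ((1 + C (3 * (2 * w - 1)) * X ^ 3) ^ n *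
      (((gu (2 * w - 1))⁻¹ : R⟦X⟧ˣ) : R⟦X⟧) ^ (2 * n + 1)) := by
  have h0 : ((n : ℕ) : ℤ) - 1 - (n : ℕ) + (n + 1 : ℕ) = ((n : ℕ) : ℤ) := by
    push_cast; ring
  rw [LL, h0, zpow_natCast, Units.val_pow_eq_pow_val, gu_val]
  rw [gu_cancel (2 * w - 1) n (n + 1), ← e_prod w hw, mul_pow, mul_pow,
    show n + (n + 1) = 2 * n + 1 by ring]
  congr 1
  ring

lemma LL_cube_p (n p : ℕ) (hp : p = 2 * n + 1) (w : R) (hw : w ^ 2 - w + 1 = 0) :
    LL w n (n + p) (n + 1) = coeff n ((1 + C (3 * (2 * w - 1)) * X ^ 3) ^ n *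
      ((1 + C (w - 2) * X) ^ p * (((gu (2 * w - 1))⁻¹ : R⟦X⟧ˣ) : R⟦X⟧) ^ p *
        (((gu (-(1 + w)))⁻¹ : R⟦X⟧ˣ) : R⟦X⟧) ^ p)) := by
  have h0 : ((n : ℕ) : ℤ) - 1 - (n + p : ℕ) + (n + 1 : ℕ) = ((n : ℕ) : ℤ) - (p : ℕ) := by
    push_cast; ring
  rw [LL, h0, zpow_sub, zpow_natCast, zpow_natCast, ← inv_pow, Units.val_mul,
    Units.val_pow_eq_pow_val, Units.val_pow_eq_pow_val, gu_val]
  rw [gu_cancel (2 * w - 1) n (n + 1), ← e_prod w hw, mul_pow, mul_pow,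
    show n + (n + 1) = p by omega]
  congr 1
  ring

end general

variable {p : ℕ} [hp : Fact p.Prime]

/-- power series `1 + p (...)` up to degree `p - 1` -/
def OneS (φ : (A p)⟦X⟧) : Prop := coeff 0 φ = 1 ∧ ∀ j, 0 < j → j < p → ∃ x, coeff j φ = eps x

lemma coeff_mul_OneS {φ ψ : (A p)⟦X⟧} (h1 : OneS φ) (h2 : OneS ψ) (m : ℕ) (hm : 0 < m)
    (hmp : m < p) : coeff m (φ * ψ) = coeff m φ + coeff m ψ := by
  rw [coeff_mul, Finset.Nat.sum_antidiagonal_eq_sum_range_succ_mk, Finset.sum_range_succ]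
  obtain ⟨k, rfl⟩ : ∃ k, m = k + 1 := ⟨m - 1, by omega⟩
  rw [Finset.sum_range_succ', Finset.sum_eq_zero]
  · simp only [Nat.sub_zero, Nat.sub_self]
    rw [h1.1, h2.1]; ring
  · intro i hi
    have hi' := Finset.mem_range.mp hi
    obtain ⟨x, hx⟩ := h1.2 (i + 1) (by omega) (by omega)
    obtain ⟨y, hy⟩ := h2.2 (k + 1 - (i + 1)) (by omega) (by omega)
    simp only
    rw [hx, hy, eps_mul_eps]

lemma OneS_mul {φ ψ : (A p)⟦X⟧} (h1 : OneS φ) (h2 : OneS ψ) : OneS (φ * ψ) := by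
  refine ⟨?_, ?_⟩
  · have e1 := h1.1
    have e2 := h2.1
    rw [coeff_zero_eq_constantCoeff_apply] at e1 e2 ⊢
    rw [map_mul, e1, e2, one_mul]
  · intro j h0 hj
    obtain ⟨x, hx⟩ := h1.2 j h0 hj
    obtain ⟨y, hy⟩ := h2.2 j h0 hj
    exact ⟨x + y, by rw [coeff_mul_OneS h1 h2 j h0 hj, hx, hy, map_add]⟩

lemma coeff_pow_p (c : A p) (j : ℕ) (h0 : 0 < j) (hj : j < p) :
    coeff j ((1 + C c * X : (A p)⟦X⟧) ^ p) = eps ((-1) ^ (j - 1) * (j : ZMod p)⁻¹ * pi p c ^ j) := by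
  rw [coeff_gu_pow, choose_p j h0 hj, eps_mul, map_pow]
  congr 1; ring

lemma coeff_inv_pow_p (c : A p) (j : ℕ) (h0 : 0 < j) (hj : j < p) :
    coeff j ((((gu c)⁻¹ : (A p)⟦X⟧ˣ) : (A p)⟦X⟧) ^ p) = eps ((j : ZMod p)⁻¹ * pi p c ^ j) := by
  have h := coeff_gu_inv_pow c (p - 1) j
  rw [Nat.sub_add_cancel hp.out.one_le] at h
  rw [h, Nat.choose_symm_add, choose_p_add j h0 hj, eps_mul, map_pow]
  congr 1; ring

lemma OneS_pow (c : A p) : OneS ((1 + C c * X : (A p)⟦X⟧) ^ p) := by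
  refine ⟨?_, fun j h0 hj => ⟨_, coeff_pow_p c j h0 hj⟩⟩
  rw [coeff_gu_pow]; simp

lemma OneS_inv_pow (c : A p) : OneS ((((gu c)⁻¹ : (A p)⟦X⟧ˣ) : (A p)⟦X⟧) ^ p) := by
  refine ⟨?_, fun j h0 hj => ⟨_, coeff_inv_pow_p c j h0 hj⟩⟩
  have h := coeff_gu_inv_pow c (p - 1) 0
  rw [Nat.sub_add_cancel hp.out.one_le] at h
  rw [h]; simp

lemma coeff_Phi (w : A p) (hw : w ^ 2 - w + 1 = 0) (i : ℕ) (hi : 3 * i < p) :
    coeff (3 * i) ((1 + C (w - 2) * X) ^ p * (((gu (2 * w - 1))⁻¹ : (A p)⟦X⟧ˣ) : (A p)⟦X⟧) ^ p *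
        (((gu (-(1 + w)))⁻¹ : (A p)⟦X⟧ˣ) : (A p)⟦X⟧) ^ p) =
    coeff (3 * i) ((((gu (2 * w - 1))⁻¹ : (A p)⟦X⟧ˣ) : (A p)⟦X⟧) ^ p) := by
  have O1 := OneS_pow (w - 2)
  have O2 := OneS_inv_pow (2 * w - 1)
  have O3 := OneS_inv_pow (-(1 + w))
  rcases Nat.eq_zero_or_pos i with h | h
  · subst h
    rw [mul_zero, (OneS_mul (OneS_mul O1 O2) O3).1, O2.1]
  · rw [coeff_mul_OneS (OneS_mul O1 O2) O3 _ (by omega) hi,
      coeff_mul_OneS O1 O2 _ (by omega) hi, coeff_pow_p _ _ (by omega) hi,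
      coeff_inv_pow_p _ _ (by omega) hi, coeff_inv_pow_p _ _ (by omega) hi]
    have key : (-1) ^ (3 * i - 1) * ((3 * i : ℕ) : ZMod p)⁻¹ * pi p (w - 2) ^ (3 * i) +
        ((3 * i : ℕ) : ZMod p)⁻¹ * pi p (-(1 + w)) ^ (3 * i) = 0 := by
      have h3 : pi p (w - 2) ^ 3 = pi p (1 + w) ^ 3 := by
        rw [← map_pow, ← map_pow]
        congr 1
        linear_combination -9 * hw
      have hF : pi p (w - 2) ^ (3 * i) = pi p (1 + w) ^ (3 * i) := by
        rw [pow_mul, pow_mul, h3]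
      obtain ⟨m, hm⟩ : ∃ m, 3 * i = m + 1 := ⟨3 * i - 1, by omega⟩
      rw [hF, map_neg, hm, Nat.add_sub_cancel, neg_pow (pi p (1 + w)) (m + 1), pow_succ (-1 : ZMod p)]
      ring
    rw [add_right_comm, ← map_add, key, map_zero, zero_add]

lemma choose_add_p (n : ℕ) (hn : n < p) (m : ℕ) (hm : m ≤ n) :
    (((n + p).choose m : ℕ) : A p) = ((n.choose m : ℕ) : A p) * ex (H p n - H p (n - m)) := by
  induction m with
  | zero => simp [ex_zero]
  | succ m ih =>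
    have ih' := ih (by omega)
    have c1 := Nat.choose_succ_right_eq (n + p) m
    have c2 := Nat.choose_succ_right_eq n m
    have e1 : n + p - m = (n - m) + p := by omega
    rw [e1] at c1
    have c1' := congrArg (fun k : ℕ => (k : A p)) c1
    have c2' := congrArg (fun k : ℕ => (k : A p)) c2
    push_cast at c1' c2'
    have hm1 := pi_nat_ne_zero (p := p) (k := m + 1) (by omega) (by omega)
    push_cast at hm1
    apply cancel hm1
    obtain ⟨d, hd⟩ : ∃ d, n - m = d + 1 := ⟨n - m - 1, by omega⟩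
    have hd2 : n - (m + 1) = d := by omega
    have hdF := nat_ne_zero (p := p) (k := d + 1) (by omega) (by omega)
    have hsub : ((n - m : ℕ) : A p) + (p : A p) = ((n - m : ℕ) : A p) * ex (((d : ZMod p) + 1)⁻¹) := by
      rw [hd, ex, mul_add, mul_one, mul_eps, map_natCast]
      push_cast at hdF ⊢
      rw [mul_inv_cancel₀ hdF, eps_one]
    have c3 : ((n : ℕ) - m : A p) = ((n - m : ℕ) : A p) := by
      rw [Nat.cast_sub (by omega)]
    rw [hd2]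
    rw [hd] at ih'
    have hH : H p n - H p d = H p n - H p (d + 1) + ((d : ZMod p) + 1)⁻¹ := by
      rw [H_succ]; ring
    rw [hH, ex_add]
    linear_combination c1' + ((n - m : ℕ) + (p : A p)) * ih' +
      ((n.choose m : ℕ) : A p) * ex (H p n - H p (d + 1)) * hsub -
      ex (H p n - H p (d + 1)) * ex (((d : ZMod p) + 1)⁻¹) * c2'

lemma MM_p (n : ℕ) (hn : n < p) (w : A p) : MM w n (n + p) (n + 1) =
    3 ^ n * (-1) ^ n * (ex (H p n) * ∑ k ∈ Finset.range (n + 1),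
      (ex (-H p k) * ((n.choose k : ℕ) : A p) * (((n + k).choose k : ℕ) : A p)) * (-w) ^ k) := by
  rw [MM, mul_assoc]
  congr 1
  rw [coeff_mul, Finset.Nat.sum_antidiagonal_eq_sum_range_succ_mk, ← Finset.sum_range_reflect,
    Finset.mul_sum, Finset.mul_sum]
  apply Finset.sum_congr rfl
  intro k hk
  have hk' : k ≤ n := by simpa [Nat.lt_succ_iff] using hk
  have h1 : n + 1 - 1 - k = n - k := by omega
  have h2 : n - (n - k) = k := by omega
  simp only [h1, h2]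
  rw [coeff_gu_pow, coeff_gu_inv_pow, choose_add_p n hn (n - k) (by omega), h2,
    Nat.choose_symm hk', Nat.choose_symm_add, sub_eq_add_neg, ex_add]
  have h3 : (-1 : A p) ^ (n - k) = (-1) ^ n * (-1) ^ k := by
    have : (-1 : A p) ^ k * (-1) ^ k = 1 := by rw [← mul_pow]; simp
    calc (-1 : A p) ^ (n - k) = (-1 : A p) ^ (n - k) * ((-1 : A p) ^ k * (-1) ^ k) := by rw [this, mul_one]
      _ = ((-1 : A p) ^ (n - k) * (-1) ^ k) * (-1) ^ k := by ring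
      _ = (-1) ^ n * (-1) ^ k := by rw [← pow_add, Nat.sub_add_cancel hk']
  rw [h3, neg_pow w k]
  ring

theorem G_eq {ν : ℕ} (hν : p = 6 * ν + 1) (w : A p) (hw : w ^ 2 - w + 1 = 0) :
    ex (H p (3 * ν)) * ∑ k ∈ Finset.range (3 * ν + 1),
      (ex (-H p k) * (((3 * ν).choose k : ℕ) : A p) * (((3 * ν + k).choose k : ℕ) : A p)) * (-w) ^ k =
    U (3 * ν) w := by
  have h1 : LL w (3 * ν) (3 * ν + p) (3 * ν + 1) = LL w (3 * ν) (3 * ν) (3 * ν + 1) := by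
    rw [LL_cube_p (3 * ν) p (by omega) w hw, LL_cube (3 * ν) w hw, coeff_cube_pow, coeff_cube_pow]
    apply Finset.sum_congr rfl
    intro j _
    congr 1
    split_ifs with hj
    · have e : 3 * ν - 3 * j = 3 * (ν - j) := by omega
      rw [e, coeff_Phi w hw (ν - j) (by omega), show 2 * (3 * ν) + 1 = p by omega]
    · rfl
  rw [LL_eq_MM, LL_eq_MM, MM_eq_U, MM_p (3 * ν) (by omega)] at h1
  have hne : pi p ((3 : A p) ^ (3 * ν) * (-1) ^ (3 * ν)) ≠ 0 := by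
    rw [map_mul, map_pow, map_pow, map_ofNat, map_neg, map_one]
    exact mul_ne_zero (pow_ne_zero _ (three_ne hν)) (pow_ne_zero _ (by simp))
  exact cancel hne h1

theorem main_b {ν : ℕ} (hν : p = 6 * ν + 1) (hp4 : p % 4 = 1) (w : A p) (hw : w ^ 2 - w + 1 = 0) :
    T (3 * ν) (fun k => (ex (-H p k) : A p)) = 0 := by
  have hs : (-1 : A p) ^ (3 * ν) = 1 := by
    have : Even (3 * ν) := by rw [Nat.even_iff]; omega
    exact this.neg_one_pow
  have g1 := G_eq hν w hw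
  have g2 := G_eq hν (1 - w) (by linear_combination hw)
  have hT := T_mul w hw (3 * ν) (fun k => (ex (-H p k) : A p))
  have hsym := U_symm (3 * ν) w
  rw [hs, one_mul, ← g1, ← g2] at hsym
  have hne : pi p (ex (H p (3 * ν)) * (2 * w - 1)) ≠ 0 := by
    rw [map_mul, pi_ex, one_mul]; exact theta_unit hν w hw
  apply cancel hne
  rw [mul_zero]
  linear_combination (-ex (H p (3 * ν))) * hT + hsym

end MP5d
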