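import Pool.Agent.Work.MP_5d4920_nt.Norm

/-! Legendre symbols of `a` and `b` for `p = a^2 + 3 b^2`, `p ≡ 3 mod 4`. -/

namespace MP5d

open NumberTheorySymbols ZMod

variable {p : ℕ} [hp : Fact p.Prime]

lemma recip (hp4 : p % 4 = 3) (n : ℕ) (hn : Odd n) :
    jacobiSym (n : ℤ) p = χ₄ n * jacobiSym (p : ℤ) n := by
  have hpo : Odd p := Nat.odd_iff.mpr (by omega)
  rw [jacobiSym.quadratic_reciprocity' hn hpo, qrSign, χ₄_nat_three_mod_four hp4,
    jacobiSym.at_neg_one hn]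

lemma jac_neg_one (hp4 : p % 4 = 3) : jacobiSym (-1) p = -1 := by
  have hpo : Odd p := Nat.odd_iff.mpr (by omega)
  rw [jacobiSym.at_neg_one hpo, χ₄_nat_three_mod_four hp4]

lemma coprime_of (a b : ℤ) (h : a ^ 2 + 3 * b ^ 2 = p) : Int.gcd a b = 1 := by
  have hpp : Prime (p : ℤ) := Nat.prime_iff_prime_int.mp hp.out
  have h1 : ((Int.gcd a b : ℕ) : ℤ) ∣ a := Int.gcd_dvd_left ..
  have h2 : ((Int.gcd a b : ℕ) : ℤ) ∣ b := Int.gcd_dvd_right ..
  have h3 : (((Int.gcd a b) ^ 2 : ℕ) : ℤ) ∣ ((p : ℕ) : ℤ) := by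
    rw [← h]
    push_cast
    exact dvd_add (pow_dvd_pow_of_dvd h1 2) (Dvd.dvd.mul_left (pow_dvd_pow_of_dvd h2 2) 3)
  rw [Int.natCast_dvd_natCast] at h3
  by_contra hne
  have h4 : ¬ IsUnit (Int.gcd a b) := by rwa [Nat.isUnit_iff]
  have : p = (Int.gcd a b) * (Int.gcd a b) * (p / (Int.gcd a b) ^ 2) := by
    rw [← sq]; exact (Nat.mul_div_cancel' h3).symm
  rw [mul_assoc] at this
  rcases (Nat.prime_iff.mp hp.out).irreducible.isUnit_or_isUnit this with h5 | h5
  · exact h4 h5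
  · exact h4 (isUnit_of_mul_isUnit_left h5)

lemma leg_b (hp4 : p % 4 = 3) (a b y : ℤ) (h : a ^ 2 + 3 * b ^ 2 = p) (hy : y ^ 2 = b ^ 2)
    (hy4 : y % 4 = 1) : jacobiSym b p * b = y := by
  have hcop := coprime_of a b h
  have hyb : y = b ∨ y = -b := sq_eq_sq_iff_eq_or_eq_neg.mp hy
  have hbodd : b % 2 = 1 := by omega
  -- work with |b|
  obtain ⟨n, hn⟩ : ∃ n : ℕ, b.natAbs = n := ⟨_, rfl⟩
  have hno : Odd n := by rw [Nat.odd_iff]; omega
  have e1 : jacobiSym (p : ℤ) n = 1 := by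
    have : jacobiSym (p : ℤ) n = jacobiSym (a ^ 2) n := by
      apply jacobiSym.mod_left'
      rw [← h]
      have : ((n : ℕ) : ℤ) ∣ b := by rw [← hn]; exact Int.natAbs_dvd.mpr dvd_rfl
      obtain ⟨c, hc⟩ := this
      rw [Int.emod_emod_of_dvd _ dvd_rfl |>.symm]
      rw [show a ^ 2 + 3 * b ^ 2 = a ^ 2 + n * (3 * c * b) by rw [sq b]; nth_rewrite 1 [hc]; ring]
      simp
    rw [this]
    apply jacobiSym.sq_one'
    rw [← hcop, Int.gcd_eq_natAbs, Int.gcd_eq_natAbs, Int.natAbs_natCast, hn]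
  have e2 := recip hp4 n hno
  rw [e1, mul_one, χ₄_nat_eq_if_mod_four] at e2
  have e3 := jac_neg_one hp4
  have hno' := Nat.odd_iff.mp hno
  rcases Int.natAbs_eq b with hb | hb
  · rw [hn] at hb
    have : jacobiSym b p = jacobiSym (n : ℤ) p := by rw [hb]
    rw [this, e2]
    rw [if_neg (by omega)]
    split_ifs <;> omega
  · rw [hn] at hb
    have : jacobiSym b p = - jacobiSym (n : ℤ) p := by
      rw [hb, ← neg_one_mul, jacobiSym.mul_left, e3]; ring
    rw [this, e2]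
    rw [if_neg (by omega)]
    split_ifs <;> omega

lemma leg_a (hp4 : p % 4 = 3) (a b : ℤ) (h : a ^ 2 + 3 * b ^ 2 = p) (ha : a % 3 = 2)
    (hb : b % 2 = 1) : jacobiSym (-a) p = (-1) ^ ((p - 3) / 4) := by
  have hcop := coprime_of a b h
  have hpo : Odd p := Nat.odd_iff.mpr (by omega)
  have ha2 : a % 2 = 0 := by
    by_contra hcon
    have h1 : a % 2 = 1 := by omega
    obtain ⟨c, hc⟩ : ∃ c, a = 2 * c + 1 := ⟨a / 2, by omega⟩
    obtain ⟨d, hd⟩ : ∃ d, b = 2 * d + 1 := ⟨b / 2, by omega⟩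
    have : (p : ℤ) = 2 * (2 * c ^ 2 + 2 * c + 6 * d ^ 2 + 6 * d + 2) := by
      rw [← h, hc, hd]; ring
    omega
  have hane : a ≠ 0 := by rintro rfl; simp at ha
  obtain ⟨s, m, hm, hsm⟩ := Nat.exists_eq_two_pow_mul_odd (n := a.natAbs) (by omega)
  -- the odd part
  have hmdvd : ((m : ℕ) : ℤ) ∣ a := by
    rw [← Int.dvd_natAbs, hsm]; push_cast; exact Dvd.intro_left _ rfl
  have hm3 : Int.gcd (3 : ℤ) m = 1 := by
    have : Int.gcd (3 : ℤ) m = Nat.gcd 3 m := by rw [Int.gcd_eq_natAbs]; rfl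
    rw [this]
    refine (Nat.Prime.coprime_iff_not_dvd Nat.prime_three).mpr ?_
    intro h3
    have : ((3 : ℕ) : ℤ) ∣ a := dvd_trans (Int.natCast_dvd_natCast.mpr h3) hmdvd
    push_cast at this
    omega
  have hbm : b.gcd m = 1 := by
    have h1 : ((b.gcd m : ℕ) : ℤ) ∣ a := dvd_trans (Int.gcd_dvd_right ..) hmdvd
    have h2 : ((b.gcd m : ℕ) : ℤ) ∣ b := Int.gcd_dvd_left ..
    have h3 : b.gcd m ∣ Int.gcd a b := by
      exact Int.dvd_gcd h1 h2
    rw [hcop] at h3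
    exact Nat.dvd_one.mp h3
  have e1 : jacobiSym (p : ℤ) m = jacobiSym 3 m := by
    have : jacobiSym (p : ℤ) m = jacobiSym (3 * b ^ 2) m := by
      apply jacobiSym.mod_left'
      rw [← h]
      obtain ⟨c, hc⟩ := hmdvd
      rw [show a ^ 2 + 3 * b ^ 2 = 3 * b ^ 2 + m * (c * a) by rw [sq a]; nth_rewrite 1 [hc]; ring]
      simp
    rw [this, jacobiSym.mul_left, jacobiSym.sq_one' hbm, mul_one]
  have e2 : jacobiSym (m : ℤ) p = jacobiSym (m : ℤ) 3 := by
    rw [recip hp4 m hm, e1]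
    have h3 := jacobiSym.quadratic_reciprocity' (a := 3) (b := m) (by decide) hm
    have h4 : qrSign m 3 = χ₄ m := by
      rw [qrSign]
      rcases Nat.odd_mod_four_iff.mp (Nat.odd_iff.mp hm) with h5 | h5
      · rw [χ₄_nat_one_mod_four h5]; exact jacobiSym.one_left 3
      · rw [χ₄_nat_three_mod_four h5, jacobiSym.at_neg_one (by decide)]; rfl
    have h3' : jacobiSym 3 m = χ₄ m * jacobiSym (m : ℤ) 3 := by
      rw [← h4]; exact_mod_cast h3
    rw [h3']
    rcases Nat.odd_mod_four_iff.mp (Nat.odd_iff.mp hm) with h5 | h5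
    · rw [χ₄_nat_one_mod_four h5]; ring
    · rw [χ₄_nat_three_mod_four h5]; ring
  have e3 : (jacobiSym (m : ℤ) 3) ^ 2 = 1 := by
    apply jacobiSym.sq_one
    rw [Int.gcd_comm]
    exact_mod_cast hm3
  have j23 : jacobiSym 2 3 = -1 := by
    rw [jacobiSym.at_two (by decide)]; rfl
  have jn3 : jacobiSym (-1) 3 = -1 := by
    rw [jacobiSym.at_neg_one (by decide)]; rfl
  have ja3 : jacobiSym (-a) 3 = 1 := by
    have : jacobiSym (-a) 3 = jacobiSym 1 3 := by
      apply jacobiSym.mod_left'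
      push_cast; omega
    rw [this, jacobiSym.one_left]
  have jnp := jac_neg_one hp4
  -- signs
  have key : jacobiSym (-a) p = (-jacobiSym 2 p) ^ s := by
    have f1 : ∀ q : ℕ, jacobiSym (a.natAbs : ℤ) q = jacobiSym 2 q ^ s * jacobiSym (m : ℤ) q := by
      intro q
      rw [hsm]; push_cast
      rw [jacobiSym.mul_left, jacobiSym.pow_left]
    have f2 := f1 p
    have f3 := f1 3
    rw [e2] at f2
    rw [j23] at f3
    rcases Int.natAbs_eq a with hb1 | hb1
    · -- a = |a|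
      have g1 : jacobiSym (-a) p = -jacobiSym (a.natAbs : ℤ) p := by
        rw [← hb1, ← neg_one_mul a, jacobiSym.mul_left, jnp]; ring
      have g2 : jacobiSym (-a) 3 = -jacobiSym (a.natAbs : ℤ) 3 := by
        rw [← hb1, ← neg_one_mul a, jacobiSym.mul_left, jn3]; ring
      rw [g2, f3] at ja3
      rw [g1, f2, neg_pow]
      linear_combination (jacobiSym 2 p ^ s * jacobiSym (m : ℤ) 3) * ja3 +
        jacobiSym 2 p ^ s * (-1) ^ s * e3
    · have g1 : jacobiSym (-a) p = jacobiSym (a.natAbs : ℤ) p := by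
        congr 1; omega
      have g2 : jacobiSym (-a) 3 = jacobiSym (a.natAbs : ℤ) 3 := by
        congr 1; omega
      rw [g2, f3] at ja3
      rw [g1, f2, neg_pow]
      linear_combination (-jacobiSym 2 p ^ s * jacobiSym (m : ℤ) 3) * ja3 +
        jacobiSym 2 p ^ s * (-1) ^ s * e3
  rw [key, jacobiSym.at_two hpo, χ₈_nat_eq_if_mod_eight, if_neg (by omega)]
  obtain ⟨d, hd⟩ : ∃ d, b = 2 * d + 1 := ⟨b / 2, by omega⟩
  obtain ⟨e, he⟩ : ∃ e, d * (d + 1) = 2 * e := by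
    rcases Int.even_or_odd' d with ⟨k, hk | hk⟩
    · exact ⟨k * (d + 1), by rw [hk]; ring⟩
    · exact ⟨(k + 1) * d, by rw [hk]; ring⟩
  have hb8 : b ^ 2 = 8 * e + 1 := by rw [hd]; linear_combination 4 * he
  have hs : 1 ≤ s := by
    by_contra hcon
    have : s = 0 := by omega
    rw [this, pow_zero, one_mul] at hsm
    rw [Nat.odd_iff] at hm
    omega
  have hasq : a ^ 2 = (2 : ℤ) ^ s * 2 ^ s * ((m : ℤ) * m) := by
    rw [← Int.natAbs_sq, hsm]; push_cast; ring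
  rcases Nat.lt_or_ge 1 s with h2s | h2s
  · -- s ≥ 2
    obtain ⟨u, hu⟩ : ∃ u, s = u + 2 := ⟨s - 2, by omega⟩
    have : a ^ 2 = 16 * (2 ^ u * 2 ^ u * ((m : ℤ) * m)) := by
      rw [hasq, hu]; ring
    have hp8 : p % 8 = 3 := by
      have h8 : (p : ℤ) = 16 * (2 ^ u * 2 ^ u * ((m : ℤ) * m)) + 3 * (8 * e + 1) := by
        rw [← h, this, hb8]
      omega
    rw [if_neg (by omega)]
    have : Even ((p - 3) / 4) := by rw [Nat.even_iff]; omega
    rw [this.neg_one_pow]; norm_num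
  · have hs1 : s = 1 := by omega
    obtain ⟨k, hk⟩ := hm
    have : a ^ 2 = 8 * (2 * (k : ℤ) ^ 2 + 2 * k) + 4 := by
      rw [hasq, hs1, hk]; push_cast; ring
    have hp8 : p % 8 = 7 := by
      have h8 : (p : ℤ) = 8 * (2 * (k : ℤ) ^ 2 + 2 * k) + 4 + 3 * (8 * e + 1) := by
        rw [← h, this, hb8]
      omega
    rw [if_pos (by omega), hs1]
    have : Odd ((p - 3) / 4) := by rw [Nat.odd_iff]; omega
    rw [this.neg_one_pow]; norm_num

/-- the sign `δ`: `δ * b = σ * y`. -/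
theorem delta_eq {ν : ℕ} (hν : p = 6 * ν + 1) (hp4 : p % 4 = 3) (θ : A p) (a b y : ℤ)
    (h : a ^ 2 + 3 * b ^ 2 = p) (ha : a % 3 = 2) (hy : y ^ 2 = b ^ 2) (hy4 : y % 4 = 1)
    (hθ : (a : ZMod p) + (b : ZMod p) * pi p θ = 0) (δ : A p) (hδ : δ = 1 ∨ δ = -1)
    (hδ2 : pi p δ = pi p θ ^ (3 * ν)) : δ * (b : A p) = (-1) ^ ((p - 3) / 4) * (y : A p) := by
  have h2 := two_ne hν
  have hyb : y = b ∨ y = -b := sq_eq_sq_iff_eq_or_eq_neg.mp hy
  have hbodd : b % 2 = 1 := by omega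
  have lb := leg_b hp4 a b y h hy hy4
  have la := leg_a hp4 a b h ha hbodd
  have pb := legendreSym.eq_pow p b
  have pa := legendreSym.eq_pow p (-a)
  rw [jacobiSym.legendreSym.to_jacobiSym, show p / 2 = 3 * ν by omega] at pb pa
  rw [la] at pa
  -- (-a) = b θ
  have e1 : ((-a : ℤ) : ZMod p) = (b : ZMod p) * pi p θ := by
    push_cast; linear_combination -hθ
  rw [e1, mul_pow, ← hδ2, ← pb] at pa
  -- pa : ((-1)^.. : ℤ) = J(b|p) * pi δ
  have hy0 : y ≠ 0 := by omega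
  have hJb : jacobiSym b p = 1 ∨ jacobiSym b p = -1 := by
    rcases hyb with h5 | h5
    · left
      have : (jacobiSym b p - 1) * b = 0 := by rw [sub_mul, lb, h5]; ring
      rcases mul_eq_zero.mp this with h6 | h6
      · linarith
      · exfalso; omega
    · right
      have : (jacobiSym b p + 1) * b = 0 := by rw [add_mul, lb, h5]; ring
      rcases mul_eq_zero.mp this with h6 | h6
      · linarith
      · exfalso; omega
  have hne : (1 : ZMod p) ≠ -1 := by
    intro h6; apply h2; linear_combination h6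
  have e3 : δ = (((-1) ^ ((p - 3) / 4) * jacobiSym b p : ℤ) : A p) := by
    rcases neg_one_pow_eq_or ℤ ((p - 3) / 4) with h7 | h7 <;> rcases hJb with h8 | h8 <;>
      rcases hδ with h9 | h9 <;> rw [h7, h8, h9] at pa <;> rw [h7, h8, h9] <;> simp at pa ⊢
    all_goals first
      | exact absurd pa hne
      | exact absurd pa.symm hne
      | (exfalso; apply hne; linear_combination pa)
      | (exfalso; apply hne; linear_combination -pa)
  rw [e3, ← lb]
  push_cast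
  have e4 : (jacobiSym b p) * (jacobiSym b p * b) = jacobiSym b p * y := by rw [lb]
  ring

end MP5d
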