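import Pool.Agent.Work.MP_5d4920_nt.Sign

/-! Sums `∑ (k/3) ...` in terms of `U`. -/

namespace MP5d

open NumberTheorySymbols

section general

variable {R : Type*} [CommRing R]

/-- `z U'(z)` -/
def UD (n : ℕ) (z : R) : R :=
  ∑ k ∈ Finset.range (n + 1), (k : R) * ((n.choose k : ℕ) : R) * (((n + k).choose k : ℕ) : R) * (-z) ^ k

open Polynomial in
lemma U_eq_aeval (n : ℕ) (z : R) : U n z = aeval z (shiftedLegendre n) := by
  rw [U, shiftedLegendre, map_sum]
  apply Finset.sum_congr rfl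
  intro k _
  rw [map_mul, map_pow, aeval_X, aeval_C, Nat.choose_symm_add]
  simp only [algebraMap_int_eq, eq_intCast]
  push_cast
  rw [neg_pow]; ring

open Polynomial in
lemma U_symm (n : ℕ) (z : R) : U n (1 - z) = (-1) ^ n * U n z := by
  rw [U_eq_aeval, U_eq_aeval, shiftedLegendre_eval_symm n z, ← mul_assoc, ← mul_pow]
  simp

open Polynomial in
/-- `U'(z)` -/
noncomputable def U' (n : ℕ) (z : R) : R := aeval z (derivative (shiftedLegendre n))

open Polynomial in
lemma U'_symm (n : ℕ) (z : R) : U' n (1 - z) = -(-1) ^ n * U' n z := by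
  have h1 := neg_one_pow_mul_shiftedLegendre_comp_one_sub_X_eq n
  have h2 : derivative (shiftedLegendre n) =
      -(-1) ^ n * (derivative (shiftedLegendre n)).comp (1 - X) := by
    conv_lhs => rw [← h1]
    rw [derivative_mul, derivative_comp]
    have : derivative ((-1 : ℤ[X]) ^ n) = 0 := by
      rcases neg_one_pow_eq_or ℤ[X] n with h | h <;> rw [h] <;> simp
    rw [this]
    simp
  have h3 := congrArg (fun q : ℤ[X] => aeval z q) h2
  simp only [map_mul, map_neg, map_pow, map_one, aeval_comp, map_sub, aeval_X] at h3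
  rw [U', U', h3]
  have : (-1 : R) ^ n * (-1) ^ n = 1 := by rw [← mul_pow]; simp
  linear_combination (-(aeval (1 - z) (derivative (shiftedLegendre n)))) * this

open Polynomial in
lemma UD_eq (n : ℕ) (z : R) : UD n z = z * U' n z := by
  rw [UD, U', shiftedLegendre, derivative_sum, map_sum, Finset.mul_sum]
  apply Finset.sum_congr rfl
  intro k _
  rw [derivative_C_mul_X_pow, map_mul, map_pow, aeval_X, aeval_C, Nat.choose_symm_add]
  simp only [algebraMap_int_eq, eq_intCast]
  push_cast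
  rw [neg_pow]
  cases k with
  | zero => simp
  | succ k => rw [Nat.add_sub_cancel, pow_succ z]; push_cast; ring

lemma chi_eq (w : R) (hw : w ^ 2 - w + 1 = 0) (k : ℕ) :
    ((jacobiSym (k : ℤ) 3 : ℤ) : R) * (-(2 * w - 1)) = (-w) ^ k - (-(1 - w)) ^ k := by
  have h3 : (-w) ^ 3 = 1 := by linear_combination (-(w + 1)) * hw
  have h3' : (-(1 - w)) ^ 3 = 1 := by linear_combination (w - 2) * hw
  induction k using Nat.strong_induction_on with
  | _ k ih =>
    rcases Nat.lt_or_ge k 3 with hk | hk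
    · interval_cases k
      · simp [jacobiSym.zero_left]
      · have : jacobiSym ((1 : ℕ) : ℤ) 3 = 1 := by norm_num
        rw [this]; push_cast; ring
      · have : jacobiSym ((2 : ℕ) : ℤ) 3 = -1 := by
          rw [Nat.cast_ofNat, jacobiSym.at_two (by decide)]; rfl
        rw [this]; push_cast; ring
    · obtain ⟨m, rfl⟩ : ∃ m, k = m + 3 := ⟨k - 3, by omega⟩
      have h1 := ih m (by omega)
      have h2 : jacobiSym ((m + 3 : ℕ) : ℤ) 3 = jacobiSym (m : ℤ) 3 := by
        apply jacobiSym.mod_left'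
        push_cast
        omega
      rw [h2, h1, pow_add, pow_add, h3, h3']
      ring

/-- weighted sums -/
def T (n : ℕ) (c : ℕ → R) : R :=
  ∑ k ∈ Finset.range (n + 1), ((jacobiSym (k : ℤ) 3 : ℤ) : R) *
    (c k * ((n.choose k : ℕ) : R) * (((n + k).choose k : ℕ) : R))

lemma T_mul (w : R) (hw : w ^ 2 - w + 1 = 0) (n : ℕ) (c : ℕ → R) :
    T n c * (-(2 * w - 1)) =
    (∑ k ∈ Finset.range (n + 1), (c k * ((n.choose k : ℕ) : R) * (((n + k).choose k : ℕ) : R)) *
      (-w) ^ k) -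
    (∑ k ∈ Finset.range (n + 1), (c k * ((n.choose k : ℕ) : R) * (((n + k).choose k : ℕ) : R)) *
      (-(1 - w)) ^ k) := by
  rw [T, Finset.sum_mul, ← Finset.sum_sub_distrib]
  apply Finset.sum_congr rfl
  intro k _
  have := chi_eq w hw k
  linear_combination (c k * ((n.choose k : ℕ) : R) * (((n + k).choose k : ℕ) : R)) * this

lemma T1_mul (w : R) (hw : w ^ 2 - w + 1 = 0) (n : ℕ) :
    T n (fun _ => (1 : R)) * (-(2 * w - 1)) = U n w - U n (1 - w) := by
  rw [T_mul w hw]; simp [U]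

lemma T2_mul (w : R) (hw : w ^ 2 - w + 1 = 0) (n : ℕ) :
    T n (fun k => (k : R)) * (-(2 * w - 1)) = UD n w - UD n (1 - w) := by
  rw [T_mul w hw]; simp [UD]

end general

variable {p : ℕ} [hp : Fact p.Prime]

section

variable {ν : ℕ} (hν : p = 6 * ν + 1)

include hν

lemma theta_unit (w : A p) (hw : w ^ 2 - w + 1 = 0) : pi p (2 * w - 1) ≠ 0 := by
  intro h
  have h1 : (2 * w - 1) ^ 2 = -3 := by linear_combination 4 * hw
  have h2 := congrArg (pi p) h1
  rw [map_pow, h] at h2
  have h3 := three_ne hν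
  rw [map_neg, map_ofNat] at h2
  apply h3
  linear_combination h2

lemma Jbar_sq : (J p (3 * ν) (2 * ν)) ^ 2 = 0 := by
  have h := J32 hν
  have hpos := nu_pos hν
  have h1 := congrArg (pi p) h
  rw [map_mul, map_neg, map_natCast, ← eps_one, pi_eps, neg_zero] at h1
  have h2 : (((3 * ν).choose ν : ℕ) : ZMod p) ≠ 0 := by
    rw [Ne, ZMod.natCast_eq_zero_iff]
    intro h3
    have h4 : p ∣ (3 * ν).factorial := by
      rw [← Nat.choose_mul_factorial_mul_factorial (show ν ≤ 3 * ν by omega), mul_assoc]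
      exact Dvd.dvd.mul_right h3 _
    rw [hp.out.dvd_factorial] at h4
    omega
  obtain ⟨x, hx⟩ := exists_eps ((mul_eq_zero.mp h1).resolve_left h2)
  rw [hx, eps_sq]

lemma pi_Jbar : pi p (J p (3 * ν) (2 * ν)) = 0 := by
  have := congrArg (pi p) (Jbar_sq hν)
  rw [map_pow, map_zero] at this
  exact pow_eq_zero_iff (two_ne_zero) |>.mp this

lemma pi_J_ne : pi p (J p (3 * ν) (4 * ν)) ≠ 0 := by
  have hpos := nu_pos hν
  rw [J34 hν, map_mul, map_neg, pi_ex, mul_one, neg_ne_zero, map_natCast]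
  rw [Ne, ZMod.natCast_eq_zero_iff]
  intro h3
  have h4 : p ∣ (3 * ν).factorial := by
    rw [← Nat.choose_mul_factorial_mul_factorial (show ν ≤ 3 * ν by omega), mul_assoc]
    exact Dvd.dvd.mul_right h3 _
  rw [hp.out.dvd_factorial] at h4
  omega

/-- the structure behind (a) -/
theorem main_a (hp4 : p % 4 = 3) (w : A p) (hw : w ^ 2 - w + 1 = 0) (x y : ℤ)
    (hxy : x ^ 2 + 3 * y ^ 2 = p) (hy4 : y % 4 = 1) :
    3 * (y : A p) * T (3 * ν) (fun _ => (1 : A p)) =
      (-1) ^ ((p - 3) / 4) * (12 * (y : A p) ^ 2 - p) ∧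
    ((U (3 * ν) w) ^ 2 + 2 * (2 * w - 1) * U (3 * ν) w * U' (3 * ν) w = p →
      T (3 * ν) (fun k => (k : A p)) = -(-1) ^ ((p - 3) / 4) * (y : A p)) := by
  have hpos := nu_pos hν
  have hνodd : Odd ν := by
    rw [Nat.odd_iff]; omega
  have hs : (-1 : A p) ^ ν = -1 := hνodd.neg_one_pow
  have hs3 : (-1 : A p) ^ (3 * ν) = -1 := by rw [pow_mul]; norm_num [hs]
  obtain ⟨a, b, hab, ha3, hJ, hJb⟩ := exists_AB hν w hw
  have hyb := unique_sq (p := p) x y a b hxy hab
  obtain ⟨δ, hδ, hδ2, hU⟩ := U_eq_J hν w hw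
  rw [hs] at hU
  have hθ0 : (a : ZMod p) + (b : ZMod p) * pi p (2 * w - 1) = 0 := by
    have := pi_Jbar hν
    rw [hJb, map_add, map_mul, map_intCast, map_intCast] at this
    exact this
  have hd := delta_eq hν hp4 (2 * w - 1) a b y hab ha3 hyb hy4 hθ0 δ hδ hδ2
  have hδδ : δ * δ = 1 := by rcases hδ with h | h <;> rw [h] <;> ring
  have hσσ : (-1 : A p) ^ ((p - 3) / 4) * (-1) ^ ((p - 3) / 4) = 1 := by rw [← mul_pow]; simp
  have hθ := theta_unit hν w hw
  have hθ2 : (2 * w - 1) ^ 2 = -3 := by linear_combination 4 * hw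
  have hJb2 := Jbar_sq hν
  have hpA : ((a : A p) ^ 2 + 3 * (b : A p) ^ 2) = p := by
    have := congrArg (fun z : ℤ => (z : A p)) hab
    push_cast at this; exact this
  have hybA : (y : A p) ^ 2 = (b : A p) ^ 2 := by
    have := congrArg (fun z : ℤ => (z : A p)) hyb
    push_cast at this; exact this
  set σ := (-1 : A p) ^ ((p - 3) / 4) with hσ
  set t := (2 * w - 1 : A p) with ht
  constructor
  · have hT := T1_mul w hw (3 * ν)
    rw [U_symm, hs3, hU, hJ] at hT
    rw [hJb] at hJb2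
    -- T * (-t) = 2 δ (a - b t)
    have e1 : T (3 * ν) (fun _ => (1 : A p)) * 3 = 2 * δ * (a * t + 3 * b) := by
      apply cancel hθ
      linear_combination (-3 : A p) * hT - (2 * δ * a) * hθ2 
    -- 3 b T = δ (12 b^2 - p)
    have e2 : 3 * (b : A p) * T (3 * ν) (fun _ => (1 : A p)) = δ * (12 * b ^ 2 - p) := by
      rw [← hpA]
      linear_combination (b : A p) * e1 + δ * hJb2 - δ * b ^ 2 * hθ2
    have e3 : (b : A p) = δ * σ * y := by linear_combination δ * hd - b * hδδ
    rw [e3] at e2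
    have e4 : (δ * σ * (y : A p)) ^ 2 = y ^ 2 := by
      linear_combination (σ ^ 2 * y ^ 2) * hδδ + (y : A p) ^ 2 * hσσ
    rw [e4] at e2
    linear_combination (δ * σ) * e2 - (3 * y * T (3 * ν) (fun _ => (1 : A p))) * (σ * σ * hδδ + hσσ)
      + σ * (12 * y ^ 2 - p) * hδδ
  · intro hLeg
    have hT := T2_mul w hw (3 * ν)
    rw [UD_eq, UD_eq, U'_symm, hs3] at hT
    have e1 : T (3 * ν) (fun k => (k : A p)) = - U' (3 * ν) w := by
      apply cancel hθ
      linear_combination -hT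
    have hmul := J_mul_J hν
    have e2 : U' (3 * ν) w = δ * b := by
      rw [hU] at hLeg
      have hJne := pi_J_ne hν
      have h2 := two_ne hν
      have hne : pi p (2 * t * J p (3 * ν) (4 * ν)) ≠ 0 := by
        rw [map_mul, map_mul, map_ofNat]
        exact mul_ne_zero (mul_ne_zero h2 hθ) hJne
      apply cancel hne
      rw [← hmul] at hLeg
      have e5 : J p (3 * ν) (2 * ν) - J p (3 * ν) (4 * ν) = 2 * b * t := by rw [hJ, hJb]; ring
      linear_combination δ * hLeg + (δ * J p (3 * ν) (4 * ν)) * e5 -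
        (2 * t * J p (3 * ν) (4 * ν) * U' (3 * ν) w + δ * J p (3 * ν) (4 * ν) ^ 2) * hδδ
    rw [e1, e2, hd]; ring

end

end MP5d
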