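import Mathlib

/-! A translation identity for coefficients of power series. -/

namespace MP5d

open PowerSeries

variable {R : Type*} [CommRing R]

/-- the unit `1 - c X` -/
noncomputable def gu (c : R) : R⟦X⟧ˣ where
  val := 1 - C c * X
  inv := mk (fun n => c ^ n)
  val_inv := by
    ext n
    cases n with
    | zero => simp [sub_mul, mul_assoc]
    | succ n =>
      rw [sub_mul, one_mul, mul_assoc, map_sub, coeff_C_mul, coeff_succ_X_mul]
      simp [pow_succ, mul_comm]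
  inv_val := by
    ext n
    cases n with
    | zero => simp [mul_sub]
    | succ n =>
      simp only [mul_sub, mul_one, map_sub, coeff_mk]
      rw [show (mk fun n => c ^ n) * (C c * X) = C c * ((mk fun n => c ^ n) * X) by ring]
      simp [pow_succ, mul_comm]

lemma gu_val (c : R) : ((gu c : R⟦X⟧ˣ) : R⟦X⟧) = 1 - C c * X := rfl

lemma gu_inv_val (c : R) : (((gu c)⁻¹ : R⟦X⟧ˣ) : R⟦X⟧) = mk (fun n => c ^ n) := rfl

lemma coeff_gu_inv_pow (c : R) (d n : ℕ) :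
    coeff n ((((gu c)⁻¹ : R⟦X⟧ˣ) : R⟦X⟧) ^ (d + 1)) = ((d + n).choose d : R) * c ^ n := by
  have h : (mk (fun n => c ^ n) : R⟦X⟧) = rescale c (mk 1) := by
    rw [rescale_mk]; simp
  rw [gu_inv_val, h, ← map_pow, mk_one_pow_eq_mk_choose_add, coeff_rescale, coeff_mk]
  ring

lemma coeff_gu_pow (c : R) (a k : ℕ) :
    coeff k ((1 + C c * X : R⟦X⟧) ^ a) = (a.choose k : R) * c ^ k := by
  rw [add_comm, add_pow, map_sum]
  have : ∀ m ∈ Finset.range (a + 1),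
      coeff k ((C c * X : R⟦X⟧) ^ m * 1 ^ (a - m) * ((a.choose m : ℕ) : R⟦X⟧))
      = if k = m then (a.choose m : R) * c ^ m else 0 := by
    intro m _
    rw [one_pow, mul_one, mul_pow, ← map_pow, mul_assoc, mul_comm (X ^ m) _, ← mul_assoc]
    rw [show ((a.choose m : ℕ) : R⟦X⟧) = C ((a.choose m : ℕ) : R) by simp, ← map_mul, coeff_C_mul,
      coeff_X_pow]
    split_ifs <;> simp [mul_comm]
  have h2 := Finset.sum_congr (rfl : Finset.range (a + 1) = Finset.range (a + 1)) this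
  rw [h2, Finset.sum_ite_eq]
  split_ifs with h
  · rfl
  · rw [Nat.choose_eq_zero_of_lt (by simpa using h)]; simp

/-- left side -/
noncomputable def LL (w : R) (N a b : ℕ) : R :=
  coeff N ((1 + C (w - 2) * X) ^ a * ((((gu (2 * w - 1))⁻¹ : R⟦X⟧ˣ) : R⟦X⟧)) ^ b *
    (((gu (-(1 + w))) ^ ((N : ℤ) - 1 - a + b) : R⟦X⟧ˣ) : R⟦X⟧))

noncomputable def MM (w : R) (N a b : ℕ) : R :=
  3 ^ N * coeff N ((1 + C (-1) * X) ^ a * ((((gu w)⁻¹ : R⟦X⟧ˣ) : R⟦X⟧)) ^ b)

lemma constantCoeff_zpow (c : R) (z : ℤ) :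
    constantCoeff ((((gu c) ^ z : R⟦X⟧ˣ)) : R⟦X⟧) = 1 := by
  have h : Units.map (constantCoeff (R := R)).toMonoidHom (gu c) = 1 := by
    ext; simp [gu_val]
  have := congrArg (fun u : Rˣ => (u : R)) (map_zpow (Units.map (constantCoeff (R := R)).toMonoidHom) (gu c) z)
  simp only [h, one_zpow] at this
  exact this

lemma LL_zero (w : R) (a b : ℕ) : LL w 0 a b = 1 := by
  simp [LL, constantCoeff_zpow, gu_inv_val]

lemma MM_zero (w : R) (a b : ℕ) : MM w 0 a b = 1 := by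
  simp [MM, gu_inv_val]

lemma LL_zero_zero (w : R) (N : ℕ) : LL w (N + 1) 0 0 = 0 := by
  have h : ((N + 1 : ℕ) : ℤ) - 1 - (0 : ℕ) + (0 : ℕ) = (N : ℤ) := by push_cast; ring
  rw [LL, h, zpow_natCast, Units.val_pow_eq_pow_val, gu_val, pow_zero, pow_zero, one_mul, one_mul]
  rw [show (1 - C (-(1 + w)) * X : R⟦X⟧) = 1 + C (1 + w) * X by simp [sub_eq_add_neg]; ring]
  rw [coeff_gu_pow, Nat.choose_eq_zero_of_lt (by omega)]
  simp

lemma MM_zero_zero (w : R) (N : ℕ) : MM w (N + 1) 0 0 = 0 := by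
  simp [MM, coeff_one]

lemma LL_a_succ (w : R) (N a b : ℕ) :
    LL w (N + 1) (a + 1) b = LL w (N + 1) a b - 3 * LL w N a b := by
  have h1 : (gu (-(1 + w)) : R⟦X⟧ˣ) ^ (((N + 1 : ℕ) : ℤ) - 1 - a + b) =
      (gu (-(1 + w))) ^ ((N : ℤ) - 1 - a + b) * gu (-(1 + w)) := by
    rw [← zpow_add_one]; congr 1; push_cast; ring
  have h2 : ((N + 1 : ℕ) : ℤ) - 1 - (a + 1 : ℕ) + b = (N : ℤ) - 1 - a + b := by push_cast; ring
  rw [LL, LL, LL, h1, h2]
  rw [Units.val_mul, gu_val, pow_succ]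
  rw [← coeff_succ_X_mul N]
  have : (3 : R) = ((3 : ℕ) : R) := by norm_num
  have h3 : ∀ φ : R⟦X⟧, (3 : R) * coeff (N + 1) (X * φ) = coeff (N + 1) (3 * (X * φ)) := by
    intro φ
    rw [show (3 : R⟦X⟧) = C (3 : R) from (map_ofNat C 3).symm, coeff_C_mul]
  rw [h3, ← map_sub]
  congr 1
  simp only [map_neg, map_add, map_sub, map_one, map_ofNat]
  ring

lemma LL_b_succ (w : R) (N a b : ℕ) :
    LL w (N + 1) a (b + 1) = LL w (N + 1) a b + 3 * w * LL w N a (b + 1) := by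
  have h1 : (gu (-(1 + w)) : R⟦X⟧ˣ) ^ (((N + 1 : ℕ) : ℤ) - 1 - a + (b + 1 : ℕ)) =
      (gu (-(1 + w))) ^ ((N : ℤ) - a + b) * gu (-(1 + w)) := by
    rw [← zpow_add_one]; congr 1; push_cast; ring
  have h2 : ((N + 1 : ℕ) : ℤ) - 1 - a + b = (N : ℤ) - a + b := by push_cast; ring
  have h2' : (N : ℤ) - 1 - a + (b + 1 : ℕ) = (N : ℤ) - a + b := by push_cast; ring
  have h4 : (((gu (2 * w - 1))⁻¹ : R⟦X⟧ˣ) : R⟦X⟧) ^ b =
    (((gu (2 * w - 1))⁻¹ : R⟦X⟧ˣ) : R⟦X⟧) ^ (b + 1) * ((gu (2 * w - 1) : R⟦X⟧ˣ) : R⟦X⟧) := by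
    rw [pow_succ, mul_assoc, Units.inv_mul, mul_one]
  rw [LL, LL, LL, h1, h2, h2', h4]
  rw [Units.val_mul, gu_val, gu_val]
  rw [← coeff_succ_X_mul N]
  have h3 : ∀ φ : R⟦X⟧, (3 * w : R) * coeff (N + 1) (X * φ) = coeff (N + 1) (3 * C w * (X * φ)) := by
    intro φ
    rw [show (3 * C w : R⟦X⟧) = C (3 * w : R) by rw [map_mul, map_ofNat], coeff_C_mul]
  rw [h3, ← map_add]
  congr 1
  simp only [map_neg, map_add, map_sub, map_mul, map_one, map_ofNat]
  ring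

lemma MM_a_succ (w : R) (N a b : ℕ) :
    MM w (N + 1) (a + 1) b = MM w (N + 1) a b - 3 * MM w N a b := by
  rw [MM, MM, MM]
  rw [pow_succ (3 : R) N, ← coeff_succ_X_mul N]
  have : ∀ x y z : R, x = y - z → 3 ^ N * 3 * x = 3 ^ N * 3 * y - 3 * (3 ^ N * z) := by
    intro x y z h; rw [h]; ring
  apply this
  rw [← map_sub]
  congr 1
  rw [pow_succ, map_neg, map_one]
  ring

lemma MM_b_succ (w : R) (N a b : ℕ) :
    MM w (N + 1) a (b + 1) = MM w (N + 1) a b + 3 * w * MM w N a (b + 1) := by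
  have h4 : (((gu w)⁻¹ : R⟦X⟧ˣ) : R⟦X⟧) ^ b =
    (((gu w)⁻¹ : R⟦X⟧ˣ) : R⟦X⟧) ^ (b + 1) * ((gu w : R⟦X⟧ˣ) : R⟦X⟧) := by
    rw [pow_succ, mul_assoc, Units.inv_mul, mul_one]
  rw [MM, MM, MM, h4]
  rw [pow_succ (3 : R) N, ← coeff_succ_X_mul N]
  have : ∀ x y z : R, x = y + w * z → 3 ^ N * 3 * x = 3 ^ N * 3 * y + 3 * w * (3 ^ N * z) := by
    intro x y z h; rw [h]; ring
  apply this
  rw [← coeff_C_mul, ← map_add]
  congr 1
  rw [gu_val]
  ring

theorem LL_eq_MM (w : R) (N a b : ℕ) : LL w N a b = MM w N a b := by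
  induction a generalizing N with
  | zero =>
    induction b generalizing N with
    | zero =>
      cases N with
      | zero => rw [LL_zero, MM_zero]
      | succ N => rw [LL_zero_zero, MM_zero_zero]
    | succ b ihb =>
      induction N with
      | zero => rw [LL_zero, MM_zero]
      | succ N ihN => rw [LL_b_succ, MM_b_succ, ihb, ihN]
  | succ a iha =>
    cases N with
    | zero => rw [LL_zero, MM_zero]
    | succ N => rw [LL_a_succ, MM_a_succ, iha, iha]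

end MP5d
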